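import Mathlib
import Pool.Agent.H50.W.Near

set_option autoImplicit false
open Finset

/-!
# Rotations and translations of worlds with plates (Route W, W-G)

`syR` = rotation of the lattice by 90 degrees, `rc` = rotation of the cells of the tile frame.
`Fr n` = frame: symmetry `T` of the lattice with the map `φ` of the cells (side `n`).
* `PB_fr` : law of the labels in the image of a frame;
* `frR`, `frT`, `Fr.cmp` : rotation, translation by a cell vector, composition;
* `fr k t` : translation by the cell vector `t`, then `k` rotations; cells `c ↦ rc^[k] (c + t)`.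
* `plu u pl` : the plates `pl`, origin moved to the vertex `u`; `PB_plu`.
-/

namespace Pool.Agent.H65.G

open Pool.Agent.H75.Perc hiding WL CT hh PB
open Pool.Agent.H75.TwoArm
open Pool.Agent.Q1.M4 (Cell)
open Pool.Agent.H33.Q1
open Pool.Agent.H58.W Pool.Agent.H50.W

/-- rotation by 90 degrees -/
def syR : Sy where
  g u := (-u.2, u.1)
  g' u := (u.2, -u.1)
  G := ⟨fun e => (-e.2, e.1), by
    intro a b h
    have h1 := congrArg Prod.fst h
    have h2 := congrArg Prod.snd h
    simp only at h1 h2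
    exact Prod.ext (by omega) (by omega)⟩
  G' e := (e.2, -e.1)
  gg' u := by simp
  g'g u := by simp
  GG' e := by simp
  add u v := by
    refine Prod.ext ?_ ?_ <;>
    simp only [Function.Embedding.coeFn_mk, Prod.fst_add, Prod.snd_add]
    ring
  unit u v := by
    unfold IsUnit4
    simp only [Prod.ext_iff, Prod.fst_sub, Prod.snd_sub]
    omega

/-- composition: first `S2`, then `S1` -/
def cmp (S1 S2 : Sy) : Sy where
  g u := S1.g (S2.g u)
  g' u := S2.g' (S1.g' u)
  G := S2.G.trans S1.G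
  G' e := S2.G' (S1.G' e)
  gg' u := by rw [S2.gg', S1.gg']
  g'g u := by rw [S1.g'g, S2.g'g]
  GG' e := by
    show S1.G (S2.G (S2.G' (S1.G' e))) = e
    rw [S2.GG', S1.GG']
  add u v := by
    rw [S1.add, S2.add]
    rfl
  unit u v := by rw [S2.unit, S1.unit]

/-- rotation of the cells -/
def rc (c : Cell) : Cell := (-1 - c.2, c.1)

/-- inverse rotation -/
def rc' (c : Cell) : Cell := (c.2, -1 - c.1)

@[simp] lemma rc_rc' (c : Cell) : rc (rc' c) = c := by
  unfold rc rc'; simp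

@[simp] lemma rc'_rc (c : Cell) : rc' (rc c) = c := by
  unfold rc rc'; simp

lemma rc_inj : Function.Injective rc := Function.LeftInverse.injective rc'_rc

lemma rc4 (c : Cell) : rc (rc (rc (rc c))) = c := by
  unfold rc
  refine Prod.ext ?_ ?_ <;> simp only <;> ring

lemma tt_rot {e : ℤ × ℤ} (he : (e.1 + e.2) % 2 = 1) : tt (syR.G e) = rc (tt e) := by
  show tt (-e.2, e.1) = _
  unfold tt rc
  refine Prod.ext ?_ ?_ <;> simp only <;> omega

lemma neg_div' {n : ℤ} (hn : 0 < n) (y : ℤ) : (-1 - y) / n = -1 - y / n := by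
  obtain ⟨h1, h2⟩ := (dv hn).1 (rfl : y / n = y / n)
  rw [dv hn]
  have : n * (-1 - y / n) = -n - n * (y / n) := by ring
  rw [this]
  omega

lemma ct_rc {n : ℤ} (hn : 0 < n) (p : ℤ × ℤ) : ct n (rc p) = rc (ct n p) := by
  unfold ct rc
  simp only [neg_div' hn]

/-- A frame: symmetry of the lattice with the map of the cells of side `n`. -/
structure Fr (n : ℤ) where
  T : Sy
  φ : Cell → Cell
  odd : ∀ e : ℤ × ℤ, (e.1 + e.2) % 2 = 1 → ((T.G e).1 + (T.G e).2) % 2 = 1
  odd' : ∀ e : ℤ × ℤ, ((T.G e).1 + (T.G e).2) % 2 = 1 → (e.1 + e.2) % 2 = 1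
  ct : ∀ e : ℤ × ℤ, (e.1 + e.2) % 2 = 1 → ct n (tt (T.G e)) = φ (ct n (tt e))

/-- **The law of the labels in the image of a frame.** -/
theorem PB_fr {n : ℤ} (F : Fr n) {κ : Type*} [DecidableEq κ] (pl : Cell → Option κ)
    {E : Finset (ℤ × ℤ)} (hE : ∀ e ∈ E, (e.1 + e.2) % 2 = 1) (A : Finset (ℤ × ℤ) → Prop) :
    PB (E.map F.T.G) (bk n pl) A =
      PB E (bk n (fun c => pl (F.φ c))) (fun ω => A (ω.map F.T.G)) := by
  rw [PB_map]
  refine PB_blocks (fun e he e' he' => ?_) _
  rw [bk_eq_iff, bk_eq_iff, F.ct e (hE e he), F.ct e' (hE e' he')]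
  exact or_congr ⟨fun h1 => F.T.G.injective h1, fun h1 => by rw [h1]⟩ Iff.rfl

lemma TL_fr {n : ℤ} (hn : 0 < n) (F : Fr n) {U : Finset Cell} {V : Finset Cell}
    (h : ∀ c, F.φ c ∈ V ↔ c ∈ U) : (TL U n).map F.T.G = TL V n := by
  ext e
  rw [F.T.mem_map, mem_TL hn, mem_TL hn]
  have h1 : F.T.G (F.T.G' e) = e := F.T.GG' e
  constructor
  · rintro ⟨h2, h3⟩
    have h4 := F.odd _ h2
    have h5 := F.ct _ h2
    rw [h1] at h4 h5
    exact ⟨h4, by rw [h5]; exact (h _).2 h3⟩
  · rintro ⟨h2, h3⟩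
    have h4 : ((F.T.G' e).1 + (F.T.G' e).2) % 2 = 1 := F.odd' _ (by rw [h1]; exact h2)
    have h5 := F.ct _ h4
    rw [h1] at h5
    exact ⟨h4, (h _).1 (by rw [← h5]; exact h3)⟩

/-- rotation -/
def frR {n : ℤ} (hn : 0 < n) : Fr n where
  T := syR
  φ := rc
  odd e he := by
    show (-e.2 + e.1) % 2 = 1
    omega
  odd' e he := by
    have : (-e.2 + e.1) % 2 = 1 := he
    omega
  ct e he := by rw [tt_rot he, ct_rc hn]

/-- translation by a cell vector -/
def frT {h : ℕ} (hh : 0 < h) (t : Cell) : Fr (2 * (h : ℤ)) where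
  T := syT (tv' h t)
  φ c := c + t
  odd e he := by
    show (e.1 + 2 * (tv' h t).1 + (e.2 + 2 * (tv' h t).2)) % 2 = 1
    omega
  odd' e he := by
    have : (e.1 + 2 * (tv' h t).1 + (e.2 + 2 * (tv' h t).2)) % 2 = 1 := he
    omega
  ct e _ := ct_tr hh t e

/-- composition -/
def Fr.cmp {n : ℤ} (F1 F2 : Fr n) : Fr n where
  T := Pool.Agent.H65.G.cmp F1.T F2.T
  φ c := F1.φ (F2.φ c)
  odd e he := F1.odd _ (F2.odd e he)
  odd' e he := F2.odd' _ (F1.odd' _ he)
  ct e he := by
    show Pool.Agent.H33.Q1.ct n (tt (F1.T.G (F2.T.G e))) = _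
    rw [F1.ct _ (F2.odd e he), F2.ct e he]

/-- translation by the cell vector `t`, then `k` rotations -/
def fr {h : ℕ} (hh : 0 < h) (t : Cell) : ℕ → Fr (2 * (h : ℤ))
  | 0 => frT hh t
  | k + 1 => (frR (by positivity)).cmp (fr hh t k)

lemma fr_φ {h : ℕ} (hh : 0 < h) (t : Cell) (k : ℕ) (c : Cell) :
    (fr hh t k).φ c = rc^[k] (c + t) := by
  induction k with
  | zero => rfl
  | succ k ih =>
    rw [Function.iterate_succ_apply', ← ih]
    rfl

/-! ### Moving the origin to a vertex -/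

/-- the coin map of the plates `pl` with the origin at the vertex `u` -/
def bku {κ : Type*} (u : ℤ × ℤ) (n : ℤ) (pl : Cell → Option κ) (e : ℤ × ℤ) : (ℤ × ℤ) ⊕ κ :=
  bk n pl ((syT u).G' e)

lemma GG'T (u e : ℤ × ℤ) : (syT u).G' ((syT u).G e) = e :=
  (syT u).G.injective ((syT u).GG' _)

/-- the law near `u` -/
theorem PB_bku {κ : Type*} [DecidableEq κ] (u : ℤ × ℤ) (n : ℤ) (pl : Cell → Option κ)
    (E : Finset (ℤ × ℤ)) (A : Finset (ℤ × ℤ) → Prop) :
    PB (E.map (syT u).G) (bku u n pl) A = PB E (bk n pl) (fun ω => A (ω.map (syT u).G)) := by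
  rw [PB_map]
  refine PB_blocks (fun e _ e' _ => ?_) _
  unfold bku
  rw [GG'T, GG'T]

/-- natural world -/
lemma PB_bku_none {κ : Type*} [DecidableEq κ] (u : ℤ × ℤ) (n : ℤ) (E : Finset (ℤ × ℤ))
    (A : Finset (ℤ × ℤ) → Prop) :
    PB E (bku u n (fun _ => (none : Option κ))) A = Pr E A := by
  refine PB_inj (fun e _ e' _ h => ?_) A
  unfold bku at h
  rw [bk_none rfl, bk_none rfl] at h
  have h1 := Sum.inl_injective h
  have h2 := congrArg (syT u).G h1
  rwa [(syT u).GG', (syT u).GG'] at h2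

end Pool.Agent.H65.G
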