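import Mathlib
import Pool.Agent.H65.G.Rot

set_option autoImplicit false
open Finset

/-!
# The pinwheel ring of plates (Route W, W-G)

Square `[-N, N)²` of cells, `N = N2 m M`. In the frame of the side `k` (`k = 0` bottom, then
counterclockwise; cells `c ↦ rc'^[k] c`) the side is the line `y = -N`, and its plates are
`M K ≤ x < M (K + 1)`, `-hw K ≤ y + N < hw K`, `hw K = τ + N2 m - 1 - K` (thick at the start, thin at the
tip). The thick end of a side gives way to the tip plate of the previous side. `rg c` = plate `(k, K)` of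
the cell `c`.

`pos` = perimeter index of a plate, from the middle of the bottom side; `hy P` = ring with the plates of
the first `P` chunks (`m` plates in a chunk). `up` jumps over the big blocks (start, four corners,
closing) of `e` chunks; `U P` = cells of the block `P`.
-/

namespace Pool.Agent.H65.G

open Pool.Agent.H75.Perc hiding WL CT hh PB
open Pool.Agent.H75.TwoArm
open Pool.Agent.Q1.M4 (Cell)
open Pool.Agent.H33.Q1
open Pool.Agent.H58.W Pool.Agent.H50.W

/-- parameters of the ring -/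
structure RG where
  /-- half number of chunks on a side -/
  N2 : ℕ
  /-- plates in a chunk -/
  m : ℕ
  /-- cells in a plate -/
  M : ℕ
  /-- chunks in a big block -/
  e : ℕ
  /-- half thickness of the tip -/
  τ : ℕ
  hm : 0 < m
  hM : 0 < M
  he : 0 < e
  hN2 : 2 * e ≤ N2
  hτ : 0 < τ
  thin : τ + 2 * (N2 * m) ≤ M

namespace RG

variable (D : RG)

/-- length of a chunk -/
def l : ℕ := D.m * D.M

/-- half side in cells -/
def N : ℕ := D.N2 * (D.m * D.M)

lemma N_eq : D.N = D.N2 * D.l := rfl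

lemma hl : 0 < D.l := Nat.mul_pos D.hm D.hM

/-- number of plates on half a side -/
def n2 : ℕ := D.N2 * D.m

lemma N_eq' : D.N = D.n2 * D.M := by unfold N n2; ring

lemma N2_pos : 2 ≤ D.N2 := by have := D.he; have := D.hN2; omega

lemma n2_pos : 2 ≤ D.n2 := by
  have h1 := D.N2_pos
  have h2 := D.hm
  unfold n2
  nlinarith

lemma N_ge : 2 * D.M ≤ D.N := by
  rw [D.N_eq']
  exact Nat.mul_le_mul_right _ D.n2_pos

/-- half width of the plate `K` -/
def hw (K : ℤ) : ℤ := D.τ + D.n2 - 1 - K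

/-- plate index of an abscissa -/
def K (x : ℤ) : ℤ := x / D.M

/-- cells of the plates of a side, in the frame of the side -/
def onA (c : Cell) : Prop :=
  (-(D.N : ℤ) ≤ c.1 ∧ c.1 < D.N) ∧ (-D.hw (D.K c.1) ≤ c.2 + D.N ∧ c.2 + D.N < D.hw (D.K c.1)) ∧
    ¬ (c.1 < -(D.N : ℤ) + D.τ ∧ -(D.N : ℤ) ≤ c.2)

lemma K_bounds {x : ℤ} (h1 : -(D.N : ℤ) ≤ x) (h2 : x < D.N) :
    -(D.n2 : ℤ) ≤ D.K x ∧ D.K x < D.n2 := by
  have hM : (0 : ℤ) < D.M := by exact_mod_cast D.hM
  have h3 : (D.N : ℤ) = D.n2 * D.M := by exact_mod_cast D.N_eq'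
  unfold K
  constructor
  · rw [Int.le_ediv_iff_mul_le hM]; linarith
  · rw [Int.ediv_lt_iff_lt_mul hM]; linarith

lemma hw_bounds {x : ℤ} (h1 : -(D.N : ℤ) ≤ x) (h2 : x < D.N) :
    (D.τ : ℤ) ≤ D.hw (D.K x) ∧ D.hw (D.K x) < D.M := by
  have h3 := D.K_bounds h1 h2
  have h4 : (D.τ : ℤ) + 2 * D.n2 ≤ D.M := by
    have := D.thin
    unfold n2
    exact_mod_cast this
  unfold hw
  omega

/-- in the tip plate the half width is `τ` -/
lemma hw_tip {x : ℤ} (h1 : (D.N : ℤ) - D.M ≤ x) (h2 : x < D.N) : D.hw (D.K x) = D.τ := by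
  have hM : (0 : ℤ) < D.M := by exact_mod_cast D.hM
  have h3 : (D.N : ℤ) = D.n2 * D.M := by exact_mod_cast D.N_eq'
  have h4 : D.K x = D.n2 - 1 := by
    unfold K
    rw [dv hM]
    constructor <;> linarith
  rw [h4]
  unfold hw
  ring

lemma disj1 {c : Cell} (h : D.onA c) (h' : D.onA (rc' c)) : False := by
  obtain ⟨⟨a1, a2⟩, ⟨a3, a4⟩, a5⟩ := h
  obtain ⟨⟨b1, b2⟩, ⟨b3, b4⟩, b5⟩ := h'
  have h1 := D.hw_bounds b1 b2
  have h2 : (rc' c).2 = -1 - c.1 := rfl
  have h3 : (rc' c).1 = c.2 := rfl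
  rw [h3] at b1 b2 b3 b4 b5 h1
  rw [h2] at b3 b4 b5
  have h4 := D.hw_tip (x := c.1) (by omega) a2
  rw [h4] at a3 a4
  apply b5
  constructor <;> omega

lemma disj2 {c : Cell} (h : D.onA c) (h' : D.onA (rc' (rc' c))) : False := by
  obtain ⟨⟨a1, a2⟩, ⟨a3, a4⟩, a5⟩ := h
  obtain ⟨⟨b1, b2⟩, ⟨b3, b4⟩, b5⟩ := h'
  have h1 := D.hw_bounds b1 b2
  have h2 := D.hw_bounds a1 a2
  have h3 : (rc' (rc' c)).2 = -1 - c.2 := rfl
  rw [h3] at b3 b4
  have h4 : 2 * (D.M : ℤ) ≤ D.N := by exact_mod_cast D.N_ge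
  have hM : (0 : ℤ) < D.M := by exact_mod_cast D.hM
  omega

lemma rc'4 (c : Cell) : rc' (rc' (rc' (rc' c))) = c := by
  unfold rc'
  refine Prod.ext ?_ ?_ <;> simp only <;> ring

lemma disj3 {c : Cell} (h : D.onA c) (h' : D.onA (rc' (rc' (rc' c)))) : False := by
  refine D.disj1 h' ?_
  rw [rc'4]; exact h

open Classical in
/-- **The ring of plates.** -/
noncomputable def rg (c : Cell) : Option (ℕ × ℤ) :=
  if D.onA c then some (0, D.K c.1)
  else if D.onA (rc' c) then some (1, D.K (rc' c).1)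
  else if D.onA (rc' (rc' c)) then some (2, D.K (rc' (rc' c)).1)
  else if D.onA (rc' (rc' (rc' c))) then some (3, D.K (rc' (rc' (rc' c))).1)
  else none

/-- the plate of a cell, from the frame of the side `k` -/
lemma rg_eq {k : ℕ} (hk : k < 4) {c : Cell} (h : D.onA c) : D.rg (rc^[k] c) = some (k, D.K c.1) := by
  classical
  unfold rg
  rcases Nat.lt_succ_iff_lt_or_eq.1 hk with hk | rfl
  · rcases Nat.lt_succ_iff_lt_or_eq.1 hk with hk | rfl
    · rcases Nat.lt_succ_iff_lt_or_eq.1 hk with hk | rfl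
      · have : k = 0 := by omega
        subst this
        rw [Function.iterate_zero_apply, if_pos h]
      · have e1 : rc^[1] c = rc c := rfl
        have n1 : ¬ D.onA (rc c) := fun h1 => D.disj1 h1 (by rw [rc'_rc]; exact h)
        rw [e1, if_neg n1, rc'_rc, if_pos h]
    · have e1 : rc^[2] c = rc (rc c) := rfl
      have n2 : ¬ D.onA (rc c) := fun h1 => D.disj1 h1 (by rw [rc'_rc]; exact h)
      have n1 : ¬ D.onA (rc (rc c)) := fun h1 => D.disj2 h1 (by rw [rc'_rc, rc'_rc]; exact h)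
      rw [e1, if_neg n1, rc'_rc, if_neg n2, rc'_rc, if_pos h]
  · have e1 : rc^[3] c = rc (rc (rc c)) := rfl
    have n3 : ¬ D.onA (rc c) := fun h1 => D.disj1 h1 (by rw [rc'_rc]; exact h)
    have n2 : ¬ D.onA (rc (rc c)) := fun h1 => D.disj2 h1 (by rw [rc'_rc, rc'_rc]; exact h)
    have n1 : ¬ D.onA (rc (rc (rc c))) := fun h1 =>
      D.disj3 h1 (by rw [rc'_rc, rc'_rc, rc'_rc]; exact h)
    rw [e1, if_neg n1, rc'_rc, if_neg n2, rc'_rc, if_neg n3, rc'_rc, if_pos h]

lemma rc'_iter (k : ℕ) (c : Cell) : rc^[k] (rc'^[k] c) = c := by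
  induction k generalizing c with
  | zero => rfl
  | succ k ih => rw [Function.iterate_succ_apply, Function.iterate_succ_apply', rc_rc', ih]

lemma rc_iter' (k : ℕ) (c : Cell) : rc'^[k] (rc^[k] c) = c := by
  induction k generalizing c with
  | zero => rfl
  | succ k ih => rw [Function.iterate_succ_apply, Function.iterate_succ_apply', rc'_rc, ih]

lemma rg_some {c : Cell} {q : ℕ × ℤ} (h : D.rg c = some q) :
    q.1 < 4 ∧ D.onA (rc'^[q.1] c) ∧ q.2 = D.K (rc'^[q.1] c).1 := by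
  classical
  unfold rg at h
  split_ifs at h with h1 h2 h3 h4
  all_goals
    have h5 := Option.some_injective _ h
    subst h5
  · exact ⟨by norm_num, h1, rfl⟩
  · exact ⟨by norm_num, h2, rfl⟩
  · exact ⟨by norm_num, h3, rfl⟩
  · exact ⟨by norm_num, h4, rfl⟩

lemma rg_none {c : Cell} : D.rg c = none ↔ ∀ k < 4, ¬ D.onA (rc'^[k] c) := by
  constructor
  · intro h k hk h1
    have h2 := D.rg_eq hk h1
    rw [rc'_iter, h] at h2
    cases h2
  · intro h
    rcases h1 : D.rg c with _ | q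
    · rfl
    · have h2 := D.rg_some h1
      exact absurd h2.2.1 (h _ h2.1)

/-! ### Order of the plates -/

/-- perimeter index of a plate, from the middle of the bottom side, counterclockwise -/
def pos (q : ℕ × ℤ) : ℤ := if q.1 = 0 ∧ q.2 < 0 then q.2 + 8 * D.n2 else q.2 + 2 * D.n2 * q.1

lemma pos_bounds {c : Cell} {q : ℕ × ℤ} (h : D.rg c = some q) : 0 ≤ D.pos q ∧ D.pos q < 8 * D.n2 := by
  obtain ⟨h1, h2, h3⟩ := D.rg_some h
  have h4 := D.K_bounds h2.1.1 h2.1.2
  rw [← h3] at h4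
  unfold pos
  have h5 : q.1 = 0 ∨ q.1 = 1 ∨ q.1 = 2 ∨ q.1 = 3 := by omega
  rcases h5 with h5 | h5 | h5 | h5
  · by_cases h6 : q.2 < 0
    · rw [if_pos ⟨h5, h6⟩]
      omega
    · rw [if_neg (fun h7 => h6 h7.2), h5]
      push_cast; omega
  · simp only [h5]
    rw [if_neg (by omega)]
    push_cast; omega
  · simp only [h5]
    rw [if_neg (by omega)]
    push_cast; omega
  · simp only [h5]
    rw [if_neg (by omega)]
    push_cast; omega

/-- the cell `c` belongs to one of the first `P` chunks -/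
def In (P : ℤ) (c : Cell) : Prop := ∃ q, D.rg c = some q ∧ D.pos q < D.m * P

open Classical in
/-- **the ring with the first `P` chunks** -/
noncomputable def hy (P : ℤ) (c : Cell) : Option (ℕ × ℤ) := if D.In P c then D.rg c else none

lemma hy_zero (c : Cell) : D.hy 0 c = none := by
  classical
  unfold hy
  rw [if_neg]
  rintro ⟨q, h1, h2⟩
  have := (D.pos_bounds h1).1
  rw [mul_zero] at h2
  omega

lemma hy_all (c : Cell) : D.hy (8 * D.N2) c = D.rg c := by
  classical
  unfold hy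
  by_cases h : D.In (8 * D.N2) c
  · rw [if_pos h]
  · rw [if_neg h]
    rcases h1 : D.rg c with _ | q
    · rfl
    · exfalso
      apply h
      refine ⟨q, h1, ?_⟩
      have h2 := (D.pos_bounds h1).2
      have h3 : (D.m : ℤ) * (8 * D.N2) = 8 * D.n2 := by unfold n2; push_cast; ring
      rw [h3]
      exact h2

lemma In.mono {P P' : ℤ} (hP : P ≤ P') {c : Cell} (h : D.In P c) : D.In P' c := by
  obtain ⟨q, h1, h2⟩ := h
  refine ⟨q, h1, h2.trans_le ?_⟩
  exact mul_le_mul_of_nonneg_left hP (by positivity)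

/-- outside the cells between, nothing changes -/
lemma hy_congr {P P' : ℤ} (hP : P ≤ P') {c : Cell} (h : ¬ (D.In P' c ∧ ¬ D.In P c)) :
    D.hy P c = D.hy P' c := by
  classical
  unfold hy
  by_cases h1 : D.In P c
  · rw [if_pos h1, if_pos (h1.mono D hP)]
  · have h2 : ¬ D.In P' c := fun h2 => h ⟨h2, h1⟩
    rw [if_neg h1, if_neg h2]

/-- starts of the big blocks -/
def Big (s : ℕ) : Prop :=
  s = 0 ∨ s = D.N2 ∨ s = 3 * D.N2 ∨ s = 5 * D.N2 ∨ s = 7 * D.N2 ∨ s = 8 * D.N2 - D.e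

instance : DecidablePred D.Big := fun s => by unfold Big; infer_instance

/-- the next cut point -/
def up (P : ℕ) : ℕ :=
  if 0 < P ∧ P < D.e then D.e
  else if D.N2 < P ∧ P < D.N2 + D.e then D.N2 + D.e
  else if 3 * D.N2 < P ∧ P < 3 * D.N2 + D.e then 3 * D.N2 + D.e
  else if 5 * D.N2 < P ∧ P < 5 * D.N2 + D.e then 5 * D.N2 + D.e
  else if 7 * D.N2 < P ∧ P < 7 * D.N2 + D.e then 7 * D.N2 + D.e
  else if 8 * D.N2 - D.e < P ∧ P < 8 * D.N2 then 8 * D.N2
  else P

lemma up_zero : D.up 0 = 0 := by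
  have := D.he
  have := D.hN2
  unfold up
  rw [if_neg (by omega), if_neg (by omega), if_neg (by omega), if_neg (by omega), if_neg (by omega),
    if_neg (by omega)]

lemma up_last : D.up (8 * D.N2) = 8 * D.N2 := by
  have := D.he
  have := D.hN2
  unfold up
  rw [if_neg (by omega), if_neg (by omega), if_neg (by omega), if_neg (by omega), if_neg (by omega),
    if_neg (by omega)]

lemma up_mono (P : ℕ) : D.up P ≤ D.up (P + 1) := by
  have := D.he
  have := D.hN2
  unfold up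
  split_ifs <;> omega

/-- Kinds of steps: trivial, big, or single. -/
lemma up_cases {P : ℕ} (hP : P < 8 * D.N2) : D.up P = D.up (P + 1) ∨
    (D.Big P ∧ D.up P = P ∧ D.up (P + 1) = P + D.e) ∨
    (D.up P = P ∧ D.up (P + 1) = P + 1 ∧
      ((D.e ≤ P ∧ P < D.N2) ∨ (D.N2 + D.e ≤ P ∧ P < 3 * D.N2) ∨
        (3 * D.N2 + D.e ≤ P ∧ P < 5 * D.N2) ∨ (5 * D.N2 + D.e ≤ P ∧ P < 7 * D.N2) ∨
        (7 * D.N2 + D.e ≤ P ∧ P < 8 * D.N2 - D.e))) := by
  have := D.he
  have := D.hN2
  unfold up Big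
  split_ifs <;> omega

/-- the block of the step `P` -/
def inU (P : ℕ) (c : Cell) : Prop := D.In (D.up (P + 1)) c ∧ ¬ D.In (D.up P) c

end RG

end Pool.Agent.H65.G
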