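import Mathlib
import Pool.Agent.H65.G.Ring
import Pool.Agent.H98.W.A4Arm

set_option autoImplicit false
open Finset

/-!
# The local worlds of the ring (Route W, W-G)

Local frames `rc^[k] (c + t)`.
* `near_tr` : transport of the event `A4` of a block to a local frame;
* `hy_single`, `U_single` : at a single chunk the world is the junction world `plJ`;
* `hy_corner`, `U_corner` : at a corner block the world is `chn 0 M τ` (tip);
* `hy_close`, `U_close` : at the closing block the world is `chn N M τ` off the block;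
* `hy_start`, `U_start` : natural.
-/

namespace Pool.Agent.H65.G

open Pool.Agent.H75.Perc hiding WL CT hh PB
open Pool.Agent.H75.TwoArm
open Pool.Agent.Q1.M4 (Cell)
open Pool.Agent.H33.Q1
open Pool.Agent.H58.W Pool.Agent.H50.W Pool.Agent.H41.W Pool.Agent.H6.W
open Pool.Agent.H50.W.Chd (A4_chn pch mem_pch chn_eq)

/-! ### Transport -/

/-- the symmetry of a frame with the origin at `u` -/
def Gu {n : ℤ} (u : ℤ × ℤ) (F : Fr n) : Sy := cmp (syT u) F.T

lemma map_Gu {n : ℤ} (u : ℤ × ℤ) (F : Fr n) (A : Finset (ℤ × ℤ)) :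
    A.map (Gu u F).G = (A.map F.T.G).map (syT u).G := by
  rw [Finset.map_map]
  rfl

/-- **Transport of the event `A4`** of the block of cells `U` to a local frame. -/
theorem near_tr {n : ℤ} (hn : 0 < n) {κ : Type*} [DecidableEq κ] (F : Fr n) (u : ℤ × ℤ)
    (pl : Cell → Option κ) {E : Finset (ℤ × ℤ)} {V U U' : Finset Cell}
    (hE : (TL V n).map (Gu u F).G ⊆ E) (hU : ∀ c, F.φ c ∈ U ↔ c ∈ U') :
    PB E (bku u n pl) (A4 ((TL V n).map (Gu u F).G) ((TL U n).map (syT u).G)) =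
      PB (TL V n) (bk n (fun c => pl (F.φ c))) (A4 (TL V n) (TL U' n)) := by
  have hTU : (TL U' n).map F.T.G = TL U n := TL_fr hn F hU
  have hodd : ∀ e ∈ TL V n, (e.1 + e.2) % 2 = 1 := fun e he => ((mem_TL hn).1 he).1
  have e1 : PB E (bku u n pl) (A4 ((TL V n).map (Gu u F).G) ((TL U n).map (syT u).G)) =
      PB ((TL V n).map (Gu u F).G) (bku u n pl)
        (A4 ((TL V n).map (Gu u F).G) ((TL U n).map (syT u).G)) := by
    rw [← PB_restrict hE]
    exact PB_congr fun ω _ => A4_inter.symm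
  rw [e1, map_Gu, PB_bku, PB_fr F pl hodd, ← hTU]
  refine PB_congr fun ω _ => ?_
  rw [A4_map, A4_map]

namespace RG

variable (D : RG)

/-! ### The plates in the frame of a side -/

lemma In_side {P : ℤ} {k : ℕ} (hk : k < 4) {c : Cell} (hc : D.onA c) :
    D.In P (rc^[k] c) ↔ D.pos (k, D.K c.1) < D.m * P := by
  have h1 := D.rg_eq hk hc
  unfold In
  constructor
  · rintro ⟨q, h2, h3⟩
    rw [h1] at h2
    rw [Option.some_injective _ h2]
    exact h3
  · intro h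
    exact ⟨_, h1, h⟩

lemma rc'3 (c : Cell) : rc' (rc' (rc' c)) = rc c := by
  have h := rc'4 (rc c)
  rwa [rc'_rc] at h

/-- the other sides seen from the frame of the side `k` -/
lemma rg_side {k : ℕ} (hk : k < 4) {c : Cell} {q : ℕ × ℤ} (h : D.rg (rc^[k] c) = some q) :
    (q.1 = k ∧ D.onA c ∧ q.2 = D.K c.1) ∨
    (q.1 = (k + 1) % 4 ∧ (D.N : ℤ) - D.M ≤ c.1 ∧ q.2 = D.K c.2 ∧ D.onA (rc' c)) ∨
    (q.1 = (k + 2) % 4 ∧ (D.N : ℤ) - D.M ≤ c.2) ∨
    (q.1 = (k + 3) % 4 ∧ c.1 < -(D.N : ℤ) + D.M) := by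
  obtain ⟨h1, h2, h3⟩ := D.rg_some h
  have e0 : ∀ (a : Cell), D.onA a → a.2 < -(D.N : ℤ) + D.M := by
    intro a ha
    have := D.hw_bounds ha.1.1 ha.1.2
    have := ha.2.1.2
    omega
  -- the number of rotations between the frames
  have key : ∀ j < 4, q.1 = (k + j) % 4 → rc'^[q.1] (rc^[k] c) = rc'^[j] c := by
    intro j hj hq
    have e4 : ∀ a : Cell, rc'^[4] a = a := fun a => rc'4 a
    have e5 : ∀ a : Cell, rc'^[k + j] (rc^[k] a) = rc'^[j] a := fun a => by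
      rw [add_comm k j, Function.iterate_add_apply, rc_iter']
    rcases lt_or_ge (k + j) 4 with h4 | h4
    · rw [hq, Nat.mod_eq_of_lt h4]
      exact e5 c
    · have h5 : (k + j) % 4 = k + j - 4 := by omega
      have h6 : k + j = (k + j - 4) + 4 := by omega
      have h7 := e5 c
      rw [h6, Function.iterate_add_apply, e4] at h7
      rw [hq, h5]
      exact h7
  have hj : ∃ j < 4, q.1 = (k + j) % 4 := by
    refine ⟨(q.1 + 4 - k) % 4, Nat.mod_lt _ (by norm_num), ?_⟩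
    omega
  obtain ⟨j, hj, hq⟩ := hj
  have h4 := key j hj hq
  rw [h4] at h2 h3
  rcases Nat.lt_succ_iff_lt_or_eq.1 hj with hj | rfl
  · rcases Nat.lt_succ_iff_lt_or_eq.1 hj with hj | rfl
    · rcases Nat.lt_succ_iff_lt_or_eq.1 hj with hj | rfl
      · have : j = 0 := by omega
        subst this
        left
        exact ⟨by rw [hq]; omega, h2, h3⟩
      · right; left
        have h5 := e0 _ h2
        have h6 : (rc'^[1] c).2 = -1 - c.1 := rfl
        rw [h6] at h5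
        exact ⟨hq, by omega, h3, h2⟩
    · right; right; left
      have h5 := e0 _ h2
      have h6 : (rc'^[2] c).2 = -1 - c.2 := rfl
      rw [h6] at h5
      exact ⟨hq, by omega⟩
  · right; right; right
    have h5 := e0 _ h2
    have h6 : (rc'^[3] c).2 = c.1 := by
      show (rc' (rc' (rc' c))).2 = c.1
      rw [rc'3]
      rfl
    rw [h6] at h5
    exact ⟨hq, h5⟩

lemma hy_of_In {P : ℤ} {c : Cell} (h : D.In P c) : D.hy P c = D.rg c := by
  classical
  unfold hy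
  rw [if_pos h]

lemma hy_of_not {P : ℤ} {c : Cell} (h : ¬ D.In P c) : D.hy P c = none := by
  classical
  unfold hy
  rw [if_neg h]

lemma n2_eq : (D.n2 : ℤ) = D.N2 * D.m := by unfold n2; push_cast; rfl

lemma pos_cases {q : ℕ × ℤ} (h1 : q.1 < 4) : (q.1 = 0 ∧ q.2 < 0 ∧ D.pos q = q.2 + 8 * D.n2) ∨
    (q.1 = 0 ∧ 0 ≤ q.2 ∧ D.pos q = q.2) ∨ (q.1 = 1 ∧ D.pos q = q.2 + 2 * D.n2) ∨
    (q.1 = 2 ∧ D.pos q = q.2 + 4 * D.n2) ∨ (q.1 = 3 ∧ D.pos q = q.2 + 6 * D.n2) := by
  unfold pos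
  rcases (show q.1 = 0 ∨ q.1 = 1 ∨ q.1 = 2 ∨ q.1 = 3 by omega) with h | h | h | h
  · by_cases h0 : q.2 < 0
    · left
      rw [if_pos ⟨h, h0⟩]
      exact ⟨h, h0, rfl⟩
    · right; left
      rw [if_neg (fun h5 => h0 h5.2), h]
      exact ⟨rfl, by omega, by push_cast; ring⟩
  · right; right; left
    rw [if_neg (by omega), h]
    exact ⟨rfl, by push_cast; ring⟩
  · right; right; right; left
    rw [if_neg (by omega), h]
    exact ⟨rfl, by push_cast; ring⟩
  · right; right; right; right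
    rw [if_neg (by omega), h]
    exact ⟨rfl, by push_cast; ring⟩

/-- the side of the chunk `P` -/
def sd (P : ℕ) : ℕ := (P + D.N2) / (2 * D.N2)

/-- the number of the chunk in its side -/
def ix (P : ℕ) : ℤ := P - 2 * D.N2 * D.sd P

/-- a single chunk -/
def Sgl (P : ℕ) : Prop :=
  (D.e ≤ P ∧ P < D.N2) ∨ (D.N2 + D.e ≤ P ∧ P < 3 * D.N2) ∨
    (3 * D.N2 + D.e ≤ P ∧ P < 5 * D.N2) ∨ (5 * D.N2 + D.e ≤ P ∧ P < 7 * D.N2) ∨
    (7 * D.N2 + D.e ≤ P ∧ P < 8 * D.N2 - D.e)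

/-- what is known about a single chunk -/
lemma sgl_cases {P : ℕ} (h : D.Sgl P) : ∃ k' : ℕ, D.sd P = k' ∧ k' ≤ 4 ∧
    (P : ℤ) = D.ix P + 2 * D.N2 * k' ∧ D.ix P < D.N2 ∧
    (k' = 0 → (D.e : ℤ) ≤ D.ix P) ∧ (k' ≠ 0 → -(D.N2 : ℤ) + D.e ≤ D.ix P) ∧
    (k' = 4 → D.ix P < -(D.e : ℤ)) := by
  have h0 := D.N2_pos
  have he := D.he
  have hN := D.hN2
  have hsd : ∀ k' : ℕ, 2 * D.N2 * k' ≤ P + D.N2 → P + D.N2 < 2 * D.N2 * k' + 2 * D.N2 →
      D.sd P = k' := by
    intro k' h1 h2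
    unfold sd
    exact Nat.div_eq_of_lt_le (by linarith) (by linarith)
  unfold Sgl at h
  have hix : ∀ k' : ℕ, D.sd P = k' → D.ix P = P - 2 * D.N2 * k' := by
    intro k' hk
    unfold ix
    rw [hk]
  rcases h with h | h | h | h | h
  · have h1 := hsd 0 (by omega) (by omega)
    have h2 := hix 0 h1
    push_cast at h2
    refine ⟨0, h1, by norm_num, by push_cast; omega, by omega, fun _ => by omega,
      fun h => absurd rfl h, fun h => absurd h (by norm_num)⟩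
  · have h1 := hsd 1 (by omega) (by omega)
    have h2 := hix 1 h1
    push_cast at h2
    refine ⟨1, h1, by norm_num, by push_cast; omega, by omega, fun h => absurd h (by norm_num),
      fun _ => by omega, fun h => absurd h (by norm_num)⟩
  · have h1 := hsd 2 (by omega) (by omega)
    have h2 := hix 2 h1
    push_cast at h2
    refine ⟨2, h1, by norm_num, by push_cast; omega, by omega, fun h => absurd h (by norm_num),
      fun _ => by omega, fun h => absurd h (by norm_num)⟩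
  · have h1 := hsd 3 (by omega) (by omega)
    have h2 := hix 3 h1
    push_cast at h2
    refine ⟨3, h1, by norm_num, by push_cast; omega, by omega, fun h => absurd h (by norm_num),
      fun _ => by omega, fun h => absurd h (by norm_num)⟩
  · have h1 := hsd 4 (by omega) (by omega)
    have h2 := hix 4 h1
    push_cast at h2
    refine ⟨4, h1, by norm_num, by push_cast; omega, by omega, fun h => absurd h (by norm_num),
      fun _ => by omega, fun _ => by omega⟩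

/-- the region around a single chunk, frame of its side -/
def Nb (P : ℕ) (a r : ℕ) (c : Cell) : Prop :=
  ((D.l : ℤ) * (D.ix P + 1) - a ≤ c.1 ∧ c.1 < D.l * (D.ix P + 1) + a) ∧
    (-(D.N : ℤ) - r ≤ c.2 ∧ c.2 < -(D.N : ℤ) + r)

/-- plates near a single chunk: the installed plates are the plates to the left of it, in the same
side -/
lemma In_single {P : ℕ} (hP : D.Sgl P) {a r : ℕ} (ha : a ≤ D.e * D.l) (hr : r ≤ D.N)
    {c : Cell} (hc : D.Nb P a r c) {Q : ℤ} (hQ : (P : ℤ) ≤ Q) (hQ' : Q ≤ P + 1) :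
    D.In Q (rc^[D.sd P % 4] c) ↔ D.onA c ∧ D.K c.1 < D.m * (D.ix P + (Q - P)) := by
  obtain ⟨k', h1, h2, h3, h4, h5, h6, h7⟩ := D.sgl_cases hP
  rw [h1]
  set I := D.ix P with hI
  obtain ⟨⟨c1, c2⟩, c3, c4⟩ := hc
  rw [← hI] at c1 c2
  have hl : (0 : ℤ) < D.l := by exact_mod_cast D.hl
  have hN : (D.N : ℤ) = D.N2 * D.l := by exact_mod_cast D.N_eq
  have hm : (0 : ℤ) < D.m := by exact_mod_cast D.hm
  have hMl : (D.M : ℤ) ≤ D.l := by
    have : D.M ≤ D.m * D.M := Nat.le_mul_of_pos_left _ D.hm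
    exact_mod_cast this
  have hN2M : 2 * (D.M : ℤ) ≤ D.N := by exact_mod_cast D.N_ge
  have haZ : (a : ℤ) ≤ D.e * D.l := by exact_mod_cast ha
  have hrZ : (r : ℤ) ≤ D.N := by exact_mod_cast hr
  have hMp : (0 : ℤ) < D.M := by exact_mod_cast D.hM
  have hn2 := D.n2_eq
  have heN : 2 * (D.e : ℤ) ≤ D.N2 := by exact_mod_cast D.hN2
  have hep : (0 : ℤ) < D.e := by exact_mod_cast D.he
  -- left bound
  have lft : k' ≠ 0 → -(D.N : ℤ) + D.l ≤ c.1 := by
    intro hk
    have h8 := h6 hk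
    have : (D.l : ℤ) * (-(D.N2 : ℤ) + D.e + 1) ≤ D.l * (I + 1) :=
      mul_le_mul_of_nonneg_left (by omega) hl.le
    nlinarith
  have lft0 : k' = 0 → (D.l : ℤ) ≤ c.1 := by
    intro hk
    have h8 := h5 hk
    have : (D.l : ℤ) * ((D.e : ℤ) + 1) ≤ D.l * (I + 1) :=
      mul_le_mul_of_nonneg_left (by omega) hl.le
    nlinarith
  have rgt4 : k' = 4 → c.1 < 0 := by
    intro hk
    have h8 := h7 hk
    have : (D.l : ℤ) * (I + 1) ≤ D.l * (-(D.e : ℤ)) :=
      mul_le_mul_of_nonneg_left (by omega) hl.le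
    nlinarith
  -- position in the side
  have posK : ∀ K : ℤ, -(D.n2 : ℤ) ≤ K → K < D.n2 → (k' = 0 → 0 ≤ K) → (k' = 4 → K < 0) →
      D.pos (k' % 4, K) = K + 2 * D.n2 * k' := by
    intro K g1 g2 g3 g4
    unfold pos
    simp only
    rcases (show k' = 0 ∨ k' = 1 ∨ k' = 2 ∨ k' = 3 ∨ k' = 4 by omega) with rfl | rfl | rfl | rfl | rfl
    · rw [if_neg (by have := g3 rfl; omega)]
    · rw [if_neg (by omega)]
    · rw [if_neg (by omega)]
    · rw [if_neg (by omega)]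
    · rw [if_pos ⟨by norm_num, g4 rfl⟩]
      push_cast; ring
  have side : ∀ K : ℤ, (K + 2 * D.n2 * k' < D.m * Q ↔ K < D.m * (I + (Q - P))) := by
    intro K
    have e1 : (D.m : ℤ) * Q = D.m * (I + (Q - P)) + 2 * D.n2 * k' := by
      rw [hn2]
      have : Q = (I + (Q - P)) + 2 * D.N2 * k' := by rw [← sub_eq_zero]; rw [h3]; ring
      calc (D.m : ℤ) * Q = D.m * ((I + (Q - P)) + 2 * D.N2 * k') := by rw [← this]
        _ = _ := by ring
    rw [e1]
    constructor <;> intro h <;> linarith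
  have hk4 : k' % 4 < 4 := Nat.mod_lt _ (by norm_num)
  constructor
  · rintro ⟨q, hq1, hq2⟩
    have hcases := D.rg_side hk4 hq1
    rcases hcases with ⟨g1, g2, g3⟩ | ⟨g1, g2, g3, g4⟩ | ⟨g1, g2⟩ | ⟨g1, g2⟩
    · refine ⟨g2, ?_⟩
      have hKb := D.K_bounds g2.1.1 g2.1.2
      have hq : q = (k' % 4, D.K c.1) := Prod.ext g1 g3
      rw [hq, posK _ hKb.1 hKb.2 ?_ ?_, side] at hq2
      · exact hq2
      · intro hk
        have := lft0 hk
        unfold K
        exact Int.ediv_nonneg (by omega) hMp.le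
      · intro hk
        exact Int.ediv_neg_of_neg_of_pos (rgt4 hk) hMp
    · exfalso
      -- the next side is not installed
      have hKb := D.K_bounds g4.1.1 g4.1.2
      have hk4' : k' ≠ 4 := by
        intro hk
        have := rgt4 hk
        omega
      have hKc : D.K (rc' c).1 = q.2 := g3.symm
      rw [hKc] at hKb
      have hpos : D.pos q = q.2 + 2 * D.n2 * (k' + 1) ∨ (k' = 3 ∧ D.pos q = q.2 + 8 * D.n2) ∨
          (k' = 3 ∧ D.pos q = q.2 ∧ 0 ≤ q.2) := by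
        unfold pos
        rcases (show k' = 0 ∨ k' = 1 ∨ k' = 2 ∨ k' = 3 by omega) with rfl | rfl | rfl | rfl
        · left
          rw [g1, if_neg (by omega)]
          push_cast; ring
        · left
          rw [g1, if_neg (by omega)]
          push_cast; ring
        · left
          rw [g1, if_neg (by omega)]
          push_cast; ring
        · right
          rw [g1]
          by_cases hq0 : q.2 < 0
          · left
            rw [if_pos ⟨by norm_num, hq0⟩]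
            exact ⟨rfl, rfl⟩
          · right
            rw [if_neg (fun h => hq0 h.2)]
            refine ⟨rfl, ?_, by omega⟩
            push_cast
            ring
      have hmQ : (D.m : ℤ) * Q ≤ D.n2 * (2 * k' + 1) := by
        rw [hn2]
        have h10 : Q ≤ D.N2 * (2 * k' + 1) := by
          have : (P : ℤ) + 1 ≤ D.N2 * (2 * k' + 1) := by
            rw [h3]
            have e2 : (D.N2 : ℤ) * (2 * k' + 1) = 2 * D.N2 * k' + D.N2 := by ring
            rw [e2]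
            omega
          omega
        have := mul_le_mul_of_nonneg_left h10 hm.le
        calc (D.m : ℤ) * Q ≤ D.m * (D.N2 * (2 * k' + 1)) := this
          _ = _ := by ring
      have e3 : (D.n2 : ℤ) * (2 * k' + 1) = 2 * D.n2 * k' + D.n2 := by ring
      have e4 : 2 * (D.n2 : ℤ) * (k' + 1) = 2 * D.n2 * k' + 2 * D.n2 := by ring
      rw [e3] at hmQ
      rcases hpos with h9 | ⟨h9, h10⟩ | ⟨h9, h10, h11⟩
      · rw [h9, e4] at hq2
        linarith [hKb.1]
      · rw [h10] at hq2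
        subst h9
        push_cast at hmQ
        linarith [hKb.1]
      · -- side 0, right half, seen from side 3: too far
        have g5 : q.2 = D.K c.2 := g3
        rw [g5] at h11
        have h12 : c.2 < 0 := by omega
        have := Int.ediv_neg_of_neg_of_pos h12 hMp
        unfold K at h11
        omega
    · exfalso
      omega
    · exfalso
      by_cases hk : k' = 0
      · have := lft0 hk
        omega
      · have := lft hk
        omega
  · rintro ⟨g1, g2⟩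
    have hKb := D.K_bounds g1.1.1 g1.1.2
    rw [D.In_side hk4 g1, posK _ hKb.1 hKb.2 ?_ ?_, side]
    · exact g2
    · intro hk
      have := lft0 hk
      unfold K
      exact Int.ediv_nonneg (by omega) hMp.le
    · intro hk
      exact Int.ediv_neg_of_neg_of_pos (rgt4 hk) hMp

lemma nb_left {P : ℕ} (hP : D.Sgl P) {a r : ℕ} (ha : a ≤ D.e * D.l) {c : Cell}
    (hc : D.Nb P a r c) : -(D.N : ℤ) + D.l ≤ c.1 := by
  obtain ⟨k', h1, h2, h3, h4, h5, h6, h7⟩ := D.sgl_cases hP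
  obtain ⟨⟨c1, c2⟩, -⟩ := hc
  have hl : (0 : ℤ) < D.l := by exact_mod_cast D.hl
  have hN : (D.N : ℤ) = D.N2 * D.l := by exact_mod_cast D.N_eq
  have haZ : (a : ℤ) ≤ D.e * D.l := by exact_mod_cast ha
  have hI : -(D.N2 : ℤ) + D.e ≤ D.ix P := by
    by_cases hk : k' = 0
    · have := h5 hk
      have : (0 : ℤ) ≤ D.N2 := by positivity
      omega
    · exact h6 hk
  have : (D.l : ℤ) * (-(D.N2 : ℤ) + D.e + 1) ≤ D.l * (D.ix P + 1) :=
    mul_le_mul_of_nonneg_left (by omega) hl.le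
  nlinarith

/-- the tip of the chunk, frame of its side -/
def tpc (P : ℕ) : Cell := (D.l * (D.ix P + 1), -(D.N : ℤ))

/-- thickness at the tip of the chunk, minus one -/
def ta (P : ℕ) : ℤ := D.τ + D.n2 - 1 - D.m * (D.ix P + 1)

lemma K_tp {P : ℕ} (c : Cell) : D.K (c + D.tpc P).1 = c.1 / D.M + D.m * (D.ix P + 1) := by
  have h1 : (D.M : ℤ) ≠ 0 := by exact_mod_cast D.hM.ne'
  unfold K tpc l
  simp only [Prod.fst_add]
  have : c.1 + ((D.m * D.M : ℕ) : ℤ) * (D.ix P + 1) = c.1 + D.M * (D.m * (D.ix P + 1)) := by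
    push_cast; ring
  rw [this, Int.add_mul_ediv_left _ _ h1]

lemma hw_tp {P : ℕ} (c : Cell) : D.hw (D.K (c + D.tpc P).1) = D.ta P - c.1 / D.M := by
  rw [K_tp]
  unfold hw ta
  ring

/-- local box around the tip -/
def Vb (a r : ℕ) (c : Cell) : Prop := (-(a : ℤ) ≤ c.1 ∧ c.1 < a) ∧ (-(r : ℤ) ≤ c.2 ∧ c.2 < r)

lemma nb_of {P a r : ℕ} {c : Cell} (hc : Vb a r c) : D.Nb P a r (c + D.tpc P) := by
  obtain ⟨⟨h1, h2⟩, h3, h4⟩ := hc
  unfold Nb tpc
  simp only [Prod.fst_add, Prod.snd_add]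
  refine ⟨⟨?_, ?_⟩, ?_, ?_⟩ <;> linarith

/-- in the box around a single chunk, a cell with the right thickness and plate index `< n2` is a cell
of the side -/
lemma onA_single {P : ℕ} (hP : D.Sgl P) {a r : ℕ} (ha : a ≤ D.e * D.l) {c : Cell} (hc : Vb a r c)
    {j : ℤ} (hj : j ≤ 1) (hK : D.K (c + D.tpc P).1 < D.m * (D.ix P + j)) :
    D.onA (c + D.tpc P) ↔ -(D.ta P - c.1 / D.M) ≤ c.2 ∧ c.2 < D.ta P - c.1 / D.M := by
  have hM : (0 : ℤ) < D.M := by exact_mod_cast D.hM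
  have hm : (0 : ℤ) < D.m := by exact_mod_cast D.hm
  have hlft := D.nb_left hP ha (D.nb_of (P := P) hc)
  have hMl : (D.M : ℤ) ≤ D.l := by
    have : D.M ≤ D.m * D.M := Nat.le_mul_of_pos_left _ D.hm
    exact_mod_cast this
  have hτM : (D.τ : ℤ) ≤ D.M := by
    have := D.thin
    have h : D.τ ≤ D.M := by omega
    exact_mod_cast h
  have hix : D.ix P < D.N2 := by
    obtain ⟨k', h1, h2, h3, h4, -⟩ := D.sgl_cases hP
    exact h4
  have hrgt : (c + D.tpc P).1 < D.N := by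
    have h1 : D.K (c + D.tpc P).1 < D.n2 := by
      refine hK.trans_le ?_
      rw [D.n2_eq, mul_comm (D.N2 : ℤ)]
      exact mul_le_mul_of_nonneg_left (by omega) hm.le
    unfold K at h1
    rw [Int.ediv_lt_iff_lt_mul hM] at h1
    have : (D.N : ℤ) = D.n2 * D.M := by exact_mod_cast D.N_eq'
    rw [this]
    exact h1
  have e2 : (c + D.tpc P).2 + D.N = c.2 := by
    unfold tpc
    simp only [Prod.snd_add]
    ring
  unfold onA
  rw [D.hw_tp, e2]
  constructor
  · exact fun h => h.2.1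
  · intro h
    refine ⟨⟨by omega, hrgt⟩, h, ?_⟩
    rintro ⟨h1, -⟩
    omega

/-- **The world at a single chunk is the junction world.** -/
theorem hy_single {P : ℕ} (hP : D.Sgl P) {a r : ℕ} (ha : a ≤ D.e * D.l) (hr : r ≤ D.N)
    {c : Cell} (hc : Vb a r c) : D.hy P (rc^[D.sd P % 4] (c + D.tpc P)) =
      (plJ D.M D.m (D.ta P) c).map (fun κ => (D.sd P % 4, κ + D.m * (D.ix P + 1))) := by
  have hM : (0 : ℤ) < D.M := by exact_mod_cast D.hM
  have hk4 : D.sd P % 4 < 4 := Nat.mod_lt _ (by norm_num)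
  have h1 := D.In_single hP ha hr (D.nb_of (P := P) hc) (Q := P) le_rfl (by omega)
  rw [sub_self, add_zero] at h1
  have h2 : D.K (c + D.tpc P).1 < D.m * D.ix P ↔ c.1 < -((D.m * D.M : ℕ) : ℤ) := by
    rw [K_tp]
    have : c.1 / (D.M : ℤ) + D.m * (D.ix P + 1) < D.m * D.ix P ↔ c.1 / (D.M : ℤ) < -(D.m : ℤ) := by
      constructor <;> intro h <;> linarith
    rw [this, Int.ediv_lt_iff_lt_mul hM]
    push_cast
    rw [neg_mul]
  unfold plJ
  by_cases h3 : D.In P (rc^[D.sd P % 4] (c + D.tpc P))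
  · rw [D.hy_of_In h3]
    obtain ⟨h4, h5⟩ := h1.1 h3
    have h6 := (D.onA_single hP ha hc (j := 0) (by norm_num) (by rw [add_zero]; exact h5)).1 h4
    rw [if_pos ⟨h2.1 h5, h6⟩, D.rg_eq hk4 h4, K_tp]
    rfl
  · rw [D.hy_of_not h3, if_neg]
    · rfl
    · rintro ⟨h4, h5⟩
      apply h3
      rw [h1]
      have h6 := h2.2 h4
      exact ⟨(D.onA_single hP ha hc (j := 0) (by norm_num) (by rw [add_zero]; exact h6)).2 h5, h6⟩

lemma up_single {P : ℕ} (hP : D.Sgl P) : D.up P = P ∧ D.up (P + 1) = P + 1 := by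
  have := D.he
  have := D.hN2
  unfold Sgl at hP
  unfold up
  constructor <;> split_ifs <;> omega

/-- **The block of a single chunk.** -/
theorem U_single {P : ℕ} (hP : D.Sgl P) {a r : ℕ} (ha : a ≤ D.e * D.l) (hr : r ≤ D.N)
    {c : Cell} (hc : Vb a r c) : D.inU P (rc^[D.sd P % 4] (c + D.tpc P)) ↔
      inJ D.M D.m (D.ta P) c := by
  have hM : (0 : ℤ) < D.M := by exact_mod_cast D.hM
  obtain ⟨u1, u2⟩ := D.up_single hP
  unfold inU
  rw [u1, u2]
  have h1 := D.In_single hP ha hr (D.nb_of (P := P) hc) (Q := P) le_rfl (by omega)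
  have h1' := D.In_single hP ha hr (D.nb_of (P := P) hc) (Q := P + 1) (by omega) le_rfl
  rw [sub_self, add_zero] at h1
  rw [add_sub_cancel_left] at h1'
  push_cast
  rw [h1, h1']
  have h2 : D.K (c + D.tpc P).1 < D.m * D.ix P ↔ c.1 < -((D.m * D.M : ℕ) : ℤ) := by
    rw [K_tp]
    have : c.1 / (D.M : ℤ) + D.m * (D.ix P + 1) < D.m * D.ix P ↔ c.1 / (D.M : ℤ) < -(D.m : ℤ) := by
      constructor <;> intro h <;> linarith
    rw [this, Int.ediv_lt_iff_lt_mul hM]
    push_cast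
    rw [neg_mul]
  have h3 : D.K (c + D.tpc P).1 < D.m * (D.ix P + 1) ↔ c.1 < 0 := by
    rw [K_tp]
    have : c.1 / (D.M : ℤ) + D.m * (D.ix P + 1) < D.m * (D.ix P + 1) ↔ c.1 / (D.M : ℤ) < 0 := by
      constructor <;> intro h <;> linarith
    rw [this, Int.ediv_lt_iff_lt_mul hM, zero_mul]
  unfold inJ
  constructor
  · rintro ⟨⟨h4, h5⟩, h6⟩
    have h7 := (D.onA_single hP ha hc (j := 1) le_rfl h5).1 h4
    refine ⟨?_, h3.1 h5, h7.1, h7.2⟩
    by_contra h8
    exact h6 ⟨h4, h2.2 (by omega)⟩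
  · rintro ⟨h4, h5, h6⟩
    have h7 := h3.2 h5
    have h8 := (D.onA_single hP ha hc (j := 1) le_rfl h7).2 h6
    refine ⟨⟨h8, h7⟩, ?_⟩
    rintro ⟨-, h9⟩
    rw [h2] at h9
    omega

/-! ### Corners -/

/-- the corner at the end of the side `j`, frame of the side `j` -/
def tc : Cell := ((D.N : ℤ), -(D.N : ℤ))

lemma K_tc (c : Cell) : D.K (c + D.tc).1 = c.1 / D.M + D.n2 := by
  have h1 : (D.M : ℤ) ≠ 0 := by exact_mod_cast D.hM.ne'
  have h2 : (D.N : ℤ) = D.M * D.n2 := by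
    have := D.N_eq'
    rw [mul_comm] at this
    exact_mod_cast this
  unfold K tc
  simp only [Prod.fst_add]
  rw [h2, Int.add_mul_ediv_left _ _ h1]

lemma onA_corner {R : ℕ} (hR : R + D.M ≤ D.N) {c : Cell} (hc : Vb R R c) :
    D.onA (c + D.tc) ↔ c.1 < 0 ∧ -((D.τ : ℤ) - 1 - c.1 / D.M) ≤ c.2 ∧
      c.2 < (D.τ : ℤ) - 1 - c.1 / D.M := by
  obtain ⟨⟨h1, h2⟩, h3, h4⟩ := hc
  have hRZ : (R : ℤ) + D.M ≤ D.N := by exact_mod_cast hR
  have hτM : (D.τ : ℤ) ≤ D.M := by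
    have := D.thin
    have h : D.τ ≤ D.M := by omega
    exact_mod_cast h
  have e2 : (c + D.tc).2 + D.N = c.2 := by
    unfold tc
    simp only [Prod.snd_add]
    ring
  have e1 : (c + D.tc).1 = c.1 + D.N := rfl
  have e3 : D.hw (D.K (c + D.tc).1) = (D.τ : ℤ) - 1 - c.1 / D.M := by
    rw [K_tc]
    unfold hw
    ring
  unfold onA
  rw [e3, e2, e1]
  have hM : (0 : ℤ) < D.M := by exact_mod_cast D.hM
  constructor
  · exact fun h => ⟨by omega, h.2.1⟩
  · intro h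
    refine ⟨⟨by omega, by omega⟩, h.2, ?_⟩
    rintro ⟨h5, -⟩
    omega

/-- at the corner the installed plates are those of the arriving side -/
lemma In_corner {j : ℕ} (hj : j < 4) {R : ℕ} (hR : R + D.M ≤ D.N) {c : Cell} (hc : Vb R R c) :
    D.In ((D.N2 * (2 * j + 1) : ℕ) : ℤ) (rc^[j] (c + D.tc)) ↔ D.onA (c + D.tc) := by
  obtain ⟨⟨b1, b2⟩, b3, b4⟩ := hc
  have hRZ : (R : ℤ) + D.M ≤ D.N := by exact_mod_cast hR
  have hM : (0 : ℤ) < D.M := by exact_mod_cast D.hM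
  have e1 : (c + D.tc).1 = c.1 + D.N := rfl
  have e2 : (c + D.tc).2 = c.2 - D.N := by
    unfold tc
    simp only [Prod.snd_add]
    ring
  have hmP : (D.m : ℤ) * ((D.N2 * (2 * j + 1) : ℕ) : ℤ) = D.n2 * (2 * j + 1) := by
    rw [D.n2_eq]; push_cast; ring
  constructor
  · rintro ⟨q, hq1, hq2⟩
    rw [hmP] at hq2
    rcases D.rg_side hj hq1 with ⟨g1, g2, g3⟩ | ⟨g1, g2, g3, g4⟩ | ⟨g1, g2⟩ | ⟨g1, g2⟩
    · exact g2
    · exfalso
      have hKb := D.K_bounds g4.1.1 g4.1.2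
      have hKc : D.K (rc' (c + D.tc)).1 = q.2 := g3.symm
      rw [hKc] at hKb
      unfold pos at hq2
      rcases (show j = 0 ∨ j = 1 ∨ j = 2 ∨ j = 3 by omega) with rfl | rfl | rfl | rfl
      · rw [g1, if_neg (by omega)] at hq2
        push_cast at hq2
        omega
      · rw [g1, if_neg (by omega)] at hq2
        push_cast at hq2
        omega
      · rw [g1, if_neg (by omega)] at hq2
        push_cast at hq2
        omega
      · by_cases hq0 : q.2 < 0
        · rw [if_pos ⟨g1, hq0⟩] at hq2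
          push_cast at hq2
          omega
        · rw [g3] at hq0
          apply hq0
          unfold K
          exact Int.ediv_neg_of_neg_of_pos (by omega) hM
    · exfalso; omega
    · exfalso; omega
  · intro h
    have hKb := D.K_bounds h.1.1 h.1.2
    rw [D.In_side hj h, hmP]
    unfold pos
    simp only
    rcases (show j = 0 ∨ j = 1 ∨ j = 2 ∨ j = 3 by omega) with rfl | rfl | rfl | rfl
    · have hK0 : 0 ≤ D.K (c + D.tc).1 := by
        unfold K
        exact Int.ediv_nonneg (by omega) hM.le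
      rw [if_neg (by omega)]
      push_cast
      omega
    · rw [if_neg (by omega)]
      push_cast
      omega
    · rw [if_neg (by omega)]
      push_cast
      omega
    · rw [if_neg (by omega)]
      push_cast
      omega

/-- **The world at a corner block is the chain with its tip at the corner.** -/
theorem hy_corner {j : ℕ} (hj : j < 4) {R : ℕ} (hR : R + D.M ≤ D.N) {c : Cell} (hc : Vb R R c) :
    D.hy ((D.N2 * (2 * j + 1) : ℕ) : ℤ) (rc^[j] (c + D.tc)) =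
      (chn 0 D.M D.τ c).map (fun i : ℕ => (j, (D.n2 : ℤ) - 1 - (i : ℤ))) := by
  have hM : (0 : ℤ) < D.M := by exact_mod_cast D.hM
  have h1 := D.In_corner hj hR hc
  have h2 := D.onA_corner hR hc
  rw [chn_eq D.hM]
  by_cases h3 : D.In ((D.N2 * (2 * j + 1) : ℕ) : ℤ) (rc^[j] (c + D.tc))
  · have h4 := h1.1 h3
    have h5 := h2.1 h4
    rw [D.hy_of_In h3, D.rg_eq hj h4, if_pos h5, K_tc]
    have h6 : c.1 / (D.M : ℤ) < 0 := Int.ediv_neg_of_neg_of_pos h5.1 hM
    have h7 : ((-(c.1 / (D.M : ℤ)) - 1).toNat : ℤ) = -(c.1 / D.M) - 1 := by omega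
    rw [Option.map_some, h7]
    congr 2
    ring
  · rw [D.hy_of_not h3, if_neg]
    · rfl
    · intro h4
      exact h3 (h1.2 (h2.2 h4))

lemma up_corner {j : ℕ} (hj : j < 4) : D.up (D.N2 * (2 * j + 1)) = D.N2 * (2 * j + 1) ∧
    D.up (D.N2 * (2 * j + 1) + 1) = D.N2 * (2 * j + 1) + D.e := by
  have := D.he
  have := D.hN2
  unfold up
  rcases (show j = 0 ∨ j = 1 ∨ j = 2 ∨ j = 3 by omega) with rfl | rfl | rfl | rfl
  · constructor <;> split_ifs <;> omega
  · constructor <;> split_ifs <;> omega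
  · constructor <;> split_ifs <;> omega
  · constructor <;> split_ifs <;> omega

/-- **A corner block lies near the corner.** -/
theorem U_corner {j : ℕ} (hj : j < 4) {r1 : ℕ} (hr : D.e * D.l ≤ r1) {c : Cell}
    (h : D.inU (D.N2 * (2 * j + 1)) (rc^[j] (c + D.tc))) : Vb r1 r1 c := by
  obtain ⟨u1, u2⟩ := D.up_corner hj
  unfold inU at h
  rw [u1, u2] at h
  obtain ⟨⟨q, hq1, hq2⟩, h2⟩ := h
  have hq3 : ¬ D.pos q < D.m * ((D.N2 * (2 * j + 1) : ℕ) : ℤ) := fun h3 => h2 ⟨q, hq1, h3⟩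
  have hM : (0 : ℤ) < D.M := by exact_mod_cast D.hM
  have hmP : (D.m : ℤ) * ((D.N2 * (2 * j + 1) : ℕ) : ℤ) = D.n2 * (2 * j + 1) := by
    rw [D.n2_eq]; push_cast; ring
  have hmP' : (D.m : ℤ) * ((D.N2 * (2 * j + 1) + D.e : ℕ) : ℤ) = D.n2 * (2 * j + 1) + D.m * D.e := by
    rw [D.n2_eq]; push_cast; ring
  rw [hmP] at hq3
  rw [hmP'] at hq2
  have hme : 2 * ((D.m : ℤ) * D.e) ≤ D.n2 := by
    rw [D.n2_eq, mul_comm (D.N2 : ℤ)]
    have : 2 * (D.e : ℤ) ≤ D.N2 := by exact_mod_cast D.hN2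
    have := mul_le_mul_of_nonneg_left this (Int.natCast_nonneg D.m)
    linarith
  have hn2 : (2 : ℤ) ≤ D.n2 := by exact_mod_cast D.n2_pos
  obtain ⟨s1, s2, s3⟩ := D.rg_some hq1
  have sb := D.K_bounds s2.1.1 s2.1.2
  rw [← s3] at sb
  -- the side of the block
  have hq : q.1 = (j + 1) % 4 ∧ q.2 < -(D.n2 : ℤ) + D.m * D.e := by
    have hpc := D.pos_cases s1
    generalize (D.m : ℤ) * D.e = me at *
    generalize D.pos q = ps at *
    clear hmP hmP' u1 u2 h2 s2 s3 hq1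
    rcases (show j = 0 ∨ j = 1 ∨ j = 2 ∨ j = 3 by omega) with rfl | rfl | rfl | rfl <;>
    rcases hpc with ⟨h5, h6, h7⟩ | ⟨h5, h6, h7⟩ | ⟨h5, h7⟩ | ⟨h5, h7⟩ | ⟨h5, h7⟩ <;>
    push_cast at hq2 hq3 <;> constructor <;> omega
  rcases D.rg_side hj hq1 with ⟨g1, -⟩ | ⟨g1, g2, g3, g4⟩ | ⟨g1, -⟩ | ⟨g1, -⟩
  · omega
  · -- position
    have e1 : (c + D.tc).1 = c.1 + D.N := rfl
    have e2 : (c + D.tc).2 = c.2 - D.N := by
      unfold tc
      simp only [Prod.snd_add]
      ring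
    have e3 : (rc' (c + D.tc)).1 = (c + D.tc).2 := rfl
    have e4 : (rc' (c + D.tc)).2 = -1 - (c + D.tc).1 := rfl
    have hb := D.hw_bounds g4.1.1 g4.1.2
    obtain ⟨⟨g5, g6⟩, ⟨g7, g8⟩, -⟩ := g4
    rw [e4, e1] at g7 g8
    rw [e3, e2] at g5
    have h6 := hq.2
    rw [g3] at h6
    unfold K at h6
    rw [Int.ediv_lt_iff_lt_mul hM, e2] at h6
    have h7 : (-(D.n2 : ℤ) + D.m * D.e) * D.M = -(D.N : ℤ) + D.e * D.l := by
      have h8 : (D.N : ℤ) = D.n2 * D.M := by exact_mod_cast D.N_eq'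
      rw [h8]
      unfold l
      push_cast
      ring
    rw [h7] at h6
    have hr' : (D.e : ℤ) * D.l ≤ r1 := by exact_mod_cast hr
    have hMe : (D.M : ℤ) ≤ D.e * D.l := by
      have h9 : D.M ≤ D.e * (D.m * D.M) :=
        (Nat.le_mul_of_pos_left _ D.hm).trans (Nat.le_mul_of_pos_left _ D.he)
      exact_mod_cast h9
    unfold Vb
    omega
  · omega
  · omega

/-! ### The closing block -/

/-- the middle of the bottom side -/
def t0 : Cell := (0, -(D.N : ℤ))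

lemma onA_mid {R : ℕ} (hR : R + D.M ≤ D.N) {c : Cell} (hc : Vb R R c) :
    D.onA (c + D.t0) ↔ -((D.τ : ℤ) + D.n2 - 1 - c.1 / D.M) ≤ c.2 ∧
      c.2 < (D.τ : ℤ) + D.n2 - 1 - c.1 / D.M := by
  obtain ⟨⟨h1, h2⟩, h3, h4⟩ := hc
  have hRZ : (R : ℤ) + D.M ≤ D.N := by exact_mod_cast hR
  have hτM : (D.τ : ℤ) ≤ D.M := by
    have := D.thin
    have h : D.τ ≤ D.M := by omega
    exact_mod_cast h
  have e2 : (c + D.t0).2 + D.N = c.2 := by
    unfold t0
    simp only [Prod.snd_add]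
    ring
  have e1 : (c + D.t0).1 = c.1 := by
    unfold t0
    simp only [Prod.fst_add, add_zero]
  unfold onA
  rw [e2, e1]
  unfold hw K
  constructor
  · exact fun h => h.2.1
  · intro h
    refine ⟨⟨by omega, by omega⟩, h, ?_⟩
    rintro ⟨h5, -⟩
    omega

lemma In_close {R : ℕ} (hR : R + D.M ≤ D.N) {c : Cell} (hc : Vb R R c) :
    D.In ((8 * D.N2 - D.e : ℕ) : ℤ) (c + D.t0) ↔ D.onA (c + D.t0) ∧
      (c.1 / D.M < -((D.m : ℤ) * D.e) ∨ 0 ≤ c.1 / D.M) := by
  obtain ⟨⟨b1, b2⟩, b3, b4⟩ := hc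
  have hRZ : (R : ℤ) + D.M ≤ D.N := by exact_mod_cast hR
  have hM : (0 : ℤ) < D.M := by exact_mod_cast D.hM
  have e1 : (c + D.t0).1 = c.1 := by
    unfold t0
    simp only [Prod.fst_add, add_zero]
  have e2 : (c + D.t0).2 = c.2 - D.N := by
    unfold t0
    simp only [Prod.snd_add]
    ring
  have heN : 2 * (D.e : ℤ) ≤ D.N2 := by exact_mod_cast D.hN2
  have hcast : ((8 * D.N2 - D.e : ℕ) : ℤ) = 8 * D.N2 - D.e := by
    have := D.hN2
    rw [Nat.cast_sub (by omega)]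
    push_cast
    ring
  have hmP : (D.m : ℤ) * ((8 * D.N2 - D.e : ℕ) : ℤ) = 8 * D.n2 - D.m * D.e := by
    rw [hcast, D.n2_eq]; ring
  have hme : 2 * ((D.m : ℤ) * D.e) ≤ D.n2 := by
    rw [D.n2_eq, mul_comm (D.N2 : ℤ)]
    have := mul_le_mul_of_nonneg_left heN (Int.natCast_nonneg D.m)
    linarith
  have hn2 : (2 : ℤ) ≤ D.n2 := by exact_mod_cast D.n2_pos
  constructor
  · rintro ⟨q, hq1, hq2⟩
    rw [hmP] at hq2
    rcases D.rg_side (k := 0) (by norm_num) (c := c + D.t0) hq1 with ⟨g1, g2, g3⟩ | ⟨g1, g2, -⟩ |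
      ⟨g1, g2⟩ | ⟨g1, g2⟩
    · refine ⟨g2, ?_⟩
      have hK : q.2 = c.1 / D.M := by rw [g3, e1]; rfl
      unfold pos at hq2
      rw [hK] at hq2
      by_cases h0 : c.1 / (D.M : ℤ) < 0
      · rw [if_pos ⟨g1, h0⟩] at hq2
        left; omega
      · right; omega
    · exfalso; omega
    · exfalso; omega
    · exfalso; omega
  · rintro ⟨g1, g2⟩
    have h1 := D.In_side (P := ((8 * D.N2 - D.e : ℕ) : ℤ)) (k := 0) (by norm_num) g1
    rw [Function.iterate_zero_apply] at h1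
    have hKb := D.K_bounds g1.1.1 g1.1.2
    rw [h1, hmP]
    unfold pos
    have hK : D.K (c + D.t0).1 = c.1 / D.M := by rw [e1]; rfl
    rw [hK] at hKb ⊢
    simp only
    rcases g2 with g2 | g2
    · have hme0 : 0 ≤ (D.m : ℤ) * D.e := by positivity
      rw [if_pos ⟨trivial, by omega⟩]
      omega
    · rw [if_neg (by omega)]
      push_cast
      omega

/-- **The world at the closing block is the whole chain, off the block.** -/
theorem hy_close {R : ℕ} (hR : R + D.M ≤ D.N) {c : Cell} (hc : Vb R R c)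
    (hU : ¬ (-((D.e * D.l : ℕ) : ℤ) ≤ c.1 ∧ c.1 < 0)) :
    D.hy ((8 * D.N2 - D.e : ℕ) : ℤ) (c + D.t0) =
      (chn D.N D.M D.τ c).map (fun i : ℕ => (0, (D.n2 : ℤ) - 1 - (i : ℤ))) := by
  have hM : (0 : ℤ) < D.M := by exact_mod_cast D.hM
  have h1 := D.In_close hR hc
  have h2 := D.onA_mid hR hc
  obtain ⟨⟨b1, b2⟩, b3, b4⟩ := hc
  have hRZ : (R : ℤ) + D.M ≤ D.N := by exact_mod_cast hR
  have e1 : (c + D.t0).1 = c.1 := by
    unfold t0
    simp only [Prod.fst_add, add_zero]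
  have hcut : c.1 / (D.M : ℤ) < -((D.m : ℤ) * D.e) ∨ 0 ≤ c.1 / (D.M : ℤ) := by
    rcases lt_or_ge c.1 (-((D.e * D.l : ℕ) : ℤ)) with h3 | h3
    · left
      rw [Int.ediv_lt_iff_lt_mul hM]
      have : ((D.e * D.l : ℕ) : ℤ) = D.m * D.e * D.M := by unfold l; push_cast; ring
      rw [this] at h3
      linarith
    · right
      have h4 : 0 ≤ c.1 := by
        by_contra h5
        exact hU ⟨h3, by omega⟩
      exact Int.ediv_nonneg h4 hM.le
  -- the thickness of the chain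
  have hi : ((D.N : ℤ) - c.1 - 1) / D.M = D.n2 - 1 - c.1 / D.M := by
    have h3 : (D.N : ℤ) - c.1 - 1 = (-1 - c.1) + D.M * D.n2 := by
      have : (D.N : ℤ) = D.n2 * D.M := by exact_mod_cast D.N_eq'
      rw [this]; ring
    rw [h3, Int.add_mul_ediv_left _ _ hM.ne', neg_div' hM]
    ring
  have hlt : c.1 / (D.M : ℤ) < D.n2 := by
    rw [Int.ediv_lt_iff_lt_mul hM]
    have : (D.N : ℤ) = D.n2 * D.M := by exact_mod_cast D.N_eq'
    omega
  unfold chn
  rw [if_pos (show c.1 < (D.N : ℤ) by omega)]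
  simp only [hi]
  have hnn : (((D.n2 : ℤ) - 1 - c.1 / D.M).toNat : ℤ) = D.n2 - 1 - c.1 / D.M := by omega
  rw [hnn]
  have e3 : (D.τ : ℤ) + (D.n2 - 1 - c.1 / D.M) = D.τ + D.n2 - 1 - c.1 / D.M := by ring
  rw [e3]
  by_cases h3 : D.In ((8 * D.N2 - D.e : ℕ) : ℤ) (c + D.t0)
  · have h4 := (h1.1 h3).1
    have h5 := h2.1 h4
    have h6 := D.rg_eq (k := 0) (by norm_num) h4
    rw [Function.iterate_zero_apply] at h6
    rw [D.hy_of_In h3, h6, if_pos h5, e1, Option.map_some, hnn]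
    congr 2
    unfold K
    ring
  · rw [D.hy_of_not h3, if_neg]
    · rfl
    · intro h4
      exact h3 (h1.2 ⟨h2.2 h4, hcut⟩)

lemma up_close : D.up (8 * D.N2 - D.e) = 8 * D.N2 - D.e ∧
    D.up (8 * D.N2 - D.e + 1) = 8 * D.N2 := by
  have := D.he
  have := D.hN2
  unfold up
  constructor <;> split_ifs <;> omega

lemma up_start : D.up 0 = 0 ∧ D.up (0 + 1) = D.e := by
  have := D.he
  have := D.hN2
  unfold up
  constructor <;> split_ifs <;> omega

/-- **The closing block lies in the middle of the bottom side.** -/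
theorem U_close {r1 : ℕ} (hr : D.e * D.l ≤ r1) {c : Cell}
    (h : D.inU (8 * D.N2 - D.e) (c + D.t0)) :
    Vb r1 r1 c ∧ -((D.e * D.l : ℕ) : ℤ) ≤ c.1 ∧ c.1 < 0 := by
  obtain ⟨u1, u2⟩ := D.up_close
  unfold inU at h
  rw [u1, u2] at h
  obtain ⟨⟨q, hq1, hq2⟩, h2⟩ := h
  have hq3 : ¬ D.pos q < D.m * ((8 * D.N2 - D.e : ℕ) : ℤ) := fun h3 => h2 ⟨q, hq1, h3⟩
  have hM : (0 : ℤ) < D.M := by exact_mod_cast D.hM
  have hcast : ((8 * D.N2 - D.e : ℕ) : ℤ) = 8 * D.N2 - D.e := by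
    have := D.hN2
    rw [Nat.cast_sub (by omega)]
    push_cast
    ring
  have hmP : (D.m : ℤ) * ((8 * D.N2 - D.e : ℕ) : ℤ) = 8 * D.n2 - D.m * D.e := by
    rw [hcast, D.n2_eq]; ring
  rw [hmP] at hq3
  have hme : 2 * ((D.m : ℤ) * D.e) ≤ D.n2 := by
    rw [D.n2_eq, mul_comm (D.N2 : ℤ)]
    have : 2 * (D.e : ℤ) ≤ D.N2 := by exact_mod_cast D.hN2
    have := mul_le_mul_of_nonneg_left this (Int.natCast_nonneg D.m)
    linarith
  have hn2 : (2 : ℤ) ≤ D.n2 := by exact_mod_cast D.n2_pos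
  obtain ⟨s1, s2, s3⟩ := D.rg_some hq1
  have sb := D.K_bounds s2.1.1 s2.1.2
  rw [← s3] at sb
  have hq : q.1 = 0 ∧ q.2 < 0 ∧ -((D.m : ℤ) * D.e) ≤ q.2 := by
    have hpc := D.pos_cases s1
    generalize (D.m : ℤ) * D.e = me at *
    generalize D.pos q = ps at *
    clear hmP hcast u1 u2 h2 s2 s3 hq1
    rcases hpc with ⟨h5, h6, h7⟩ | ⟨h5, h6, h7⟩ | ⟨h5, h7⟩ | ⟨h5, h7⟩ | ⟨h5, h7⟩ <;>
    refine ⟨?_, ?_, ?_⟩ <;> omega
  rw [hq.1, Function.iterate_zero_apply] at s2 s3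
  have hb := D.hw_bounds s2.1.1 s2.1.2
  have e1 : (c + D.t0).1 = c.1 := by
    unfold t0
    simp only [Prod.fst_add, add_zero]
  have e2 : (c + D.t0).2 + D.N = c.2 := by
    unfold t0
    simp only [Prod.snd_add]
    ring
  have h6 := s2.2.1
  rw [e2] at h6
  rw [e1] at s3
  have h7 : c.1 < 0 := by
    have := hq.2.1
    rw [s3] at this
    unfold K at this
    rw [Int.ediv_lt_iff_lt_mul hM, zero_mul] at this
    exact this
  have h8 : -((D.e * D.l : ℕ) : ℤ) ≤ c.1 := by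
    have := hq.2.2
    rw [s3] at this
    unfold K at this
    rw [Int.le_ediv_iff_mul_le hM] at this
    have h9 : ((D.e * D.l : ℕ) : ℤ) = D.m * D.e * D.M := by unfold l; push_cast; ring
    rw [h9]
    linarith
  have hr' : ((D.e * D.l : ℕ) : ℤ) ≤ r1 := by exact_mod_cast hr
  have hMe : (D.M : ℤ) ≤ ((D.e * D.l : ℕ) : ℤ) := by
    have h9 : D.M ≤ D.e * (D.m * D.M) :=
      (Nat.le_mul_of_pos_left _ D.hm).trans (Nat.le_mul_of_pos_left _ D.he)
    exact_mod_cast h9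
  refine ⟨?_, h8, h7⟩
  unfold Vb
  omega

/-- **The start block lies in the middle of the bottom side.** -/
theorem U_start {r1 : ℕ} (hr : D.e * D.l ≤ r1) {c : Cell} (h : D.inU 0 (c + D.t0)) :
    Vb r1 r1 c := by
  obtain ⟨u1, u2⟩ := D.up_start
  unfold inU at h
  rw [u1, u2] at h
  obtain ⟨⟨q, hq1, hq2⟩, -⟩ := h
  have hM : (0 : ℤ) < D.M := by exact_mod_cast D.hM
  have hme : 2 * ((D.m : ℤ) * D.e) ≤ D.n2 := by
    rw [D.n2_eq, mul_comm (D.N2 : ℤ)]
    have : 2 * (D.e : ℤ) ≤ D.N2 := by exact_mod_cast D.hN2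
    have := mul_le_mul_of_nonneg_left this (Int.natCast_nonneg D.m)
    linarith
  have hn2 : (2 : ℤ) ≤ D.n2 := by exact_mod_cast D.n2_pos
  obtain ⟨s1, s2, s3⟩ := D.rg_some hq1
  have sb := D.K_bounds s2.1.1 s2.1.2
  rw [← s3] at sb
  have hq : q.1 = 0 ∧ 0 ≤ q.2 ∧ q.2 < (D.m : ℤ) * D.e := by
    have hpc := D.pos_cases s1
    generalize (D.m : ℤ) * D.e = me at *
    generalize D.pos q = ps at *
    clear u1 u2 s2 s3 hq1
    rcases hpc with ⟨h5, h6, h7⟩ | ⟨h5, h6, h7⟩ | ⟨h5, h7⟩ | ⟨h5, h7⟩ | ⟨h5, h7⟩ <;>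
    refine ⟨?_, ?_, ?_⟩ <;> omega
  rw [hq.1, Function.iterate_zero_apply] at s2 s3
  have hb := D.hw_bounds s2.1.1 s2.1.2
  have e1 : (c + D.t0).1 = c.1 := by
    unfold t0
    simp only [Prod.fst_add, add_zero]
  have e2 : (c + D.t0).2 + D.N = c.2 := by
    unfold t0
    simp only [Prod.snd_add]
    ring
  have h6 := s2.2.1
  rw [e2] at h6
  rw [e1] at s3
  have h7 : 0 ≤ c.1 := by
    have := hq.2.1
    rw [s3] at this
    unfold K at this
    rw [Int.le_ediv_iff_mul_le hM, zero_mul] at this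
    exact this
  have h8 : c.1 < ((D.e * D.l : ℕ) : ℤ) := by
    have := hq.2.2
    rw [s3] at this
    unfold K at this
    rw [Int.ediv_lt_iff_lt_mul hM] at this
    have h9 : ((D.e * D.l : ℕ) : ℤ) = D.m * D.e * D.M := by unfold l; push_cast; ring
    rw [h9]
    linarith
  have hr' : ((D.e * D.l : ℕ) : ℤ) ≤ r1 := by exact_mod_cast hr
  have hMe : (D.M : ℤ) ≤ ((D.e * D.l : ℕ) : ℤ) := by
    have h9 : D.M ≤ D.e * (D.m * D.M) :=
      (Nat.le_mul_of_pos_left _ D.hm).trans (Nat.le_mul_of_pos_left _ D.he)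
    exact_mod_cast h9
  unfold Vb
  omega

end RG

end Pool.Agent.H65.G
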