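import Mathlib
import Pool.Agent.H65.G.RingNear
import Pool.Agent.H58.W.SCBox
import Pool.Agent.H58.W.NearS

set_option autoImplicit false
open Finset

/-!
# The steps of the ring (Route W, W-G)

`RG.step` : at every step `P < 8 N2` there is a rectangle of cells which contains the block of the step,
lies off the inner square `|.| < N - R`, and in which the probability of `A4` for the block is at most
`D.bd h R r P` = `aJ` of 58 (single chunk), or one arm of `RS` (big block), or `0`.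
-/

namespace Pool.Agent.H65.G

open Pool.Agent.H75.Perc hiding WL CT hh PB
open Pool.Agent.H75.TwoArm
open Pool.Agent.Q1.M4 (Cell)
open Pool.Agent.H33.Q1
open Pool.Agent.H58.W Pool.Agent.H50.W Pool.Agent.H41.W Pool.Agent.H6.W Pool.Agent.H98.W
open Pool.Agent.H50.W.Chd (A4_chn pch mem_pch chn_eq mem_RC)

/-! ### Images of rectangles -/

/-- the map of the cells of a frame -/
def fe (t : Cell) (k : ℕ) : Cell ↪ Cell :=
  ⟨fun c => rc^[k] (c + t), fun _ _ h => add_right_cancel (rc_inj.iterate k h)⟩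

@[simp] lemma fe_apply (t : Cell) (k : ℕ) (c : Cell) : fe t k c = rc^[k] (c + t) := rfl

lemma RC_iter (t : Cell) (k : ℕ) (a b c d : ℤ) : ∃ a' b' c' d' : ℤ, ∀ x : Cell,
    rc^[k] (x + t) ∈ RC a' b' c' d' ↔ x ∈ RC a b c d := by
  induction k with
  | zero =>
    refine ⟨a + t.1, b + t.1, c + t.2, d + t.2, fun x => ?_⟩
    rw [Function.iterate_zero_apply, mem_RC, mem_RC, Prod.fst_add, Prod.snd_add]
    omega
  | succ k ih =>
    obtain ⟨a', b', c', d', h⟩ := ih
    refine ⟨-d', -c', a', b', fun x => ?_⟩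
    rw [← h x, Function.iterate_succ_apply', mem_RC, mem_RC]
    unfold rc
    simp only
    omega

lemma fe_surj (t : Cell) (k : ℕ) (y : Cell) : ∃ x, fe t k x = y :=
  ⟨rc'^[k] y - t, by rw [fe_apply, sub_add_cancel, RG.rc'_iter]⟩

/-- the image of a rectangle is a rectangle -/
lemma map_RC (t : Cell) (k : ℕ) (a b c d : ℤ) : ∃ a' b' c' d' : ℤ,
    (RC a b c d).map (fe t k) = RC a' b' c' d' := by
  obtain ⟨a', b', c', d', h⟩ := RC_iter t k a b c d
  refine ⟨a', b', c', d', ?_⟩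
  ext y
  obtain ⟨x, rfl⟩ := fe_surj t k y
  rw [Finset.mem_map' (fe t k), ← h x]
  rfl

/-- the labels of a rectangle near `u` have joined outer faces -/
lemma sc_RC {n : ℤ} (hn : 0 < n) (u : ℤ × ℤ) (a b c d : ℤ) :
    SC ((TL (RC a b c d) n).map (syT u).G) := by
  refine SC.tr (sc_TL hn a b c d) u fun l => ?_
  have h1 : (syT u).G (l - (2 * u.1, 2 * u.2)) = l := by
    show (l.1 - 2 * u.1 + 2 * u.1, l.2 - 2 * u.2 + 2 * u.2) = l
    refine Prod.ext ?_ ?_ <;> simp only <;> ring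
  constructor
  · intro h
    rw [← h1] at h
    exact (Finset.mem_map' _).1 h
  · intro h
    rw [← h1]
    exact (Finset.mem_map' _).2 h

/-- transport of `A4`, with the image of the box -/
theorem near_tr' {h : ℕ} (hh : 0 < h) {κ : Type*} [DecidableEq κ] (t : Cell) (k : ℕ) (u : ℤ × ℤ)
    (pl : Cell → Option κ) {V U U' : Finset Cell} (hU : ∀ c, rc^[k] (c + t) ∈ U ↔ c ∈ U') :
    PB ((TL (V.map (fe t k)) (2 * (h : ℤ))).map (syT u).G) (bku u (2 * (h : ℤ)) pl)
        (A4 ((TL (V.map (fe t k)) (2 * (h : ℤ))).map (syT u).G)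
          ((TL U (2 * (h : ℤ))).map (syT u).G)) =
      PB (TL V (2 * (h : ℤ))) (bk (2 * (h : ℤ)) (fun c => pl (rc^[k] (c + t))))
        (A4 (TL V (2 * (h : ℤ))) (TL U' (2 * (h : ℤ)))) := by
  have hn : (0 : ℤ) < 2 * (h : ℤ) := by positivity
  have e1 : (TL V (2 * (h : ℤ))).map (Gu u (fr hh t k)).G =
      (TL (V.map (fe t k)) (2 * (h : ℤ))).map (syT u).G := by
    rw [map_Gu, TL_fr hn (fr hh t k) (U := V) (V := V.map (fe t k))]
    intro c
    rw [fr_φ, ← fe_apply, Finset.mem_map' (fe t k)]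
  have key := near_tr hn (fr hh t k) u pl (E := (TL V (2 * (h : ℤ))).map (Gu u (fr hh t k)).G)
    (V := V) (U := U) (U' := U') subset_rfl (fun c => by rw [fr_φ]; exact hU c)
  rw [e1] at key
  rw [key]
  congr 2
  funext c
  rw [fr_φ]

/-- symmetric squares -/
def Sq (ρ : ℤ) (c : Cell) : Prop := (-ρ ≤ c.1 ∧ c.1 < ρ) ∧ (-ρ ≤ c.2 ∧ c.2 < ρ)

lemma sq_rc {ρ : ℤ} {c : Cell} : Sq ρ (rc c) ↔ Sq ρ c := by
  unfold Sq rc
  simp only
  omega

lemma sq_iter {ρ : ℤ} (k : ℕ) {c : Cell} : Sq ρ (rc^[k] c) ↔ Sq ρ c := by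
  induction k with
  | zero => exact Iff.rfl
  | succ k ih => rw [Function.iterate_succ_apply', sq_rc, ih]

/-- two coin maps with the plates in bijection -/
lemma bk_iff_map {κ κ' : Type*} {n : ℤ} {pl : Cell → Option κ} {pl' : Cell → Option κ'} {f : κ' → κ}
    (hf : Function.Injective f) {e e' : ℤ × ℤ}
    (h : pl (ct n (tt e)) = (pl' (ct n (tt e))).map f)
    (h' : pl (ct n (tt e')) = (pl' (ct n (tt e'))).map f) :
    bk n pl e = bk n pl e' ↔ bk n pl' e = bk n pl' e' := by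
  rw [bk_eq_iff, bk_eq_iff, h, h']
  refine or_congr Iff.rfl (and_congr ?_ ?_)
  · rw [ne_eq, Option.map_eq_none_iff]
  · exact ⟨fun h1 => Option.map_injective hf h1, fun h1 => by rw [h1]⟩

namespace RG

variable (D : RG)

open Classical in
/-- cells of the block of the step `P` -/
noncomputable def Uf (P : ℕ) : Finset Cell :=
  (RC (-(2 * D.N : ℕ)) (2 * D.N : ℕ) (-(2 * D.N : ℕ)) (2 * D.N : ℕ)).filter (fun c => D.inU P c)

/-- a cell of the ring lies in the big square -/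
lemma rg_big {c : Cell} {q : ℕ × ℤ} (h : D.rg c = some q) : Sq (2 * D.N) c := by
  obtain ⟨h1, h2, h3⟩ := D.rg_some h
  have h4 : Sq (2 * D.N) (rc'^[q.1] c) := by
    obtain ⟨⟨a1, a2⟩, ⟨a3, a4⟩, -⟩ := h2
    have h5 := D.hw_bounds a1 a2
    have h6 : 2 * (D.M : ℤ) ≤ D.N := by exact_mod_cast D.N_ge
    have hM : (0 : ℤ) < D.M := by exact_mod_cast D.hM
    unfold Sq
    omega
  have h5 := (sq_iter (ρ := 2 * (D.N : ℤ)) q.1).2 h4
  rwa [rc'_iter] at h5

lemma mem_Uf {P : ℕ} {c : Cell} : c ∈ D.Uf P ↔ D.inU P c := by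
  classical
  unfold Uf
  rw [mem_filter, mem_RC]
  constructor
  · exact fun h => h.2
  · intro h
    refine ⟨?_, h⟩
    obtain ⟨⟨q, hq, -⟩, -⟩ := h
    have := D.rg_big hq
    unfold Sq at this
    push_cast
    omega

/-- thickness at the tip of the chunk -/
def tau (P : ℕ) : ℕ := (D.ta P + 1).toNat

lemma tau_bounds {P : ℕ} (hP : D.Sgl P) : (D.tau P : ℤ) = D.ta P + 1 ∧ D.τ ≤ D.tau P ∧
    D.tau P ≤ D.τ + 2 * D.n2 := by
  obtain ⟨k', h1, h2, h3, h4, h5, h6, h7⟩ := D.sgl_cases hP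
  have hm : (0 : ℤ) < D.m := by exact_mod_cast D.hm
  have hI : -(D.N2 : ℤ) ≤ D.ix P := by
    by_cases hk : k' = 0
    · have := h5 hk
      omega
    · have := h6 hk
      omega
  have e1 : (D.m : ℤ) * (D.ix P + 1) ≤ D.n2 := by
    rw [D.n2_eq, mul_comm (D.N2 : ℤ)]
    exact mul_le_mul_of_nonneg_left (by omega) hm.le
  have e2 : -(D.n2 : ℤ) ≤ D.m * (D.ix P + 1) := by
    rw [D.n2_eq, mul_comm (D.N2 : ℤ), ← mul_neg]
    exact mul_le_mul_of_nonneg_left (by omega) hm.le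
  unfold tau ta
  refine ⟨?_, ?_, ?_⟩ <;> omega

/-- the block of a single chunk lies in the box -/
lemma U_single_box {P : ℕ} (hP : D.Sgl P) {r : ℕ} (hr : D.tau P + D.m ≤ r) {c : Cell}
    (h : D.inU P (rc^[D.sd P % 4] (c + D.tpc P))) : Vb D.l r c := by
  obtain ⟨u1, u2⟩ := D.up_single hP
  unfold inU at h
  rw [u1, u2] at h
  obtain ⟨⟨q, hq1, hq2⟩, h2⟩ := h
  have hq3 : ¬ D.pos q < D.m * (P : ℤ) := fun h3 => h2 ⟨q, hq1, h3⟩
  obtain ⟨k', g1, g2, g3, g4, g5, g6, g7⟩ := D.sgl_cases hP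
  have hm : (0 : ℤ) < D.m := by exact_mod_cast D.hm
  have hM : (0 : ℤ) < D.M := by exact_mod_cast D.hM
  have hep : (0 : ℤ) < D.e := by exact_mod_cast D.he
  have hmP : (D.m : ℤ) * P = D.m * D.ix P + 2 * D.n2 * k' := by
    rw [D.n2_eq]
    calc (D.m : ℤ) * P = D.m * (D.ix P + 2 * D.N2 * k') := by rw [← g3]
      _ = _ := by ring
  have hmP' : (D.m : ℤ) * ((P + 1 : ℕ) : ℤ) = D.m * D.ix P + 2 * D.n2 * k' + D.m := by
    push_cast
    rw [mul_add, hmP, mul_one]
  rw [hmP] at hq3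
  rw [hmP'] at hq2
  have b1 : (D.m : ℤ) * D.ix P + D.m ≤ D.n2 := by
    rw [D.n2_eq, mul_comm (D.N2 : ℤ)]
    have := mul_le_mul_of_nonneg_left (show D.ix P + 1 ≤ D.N2 by omega) hm.le
    linarith
  have b2 : k' ≠ 0 → -(D.n2 : ℤ) ≤ D.m * D.ix P := by
    intro hk
    rw [D.n2_eq, mul_comm (D.N2 : ℤ), ← mul_neg]
    have := g6 hk
    exact mul_le_mul_of_nonneg_left (by omega) hm.le
  have b3 : k' = 0 → 0 ≤ D.m * D.ix P := by
    intro hk
    have := g5 hk
    have h0 : 0 ≤ D.ix P := by omega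
    exact mul_nonneg hm.le h0
  have b4 : k' = 4 → D.m * D.ix P + D.m ≤ 0 := by
    intro hk
    have := g7 hk
    have := mul_le_mul_of_nonneg_left (show D.ix P + 1 ≤ 0 by omega) hm.le
    linarith
  obtain ⟨s1, s2, s3⟩ := D.rg_some hq1
  have sb := D.K_bounds s2.1.1 s2.1.2
  rw [← s3] at sb
  rw [g1] at s2 s3
  have hq : q.1 = k' % 4 ∧ D.m * D.ix P ≤ q.2 ∧ q.2 < D.m * D.ix P + D.m := by
    have hpc := D.pos_cases s1
    generalize (D.m : ℤ) * D.ix P = mi at *
    generalize D.pos q = ps at *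
    clear hmP hmP' u1 u2 h2 s2 s3 hq1
    rcases (show k' = 0 ∨ k' = 1 ∨ k' = 2 ∨ k' = 3 ∨ k' = 4 by omega) with
      rfl | rfl | rfl | rfl | rfl <;>
    rcases hpc with ⟨h5, h6, h7⟩ | ⟨h5, h6, h7⟩ | ⟨h5, h7⟩ | ⟨h5, h7⟩ | ⟨h5, h7⟩ <;>
    push_cast at hq2 hq3 <;> refine ⟨?_, ?_, ?_⟩ <;> omega
  rw [hq.1, rc_iter'] at s2 s3
  rw [s3, K_tp] at hq
  have hb := s2.2.1
  rw [D.hw_tp] at hb
  have e2 : (c + D.tpc P).2 + D.N = c.2 := by
    unfold tpc
    simp only [Prod.snd_add]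
    ring
  rw [e2] at hb
  obtain ⟨t1, t2, t3⟩ := D.tau_bounds hP
  have e3 : (D.m : ℤ) * (D.ix P + 1) = D.m * D.ix P + D.m := by ring
  rw [e3] at hq
  have h8 : -(D.m : ℤ) ≤ c.1 / D.M := by linarith [hq.2.1]
  have h9 : c.1 / (D.M : ℤ) < 0 := by linarith [hq.2.2]
  have h10 : c.1 < 0 := by
    rw [Int.ediv_lt_iff_lt_mul hM, zero_mul] at h9
    exact h9
  have h11 : -(D.l : ℤ) ≤ c.1 := by
    have h12 := h8
    rw [Int.le_ediv_iff_mul_le hM] at h12
    unfold l
    push_cast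
    linarith
  have hr' : (D.tau P : ℤ) + D.m ≤ r := by exact_mod_cast hr
  have hl : (0 : ℤ) < D.l := by exact_mod_cast D.hl
  unfold Vb
  omega

/-- **A single chunk.** -/
theorem step_single {P : ℕ} (hP : D.Sgl P) {r : ℕ} (hr : r ≤ D.N) (ht : D.τ + 2 * D.n2 + D.m ≤ r)
    {h : ℕ} (hh : 0 < h) (u : ℤ × ℤ) :
    PB ((TL ((RC (-((D.e * D.l : ℕ) : ℤ)) (D.e * D.l : ℕ) (-r) r).map (fe (D.tpc P) (D.sd P % 4)))
          (2 * (h : ℤ))).map (syT u).G) (bku u (2 * (h : ℤ)) (D.hy (D.up P)))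
        (A4 ((TL ((RC (-((D.e * D.l : ℕ) : ℤ)) (D.e * D.l : ℕ) (-r) r).map
            (fe (D.tpc P) (D.sd P % 4))) (2 * (h : ℤ))).map (syT u).G)
          ((TL (D.Uf P) (2 * (h : ℤ))).map (syT u).G)) = aJ (D.e * D.l) r D.M (D.tau P) D.m h := by
  have hn : (0 : ℤ) < 2 * (h : ℤ) := by positivity
  obtain ⟨t1, t2, t3⟩ := D.tau_bounds hP
  have htr : D.tau P + D.m ≤ r := by omega
  have hla : D.l ≤ D.e * D.l := Nat.le_mul_of_pos_left _ D.he
  set a := D.e * D.l with ha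
  set V := RC (-(a : ℤ)) a (-r) r with hV
  have hVb : ∀ c, c ∈ V ↔ Vb a r c := by
    intro c
    rw [hV, mem_RC]
    rfl
  have hM0 : (0 : ℤ) < D.M := by exact_mod_cast D.hM
  have e1 : ((D.tau P : ℤ) - 1) = D.ta P := by rw [t1]; ring
  -- the block in the frame
  have hU : ∀ c, rc^[D.sd P % 4] (c + D.tpc P) ∈ D.Uf P ↔ c ∈ pch D.M D.m (D.tau P) := by
    intro c
    rw [mem_Uf, mem_pch D.hM, e1]
    constructor
    · intro h1
      have h2 := D.U_single_box hP htr h1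
      have h3 : Vb a r c := by
        unfold Vb at h2 ⊢
        have : (D.l : ℤ) ≤ a := by exact_mod_cast hla
        omega
      exact (D.U_single hP le_rfl hr h3).1 h1
    · intro h1
      have h3 : Vb a r c := by
        obtain ⟨g1, g2, g3, g4⟩ := h1
        have g5 : -(D.m : ℤ) ≤ c.1 / D.M := by
          rw [Int.le_ediv_iff_mul_le hM0]
          push_cast at g1
          linarith
        have g6 : (D.tau P : ℤ) + D.m ≤ r := by exact_mod_cast htr
        have g7 : ((D.m * D.M : ℕ) : ℤ) ≤ a := by exact_mod_cast hla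
        unfold Vb
        omega
      exact (D.U_single hP le_rfl hr h3).2 h1
  rw [near_tr' hh (D.tpc P) (D.sd P % 4) u (D.hy (D.up P)) hU]
  have hpl : PB (TL V (2 * (h : ℤ))) (bk (2 * (h : ℤ))
      (fun c => D.hy (D.up P) (rc^[D.sd P % 4] (c + D.tpc P))))
      (A4 (TL V (2 * (h : ℤ))) (TL (pch D.M D.m (D.tau P)) (2 * (h : ℤ)))) =
      PB (TL V (2 * (h : ℤ))) (bk (2 * (h : ℤ)) (plJ D.M D.m (D.ta P)))
      (A4 (TL V (2 * (h : ℤ))) (TL (pch D.M D.m (D.tau P)) (2 * (h : ℤ)))) := by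
    refine PB_blocks (fun e he e' he' => ?_) _
    have key : ∀ e ∈ TL V (2 * (h : ℤ)),
        D.hy (D.up P) (rc^[D.sd P % 4] (ct (2 * (h : ℤ)) (tt e) + D.tpc P)) =
        (plJ D.M D.m (D.ta P) (ct (2 * (h : ℤ)) (tt e))).map
          (fun κ => (D.sd P % 4, κ + D.m * (D.ix P + 1))) := by
      intro e he
      rw [(D.up_single hP).1]
      exact D.hy_single hP le_rfl hr ((hVb _).1 ((mem_TL hn).1 he).2)
    refine bk_iff_map (f := fun κ => (D.sd P % 4, κ + D.m * (D.ix P + 1))) ?_ (key e he) (key e' he')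
    intro κ κ' hκ
    have h1 := congrArg Prod.snd hκ
    simp only at h1
    linarith
  rw [hpl, ← e1, A4_chn hn D.hM]
  rfl

/-- **A big block**, abstract form. -/
theorem step_big {P : ℕ} {t : Cell} {k : ℕ} {R r1 R' : ℕ} (hR' : R ≤ R')
    {pl : Cell → Option ℕ} {f : ℕ → ℕ × ℤ} (hf : Function.Injective f)
    (hU : ∀ c, D.inU P (rc^[k] (c + t)) → Vb r1 r1 c)
    (hpl : ∀ c, Vb R R c → ¬ D.inU P (rc^[k] (c + t)) →
      D.hy (D.up P) (rc^[k] (c + t)) = (pl c).map f) {h : ℕ} (hh : 0 < h) (u : ℤ × ℤ) :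
    PB ((TL ((RC (-(R : ℤ)) R (-R) R).map (fe t k)) (2 * (h : ℤ))).map (syT u).G)
        (bku u (2 * (h : ℤ)) (D.hy (D.up P)))
        (A4 ((TL ((RC (-(R : ℤ)) R (-R) R).map (fe t k)) (2 * (h : ℤ))).map (syT u).G)
          ((TL (D.Uf P) (2 * (h : ℤ))).map (syT u).G)) ≤
      PB (TL (RC (-(R' : ℤ)) R' (-R') R') (2 * (h : ℤ))) (bk (2 * (h : ℤ)) pl)
        (ArmO (2 * (h : ℤ)) r1 R) := by
  classical
  have hn : (0 : ℤ) < 2 * (h : ℤ) := by positivity
  set V := RC (-(R : ℤ)) R (-R) R with hV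
  set U' := (RC (-(r1 : ℤ)) r1 (-r1) r1).filter (fun c => D.inU P (rc^[k] (c + t))) with hU'
  have hUU : ∀ c, rc^[k] (c + t) ∈ D.Uf P ↔ c ∈ U' := by
    intro c
    rw [mem_Uf, hU', mem_filter, mem_RC]
    exact ⟨fun h1 => ⟨hU c h1, h1⟩, fun h1 => h1.2⟩
  rw [near_tr' hh t k u (D.hy (D.up P)) hUU]
  refine PB_A4_le hn hR' ?_ subset_rfl ?_
  · intro e he
    rw [mem_TL hn] at he ⊢
    refine ⟨he.1, ?_⟩
    have h2 := he.2
    rw [hU', mem_filter] at h2
    exact h2.1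
  · intro e he e' he'
    rw [mem_sdiff] at he he'
    have key : ∀ e, e ∈ TL V (2 * (h : ℤ)) ∧ e ∉ TL U' (2 * (h : ℤ)) →
        D.hy (D.up P) (rc^[k] (ct (2 * (h : ℤ)) (tt e) + t)) =
          (pl (ct (2 * (h : ℤ)) (tt e))).map f := by
      intro e he
      have h2 := (mem_TL hn).1 he.1
      have h3 := h2.2
      rw [hV, mem_RC] at h3
      refine hpl _ h3 fun h4 => he.2 ?_
      rw [mem_TL hn]
      refine ⟨h2.1, ?_⟩
      rw [← hUU, mem_Uf]
      exact h4
    exact bk_iff_map hf (key e he) (key e' he')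

/-- the whole ring is installed after the last step -/
lemma In_all {c : Cell} (h : D.rg c ≠ none) : D.In (8 * D.N2) c := by
  obtain ⟨q, hq⟩ := Option.ne_none_iff_exists'.1 h
  refine ⟨q, hq, ?_⟩
  have h2 := (D.pos_bounds hq).2
  have h3 : (D.m : ℤ) * (8 * D.N2) = 8 * D.n2 := by rw [D.n2_eq]; ring
  rw [h3]
  exact h2

/-- **The world at the closing block is the whole chain, off the block.** -/
theorem hy_close' {R : ℕ} (hR : R + D.M ≤ D.N) {c : Cell} (hc : Vb R R c)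
    (hU : ¬ D.inU (8 * D.N2 - D.e) (c + D.t0)) :
    D.hy ((8 * D.N2 - D.e : ℕ) : ℤ) (c + D.t0) =
      (chn D.N D.M D.τ c).map (fun i : ℕ => (0, (D.n2 : ℤ) - 1 - (i : ℤ))) := by
  by_cases hs : -((D.e * D.l : ℕ) : ℤ) ≤ c.1 ∧ c.1 < 0
  · have hM : (0 : ℤ) < D.M := by exact_mod_cast D.hM
    have e1 : (c + D.t0).1 = c.1 := by
      unfold t0
      simp only [Prod.fst_add, add_zero]
    -- not installed
    have h1 : ¬ D.In ((8 * D.N2 - D.e : ℕ) : ℤ) (c + D.t0) := by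
      intro h1
      obtain ⟨-, h2⟩ := (D.In_close hR hc).1 h1
      have h3 : -((D.m : ℤ) * D.e) ≤ c.1 / D.M := by
        rw [Int.le_ediv_iff_mul_le hM]
        have h9 : ((D.e * D.l : ℕ) : ℤ) = D.m * D.e * D.M := by unfold l; push_cast; ring
        rw [h9] at hs
        linarith [hs.1]
      have h4 : c.1 / (D.M : ℤ) < 0 := by
        rw [Int.ediv_lt_iff_lt_mul hM, zero_mul]; exact hs.2
      omega
    have h2 : ¬ D.onA (c + D.t0) := by
      intro h2
      apply hU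
      unfold inU
      rw [D.up_close.1, D.up_close.2]
      refine ⟨?_, h1⟩
      push_cast
      apply D.In_all
      have h6 := D.rg_eq (k := 0) (by norm_num) h2
      rw [Function.iterate_zero_apply] at h6
      rw [h6]
      simp
    rw [D.hy_of_not h1]
    have h3 : chn D.N D.M D.τ c = none := by
      rw [D.onA_mid hR hc] at h2
      have hi : ((D.N : ℤ) - c.1 - 1) / D.M = D.n2 - 1 - c.1 / D.M := by
        have h3 : (D.N : ℤ) - c.1 - 1 = (-1 - c.1) + D.M * D.n2 := by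
          have : (D.N : ℤ) = D.n2 * D.M := by exact_mod_cast D.N_eq'
          rw [this]; ring
        rw [h3, Int.add_mul_ediv_left _ _ hM.ne', neg_div' hM]
        ring
      have h4 : c.1 / (D.M : ℤ) < 0 := by
        rw [Int.ediv_lt_iff_lt_mul hM, zero_mul]; exact hs.2
      have hnn : (((D.n2 : ℤ) - 1 - c.1 / D.M).toNat : ℤ) = D.n2 - 1 - c.1 / D.M := by omega
      unfold chn
      simp only [hi, hnn]
      have e3 : (D.τ : ℤ) + (D.n2 - 1 - c.1 / D.M) = D.τ + D.n2 - 1 - c.1 / D.M := by ring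
      rw [e3, if_neg h2]
      split_ifs <;> rfl
    rw [h3]
    rfl
  · exact D.hy_close hR hc hs

/-- bound of the step `P` -/
noncomputable def bd (h R r : ℕ) (P : ℕ) : ℝ :=
  if D.Big P then
    PB (TL (RC (-(R : ℤ)) R (-R) R) (2 * (h : ℤ))) (bk (2 * (h : ℤ)) (fun _ => (none : Option ℕ)))
        (ArmO (2 * (h : ℤ)) (D.e * D.l) R) +
      PB (TL (RC (-(R : ℤ)) R (-R) R) (2 * (h : ℤ))) (bk (2 * (h : ℤ)) (chn 0 D.M D.τ))
        (ArmO (2 * (h : ℤ)) (D.e * D.l) R) +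
      PB (TL (RC (-(D.N : ℤ)) D.N (-D.N) D.N) (2 * (h : ℤ))) (bk (2 * (h : ℤ)) (chn D.N D.M D.τ))
        (ArmO (2 * (h : ℤ)) (D.e * D.l) R)
  else if D.up P = D.up (P + 1) then 0 else aJ (D.e * D.l) r D.M (D.tau P) D.m h

/-- the box of a frame lies in the big square, off the inner square -/
def Okb (R : ℕ) (BC : Finset Cell) : Prop :=
  (∃ a b c d : ℤ, BC = RC a b c d) ∧ ∀ c ∈ BC, Sq (2 * D.N) c ∧ ¬ Sq (D.N - R) c

lemma okb_map {R : ℕ} {a r : ℤ} {t : Cell} {k : ℕ}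
    (h : ∀ c, ((-a ≤ c.1 ∧ c.1 < a) ∧ (-r ≤ c.2 ∧ c.2 < r)) → Sq (2 * D.N) (c + t) ∧
      ¬ Sq (D.N - R) (c + t)) : D.Okb R ((RC (-a) a (-r) r).map (fe t k)) := by
  refine ⟨map_RC t k _ _ _ _, fun c hc => ?_⟩
  obtain ⟨x, hx, rfl⟩ := Finset.mem_map.1 hc
  rw [fe_apply, sq_iter, sq_iter]
  exact h x (mem_RC.1 hx)

/-- **The steps of the ring.** -/
theorem step {R r : ℕ} (hR : 2 * R ≤ D.N) (hr : r ≤ R) (heR : D.e * D.l ≤ R)
    (ht : D.τ + 2 * D.n2 + D.m ≤ r) {P : ℕ} (hP : P < 8 * D.N2) :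
    ∃ BC : Finset Cell, D.Okb R BC ∧ D.Uf P ⊆ BC ∧ ∀ h : ℕ, 0 < h → ∀ u : ℤ × ℤ,
      PB ((TL BC (2 * (h : ℤ))).map (syT u).G) (bku u (2 * (h : ℤ)) (D.hy (D.up P)))
        (A4 ((TL BC (2 * (h : ℤ))).map (syT u).G) ((TL (D.Uf P) (2 * (h : ℤ))).map (syT u).G)) ≤
          D.bd h R r P := by
  have hM : (0 : ℤ) < D.M := by exact_mod_cast D.hM
  have hl : (0 : ℤ) < D.l := by exact_mod_cast D.hl
  have hN2M : 2 * D.M ≤ D.N := D.N_ge
  have hRM : R + D.M ≤ D.N := by omega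
  have hRZ : 2 * (R : ℤ) ≤ D.N := by exact_mod_cast hR
  have hrZ : (r : ℤ) ≤ R := by exact_mod_cast hr
  have heRZ : ((D.e * D.l : ℕ) : ℤ) ≤ R := by exact_mod_cast heR
  have hR0 : 0 < (R : ℤ) := by
    have h1 : 0 < D.e * D.l := Nat.mul_pos D.he D.hl
    have h2 : (0 : ℤ) < ((D.e * D.l : ℕ) : ℤ) := by exact_mod_cast h1
    omega
  -- blocks in local frames
  have sub : ∀ {t : Cell} {k : ℕ} {V : Finset Cell}, (∀ c, D.inU P (rc^[k] (c + t)) → c ∈ V) →
      D.Uf P ⊆ V.map (fe t k) := by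
    intro t k V h y hy
    obtain ⟨x, rfl⟩ := fe_surj t k y
    rw [mem_Uf, fe_apply] at hy
    rw [Finset.mem_map' (fe t k)]
    exact h x hy
  have hnn : ∀ h : ℕ, 0 ≤ PB (TL (RC (-(R : ℤ)) R (-R) R) (2 * (h : ℤ)))
      (bk (2 * (h : ℤ)) (fun _ => (none : Option ℕ))) (ArmO (2 * (h : ℤ)) (D.e * D.l) R) :=
    fun h => PB_nonneg _ _ _
  have hnt : ∀ h : ℕ, 0 ≤ PB (TL (RC (-(R : ℤ)) R (-R) R) (2 * (h : ℤ)))
      (bk (2 * (h : ℤ)) (chn 0 D.M D.τ)) (ArmO (2 * (h : ℤ)) (D.e * D.l) R) :=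
    fun h => PB_nonneg _ _ _
  have hnc : ∀ h : ℕ, 0 ≤ PB (TL (RC (-(D.N : ℤ)) D.N (-D.N) D.N) (2 * (h : ℤ)))
      (bk (2 * (h : ℤ)) (chn D.N D.M D.τ)) (ArmO (2 * (h : ℤ)) (D.e * D.l) R) :=
    fun h => PB_nonneg _ _ _
  -- boxes around a vertex of the line of a side
  have okR : ∀ {t : Cell} {k : ℕ}, t.2 = -(D.N : ℤ) → |t.1| ≤ D.N →
      D.Okb R ((RC (-(R : ℤ)) R (-R) R).map (fe t k)) := by
    intro t k h1 h2
    refine D.okb_map fun c hc => ?_
    rw [abs_le] at h2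
    unfold Sq
    rw [Prod.fst_add, Prod.snd_add, h1]
    constructor <;> omega
  rcases D.up_cases hP with h1 | ⟨h1, h2, h3⟩ | ⟨h2, h3, h4⟩
  · -- trivial step
    have hU : D.Uf P = ∅ := by
      rw [Finset.eq_empty_iff_forall_notMem]
      intro c hc
      rw [mem_Uf] at hc
      unfold inU at hc
      rw [h1] at hc
      exact hc.2 hc.1
    refine ⟨RC 0 0 0 0, ⟨⟨0, 0, 0, 0, rfl⟩, fun c hc => ?_⟩, ?_, fun h hh u => ?_⟩
    · rw [mem_RC] at hc; omega
    · rw [hU]; exact empty_subset _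
    · have h5 : ∀ B ω : Finset (ℤ × ℤ), ¬ A4 B ∅ ω := by
        rintro B ω ⟨x, y, -, -, g1, g2⟩
        apply g2
        rwa [union_empty, ← sdiff_empty (s := ω ∩ B)] at g1
      have h6 : (TL (D.Uf P) (2 * (h : ℤ))).map (syT u).G = ∅ := by
        rw [hU]
        unfold TL
        simp
      have h7 : PB ((TL (RC 0 0 0 0) (2 * (h : ℤ))).map (syT u).G)
          (bku u (2 * (h : ℤ)) (D.hy (D.up P)))
          (A4 ((TL (RC 0 0 0 0) (2 * (h : ℤ))).map (syT u).G)
            ((TL (D.Uf P) (2 * (h : ℤ))).map (syT u).G)) = 0 := by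
        rw [h6]
        have h8 : PB ((TL (RC 0 0 0 0) (2 * (h : ℤ))).map (syT u).G)
            (bku u (2 * (h : ℤ)) (D.hy (D.up P)))
            (A4 ((TL (RC 0 0 0 0) (2 * (h : ℤ))).map (syT u).G) ∅) ≤
            PB ((TL (RC 0 0 0 0) (2 * (h : ℤ))).map (syT u).G)
            (bku u (2 * (h : ℤ)) (D.hy (D.up P))) (fun _ => False) :=
          PB_mono fun ω _ h9 => h5 _ _ h9
        have h10 : PB ((TL (RC 0 0 0 0) (2 * (h : ℤ))).map (syT u).G)
            (bku u (2 * (h : ℤ)) (D.hy (D.up P))) (fun _ => False) = 0 := by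
          unfold PB
          rw [Pr_eq]
          simp
        exact le_antisymm (h8.trans h10.le) (PB_nonneg _ _ _)
      rw [h7]
      unfold bd
      split_ifs
      · exact add_nonneg (add_nonneg (hnn h) (hnt h)) (hnc h)
      · exact le_rfl
  · -- big block
    have hbd : ∀ h : ℕ, D.bd h R r P = _ := fun h => by unfold bd; rw [if_pos h1]
    have hb := h1
    unfold Big at h1
    have hcor : ∀ j < 4, P = D.N2 * (2 * j + 1) → ∃ BC : Finset Cell, D.Okb R BC ∧ D.Uf P ⊆ BC ∧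
        ∀ h : ℕ, 0 < h → ∀ u : ℤ × ℤ,
        PB ((TL BC (2 * (h : ℤ))).map (syT u).G) (bku u (2 * (h : ℤ)) (D.hy (D.up P)))
        (A4 ((TL BC (2 * (h : ℤ))).map (syT u).G) ((TL (D.Uf P) (2 * (h : ℤ))).map (syT u).G)) ≤
          D.bd h R r P := by
      intro j hj hPj
      have hU : ∀ c, D.inU P (rc^[j] (c + D.tc)) → Vb (D.e * D.l) (D.e * D.l) c := by
        intro c hc
        rw [hPj] at hc
        exact D.U_corner hj le_rfl hc
      refine ⟨(RC (-(R : ℤ)) R (-R) R).map (fe D.tc j), okR rfl ?_, sub fun c hc => ?_,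
        fun h hh u => ?_⟩
      · show |(D.N : ℤ)| ≤ D.N
        rw [abs_of_nonneg (by positivity)]
      · have := hU c hc
        unfold Vb at this
        rw [mem_RC]
        omega
      · have key := D.step_big (P := P) (t := D.tc) (k := j) (R := R) (r1 := D.e * D.l) (R' := R)
          le_rfl (pl := chn 0 D.M D.τ) (f := fun i : ℕ => (j, (D.n2 : ℤ) - 1 - (i : ℤ))) ?_ hU
          ?_ hh u
        · refine key.trans ?_
          rw [hbd]
          linarith [hnn h, hnc h]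
        · intro i i' hi
          have h5 := congrArg Prod.snd hi
          simp only at h5
          omega
        · intro c hc _
          rw [h2, hPj]
          exact D.hy_corner hj hRM hc
    rcases h1 with h5 | h5 | h5 | h5 | h5 | h5
    · -- start
      subst h5
      have hU : ∀ c, D.inU 0 (rc^[0] (c + D.t0)) → Vb (D.e * D.l) (D.e * D.l) c := by
        intro c hc
        rw [Function.iterate_zero_apply] at hc
        exact D.U_start le_rfl hc
      refine ⟨(RC (-(R : ℤ)) R (-R) R).map (fe D.t0 0), okR rfl ?_, sub fun c hc => ?_,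
        fun h hh u => ?_⟩
      · show |(0 : ℤ)| ≤ D.N
        rw [abs_zero]; positivity
      · have := hU c hc
        unfold Vb at this
        rw [mem_RC]
        omega
      · have key := D.step_big (P := 0) (t := D.t0) (k := 0) (R := R) (r1 := D.e * D.l) (R' := R)
          le_rfl (pl := fun _ => (none : Option ℕ)) (f := fun i : ℕ => (i, (0 : ℤ))) ?_ hU
          ?_ hh u
        · refine key.trans ?_
          rw [hbd]
          linarith [hnt h, hnc h]
        · intro i i' hi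
          exact congrArg Prod.fst hi
        · intro c hc _
          rw [h2]
          exact D.hy_zero _
    · exact hcor 0 (by norm_num) (by omega)
    · exact hcor 1 (by norm_num) (by omega)
    · exact hcor 2 (by norm_num) (by omega)
    · exact hcor 3 (by norm_num) (by omega)
    · -- closing
      have hU : ∀ c, D.inU P (rc^[0] (c + D.t0)) → Vb (D.e * D.l) (D.e * D.l) c := by
        intro c hc
        rw [Function.iterate_zero_apply, h5] at hc
        exact (D.U_close le_rfl hc).1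
      refine ⟨(RC (-(R : ℤ)) R (-R) R).map (fe D.t0 0), okR rfl ?_, sub fun c hc => ?_,
        fun h hh u => ?_⟩
      · show |(0 : ℤ)| ≤ D.N
        rw [abs_zero]; positivity
      · have := hU c hc
        unfold Vb at this
        rw [mem_RC]
        omega
      · have key := D.step_big (P := P) (t := D.t0) (k := 0) (R := R) (r1 := D.e * D.l) (R' := D.N)
          (by omega) (pl := chn D.N D.M D.τ) (f := fun i : ℕ => (0, (D.n2 : ℤ) - 1 - (i : ℤ))) ?_ hU
          ?_ hh u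
        · refine key.trans ?_
          rw [hbd]
          linarith [hnt h, hnn h]
        · intro i i' hi
          have h6 := congrArg Prod.snd hi
          simp only at h6
          omega
        · intro c hc hc'
          rw [Function.iterate_zero_apply] at hc' ⊢
          rw [h2]
          rw [h5] at hc' ⊢
          exact D.hy_close' hRM hc hc'
  · -- single chunk
    have hS : D.Sgl P := h4
    have hnB : ¬ D.Big P := by
      have := D.he
      have := D.hN2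
      unfold Big
      omega
    have hbd : ∀ h : ℕ, D.bd h R r P = aJ (D.e * D.l) r D.M (D.tau P) D.m h := fun h => by
      unfold bd
      rw [if_neg hnB, if_neg (by omega)]
    obtain ⟨t1, t2, t3⟩ := D.tau_bounds hS
    have hla : D.l ≤ D.e * D.l := Nat.le_mul_of_pos_left _ D.he
    refine ⟨(RC (-((D.e * D.l : ℕ) : ℤ)) (D.e * D.l : ℕ) (-r) r).map (fe (D.tpc P) (D.sd P % 4)),
      D.okb_map fun c hc => ?_, sub fun c hc => ?_, fun h hh u => ?_⟩
    · have h5 := D.nb_of (P := P) (a := D.e * D.l) (r := r) (c := c) hc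
      have h6 := D.nb_left hS le_rfl h5
      have h7 : (c + D.tpc P).1 < 2 * D.N := by
        obtain ⟨k', g1, g2, g3, g4, -⟩ := D.sgl_cases hS
        have h8 := h5.1.2
        have h9 : (D.l : ℤ) * (D.ix P + 1) ≤ D.N := by
          have : (D.N : ℤ) = D.N2 * D.l := by exact_mod_cast D.N_eq
          rw [this, mul_comm (D.N2 : ℤ)]
          exact mul_le_mul_of_nonneg_left (by omega) hl.le
        omega
      have h8 := h5.2
      unfold Sq
      constructor <;> omega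
    · have h5 := D.U_single_box hS (r := r) (by omega) hc
      unfold Vb at h5
      rw [mem_RC]
      have : (D.l : ℤ) ≤ ((D.e * D.l : ℕ) : ℤ) := by exact_mod_cast hla
      omega
    · rw [hbd, D.step_single hS (by omega) ht hh u]

end RG

end Pool.Agent.H65.G
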