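import Mathlib
import Pool.Agent.H65.G.RingStep

set_option autoImplicit false
open Finset

/-!
# The sum over the steps of the ring (Route W, W-G)

`bd_sum` : `LocB` and `RS` imply that the sum of the bounds of the steps is small, for rings with
`N2 = 2 e q`, `e = L 4^K`, `q` large, then `K`, `m`, `M` large, then `h` large.
-/

namespace Pool.Agent.H65.G

open Pool.Agent.H75.Perc hiding WL CT hh PB
open Pool.Agent.H75.TwoArm
open Pool.Agent.Q1.M4 (Cell)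
open Pool.Agent.H33.Q1
open Pool.Agent.H58.W Pool.Agent.H50.W Pool.Agent.H41.W Pool.Agent.H6.W Pool.Agent.H98.W
open Pool.Agent.H60.Q1 (Near Far)

/-- **One arm in the natural world**, form of `RS`. -/
theorem arm_nat : ∃ δ : ℝ, 0 < δ ∧ δ < 1 ∧ ∀ (R r1 k : ℕ), 0 < r1 → 4 * 4 ^ k * r1 ≤ R →
    ∀ h : ℕ, 0 < h → PB (TL (RC (-(R : ℤ)) R (-R) R) (2 * (h : ℤ)))
      (bk (2 * (h : ℤ)) (fun _ => (none : Option ℕ))) (ArmO (2 * (h : ℤ)) r1 R) ≤ (1 - δ) ^ k := by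
  obtain ⟨δ, h0, h1, hδ⟩ := PB_OA_nat
  refine ⟨δ, h0, h1, fun R r1 k hr1 hR h hh => ?_⟩
  have hn : (0 : ℤ) < 2 * (h : ℤ) := by positivity
  have hhZ : (0 : ℤ) < h := by exact_mod_cast hh
  have hr1Z : (0 : ℤ) < r1 := by exact_mod_cast hr1
  have h4 : (1 : ℤ) ≤ 4 ^ k := one_le_pow₀ (by norm_num)
  have hRZ : 4 * (4 : ℤ) ^ k * r1 ≤ R := by exact_mod_cast hR
  set E := TL (RC (-(R : ℤ)) R (-R) R) (2 * (h : ℤ)) with hE
  have key : PB E (bk (2 * (h : ℤ)) (fun _ => (none : Option ℕ))) (ArmO (2 * (h : ℤ)) r1 R) ≤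
      PB E (bk (2 * (h : ℤ)) (fun _ => (none : Option ℕ)))
        (Pool.Agent.H33.Q1.OA (0, 0) (r1 * (2 * h)) (R * h)) := by
    refine PB_mono fun ω _ h2 => ?_
    obtain ⟨u, v, g1, ⟨g2, g3⟩, g4⟩ := h2
    refine ⟨u, v, ?_, ?_, g1⟩
    · unfold Near
      unfold tv at g2 g3
      rw [abs_le] at g2 g3
      rw [abs_le, abs_le]
      simp only at g2 g3 ⊢
      constructor <;> constructor <;> omega
    · unfold Far
      unfold tv at g4
      rw [le_abs, le_abs] at g4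
      rw [le_abs, le_abs]
      simp only at g4 ⊢
      have e1 : (R : ℤ) * (2 * h) = 2 * (R * h) := by ring
      rw [e1] at g4
      omega
  refine key.trans (hδ _ E _ ?_ (0, 0) _ _ k ?_ ?_ ?_ ?_)
  · intro e he
    exact ((mem_TL hn).1 he).1
  · have : (1 : ℤ) ≤ r1 * h := by nlinarith
    have e1 : (r1 : ℤ) * (2 * h) = 2 * (r1 * h) := by ring
    rw [e1]; omega
  · have h5 : 2 * (4 : ℤ) ^ k * r1 ≤ R := by nlinarith
    calc (4 : ℤ) ^ k * (r1 * (2 * h)) = (2 * 4 ^ k * r1) * h := by ring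
      _ ≤ R * h := mul_le_mul_of_nonneg_right h5 hhZ.le
  · have h5 : 4 * (r1 : ℤ) ≤ R := by nlinarith
    have h6 : 4 * (r1 : ℤ) * h ≤ R * h := mul_le_mul_of_nonneg_right h5 hhZ.le
    have h7 : 0 < (r1 : ℤ) * h := mul_pos hr1Z hhZ
    have e1 : (r1 : ℤ) * (2 * h) = 2 * (r1 * h) := by ring
    have e2 : 4 * (r1 : ℤ) * h = 4 * (r1 * h) := by ring
    rw [e1]; rw [e2] at h6
    omega
  · intro e _ e' _ h2
    rw [bk_none rfl, bk_none rfl] at h2
    exact Sum.inl_injective h2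

namespace RG

lemma big_card (D : RG) (n : ℕ) : ((range n).filter D.Big).card ≤ 6 := by
  refine (card_le_card (t := {0, D.N2, 3 * D.N2, 5 * D.N2, 7 * D.N2, 8 * D.N2 - D.e}) ?_).trans
    card_le_six
  intro s hs
  rw [mem_filter] at hs
  have := hs.2
  unfold Big at this
  simp only [mem_insert, mem_singleton]
  exact this

/-- **The sum of the bounds of the steps.** -/
theorem bd_sum (hL : LocB) {C0 : ℕ} {C c : ℝ} (hRS : RS C0 C c) (hc : 0 < c) :
    ∃ L : ℕ, 0 < L ∧ ∀ ε : ℝ, 0 < ε → ∃ q0 : ℕ, ∀ q : ℕ, q0 ≤ q → ∃ K0 : ℕ, ∀ K : ℕ, K0 ≤ K →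
      ∃ m0 : ℕ, ∀ m : ℕ, m0 ≤ m → ∀ τ : ℕ, 0 < τ → ∃ M0 : ℕ, ∀ M : ℕ, M0 ≤ M → ∀ D : RG,
        D.N2 = 2 * (L * 4 ^ K) * q → D.e = L * 4 ^ K → D.m = m → D.M = M → D.τ = τ →
        ∃ h0 : ℕ, ∀ h : ℕ, h0 ≤ h →
          ∑ P ∈ range (8 * D.N2), D.bd h (D.e * q * D.l) (m * M * 4 ^ K) P ≤ ε := by
  obtain ⟨c1, C1, L, hc1, hL0, hloc⟩ := hL
  obtain ⟨δ, hδ0, hδ1, hnat⟩ := arm_nat
  refine ⟨L, hL0, fun ε hε => ?_⟩
  -- the scales of the big blocks
  obtain ⟨k, hk⟩ : ∃ k : ℕ, (1 - δ) ^ k ≤ ε / 60 := by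
    have h1 := exists_pow_lt_of_lt_one (show (0 : ℝ) < ε / 60 by positivity)
      (show 1 - δ < 1 by linarith)
    obtain ⟨k, hk⟩ := h1
    exact ⟨k, hk.le⟩
  obtain ⟨q1, hq1⟩ : ∃ q1 : ℕ, ∀ q : ℕ, q1 ≤ q → 0 < q → |C| * ((1 : ℝ) / q) ^ c ≤ ε / 60 := by
    have h1 : Filter.Tendsto (fun q : ℕ => |C| * ((1 : ℝ) / q) ^ c) Filter.atTop (nhds (|C| * 0)) := by
      refine Filter.Tendsto.const_mul _ ?_
      have h2 : Filter.Tendsto (fun q : ℕ => ((1 : ℝ) / q)) Filter.atTop (nhds 0) :=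
        tendsto_one_div_atTop_nhds_zero_nat
      have h3 := h2.rpow_const (p := c) (Or.inr hc.le)
      rwa [Real.zero_rpow hc.ne'] at h3
    rw [mul_zero] at h1
    have h2 := h1.eventually (ge_mem_nhds (show (0 : ℝ) < ε / 60 by positivity))
    rw [Filter.eventually_atTop] at h2
    obtain ⟨q1, h3⟩ := h2
    exact ⟨q1, fun q hq _ => h3 q hq⟩
  refine ⟨max (max q1 (4 * 4 ^ k)) 1, fun q hq => ?_⟩
  have hqa : q1 ≤ q := le_trans (le_trans (le_max_left _ _) (le_max_left _ _)) hq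
  have hqb : 4 * 4 ^ k ≤ q := le_trans (le_trans (le_max_right _ _) (le_max_left _ _)) hq
  have hqc : 1 ≤ q := le_trans (le_max_right _ _) hq
  -- the relative length of a chunk
  obtain ⟨K0, hK0⟩ : ∃ K0 : ℕ, ∀ K : ℕ, K0 ≤ K →
      16 * (L : ℝ) * q * |C1| * (4 : ℝ) ^ (-((K : ℝ) * c1)) ≤ ε / 4 := by
    have h1 : Filter.Tendsto (fun K : ℕ => 16 * (L : ℝ) * q * |C1| * (4 : ℝ) ^ (-((K : ℝ) * c1)))
        Filter.atTop (nhds (16 * (L : ℝ) * q * |C1| * 0)) := by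
      refine Filter.Tendsto.const_mul _ ?_
      have h2 : ∀ K : ℕ, (4 : ℝ) ^ (-((K : ℝ) * c1)) = ((4 : ℝ) ^ (-c1)) ^ K := by
        intro K
        rw [← Real.rpow_natCast, ← Real.rpow_mul (by norm_num)]
        congr 1; ring
      simp_rw [h2]
      refine tendsto_pow_atTop_nhds_zero_of_lt_one (by positivity) ?_
      exact Real.rpow_lt_one_of_one_lt_of_neg (by norm_num) (by linarith)
    rw [mul_zero] at h1
    have h2 := h1.eventually (ge_mem_nhds (show (0 : ℝ) < ε / 4 by positivity))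
    rw [Filter.eventually_atTop] at h2
    exact h2
  refine ⟨K0, fun K hK => ?_⟩
  set N2 : ℕ := 2 * (L * 4 ^ K) * q with hN2
  have h4K : (1 : ℕ) ≤ 4 ^ K := Nat.one_le_pow _ _ (by norm_num)
  have hN2pos : 0 < N2 := by
    rw [hN2]
    have : 0 < L * 4 ^ K := Nat.mul_pos hL0 (by omega)
    positivity
  have hN2R : (0 : ℝ) < N2 := by exact_mod_cast hN2pos
  obtain ⟨δ', hδ', hloc'⟩ := hloc K (ε / (32 * N2)) (by positivity)
  refine ⟨max ⌈1 / δ'⌉₊ (max C0 1), fun m hm τ hτ => ?_⟩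
  have hm1 : ⌈1 / δ'⌉₊ ≤ m := le_trans (le_max_left _ _) hm
  have hm2 : C0 ≤ m := le_trans (le_trans (le_max_left _ _) (le_max_right _ _)) hm
  have hmp : 0 < m := le_trans (le_trans (le_max_right _ _) (le_max_right _ _)) hm
  have hmδ : 1 ≤ δ' * m := by
    have h1 : 1 / δ' ≤ m := (Nat.le_ceil _).trans (by exact_mod_cast hm1)
    rw [div_le_iff₀ hδ'] at h1
    linarith
  set T : ℕ := τ + 2 * (N2 * m) with hT
  refine ⟨max ⌈64 * ((T : ℝ) + m * 4 ^ K / δ')⌉₊ (64 * (τ + 2 * (N2 * m)) + 1), fun M hM D hDN hDe hDm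
    hDM hDτ => ?_⟩
  have hM1 : 64 * ((T : ℝ) + m * 4 ^ K / δ') ≤ M := by
    have h1 : (⌈64 * ((T : ℝ) + m * 4 ^ K / δ')⌉₊ : ℝ) ≤ M := by
      exact_mod_cast le_trans (le_max_left _ _) hM
    exact (Nat.le_ceil _).trans h1
  have hM2 : 64 * (τ + 2 * (N2 * m)) + 1 ≤ M := le_trans (le_max_right _ _) hM
  have hMp : 0 < M := by omega
  have hM0 : (0 : ℝ) < M := by exact_mod_cast hMp
  have hm0 : (0 : ℝ) < m := by exact_mod_cast hmp
  set r : ℕ := m * M * 4 ^ K with hr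
  have hl : D.l = m * M := by unfold l; rw [hDm, hDM]
  have hLr : D.e * D.l = L * r := by rw [hDe, hl, hr]; ring
  have hRval : D.e * q * D.l = q * (L * r) := by rw [← hLr]; ring
  have hNval : D.N = 2 * (q * (L * r)) := by
    rw [N_eq, hDN, hl, hr]; ring
  have hn2 : D.n2 = N2 * m := by unfold n2; rw [hDN, hDm]
  have hrp : 0 < r := by rw [hr]; positivity
  have hLrp : 0 < L * r := Nat.mul_pos hL0 hrp
  -- single chunks
  have h4 : (1 : ℝ) ≤ 4 ^ K := one_le_pow₀ (by norm_num)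
  have hrR : (r : ℝ) = m * M * 4 ^ K := by rw [hr]; push_cast; ring
  have hrM : (M : ℝ) ≤ δ' * r := by
    rw [hrR]
    have h5 : 1 ≤ δ' * m * 4 ^ K := by nlinarith
    nlinarith
  obtain ⟨h1, hh1⟩ : ∃ h0 : ℕ, ∀ h, h0 ≤ h → ∀ τ ≤ T, 0 < τ →
      aJ (L * r) r M τ m h ≤ C1 * (4 : ℝ) ^ (-((K : ℝ) * (1 + c1))) + ε / (32 * N2) := by
    refine common_h0 T fun τ' hτ' h0 => ?_
    refine hloc' r M τ' m hMp h0 hrM ?_ rfl
    refine le_trans ?_ hM1
    have h5 : (τ' : ℝ) ≤ T := by exact_mod_cast hτ'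
    have h6 : (r : ℝ) / (δ' * M) = m * 4 ^ K / δ' := by
      rw [hrR]; field_simp
    rw [h6]
    linarith
  -- arms
  have hr1 : C0 * M ≤ L * r := by
    rw [hr]
    calc C0 * M ≤ m * M := Nat.mul_le_mul_right _ hm2
      _ ≤ m * M * 4 ^ K := Nat.le_mul_of_pos_right _ (by omega)
      _ ≤ L * (m * M * 4 ^ K) := Nat.le_mul_of_pos_left _ hL0
  have hr12 : L * r ≤ q * (L * r) := Nat.le_mul_of_pos_left _ (by omega)
  have hratio : ((L * r : ℕ) : ℝ) / ((q * (L * r) : ℕ) : ℝ) = 1 / q := by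
    have h5 : (0 : ℝ) < ((L * r : ℕ) : ℝ) := by exact_mod_cast hLrp
    have h6 : (0 : ℝ) < q := by exact_mod_cast hqc
    rw [Nat.cast_mul q (L * r)]
    field_simp
  have hRM : ((q * (L * r) : ℕ) : ℝ) / M = (N2 * m : ℕ) / 2 := by
    rw [hN2]
    push_cast
    rw [hrR]
    field_simp
  obtain ⟨h2, hh2⟩ := hRS (q * (L * r)) M τ 0 hMp hτ (dvd_zero _) le_rfl (by positivity) (by
    have e1 : 2 * ((q * (L * r) : ℕ) : ℝ) / M = (N2 * m : ℕ) := by rw [mul_div_assoc, hRM]; ring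
    rw [e1]
    have h5 : 64 * (τ + N2 * m) ≤ M := by omega
    exact_mod_cast h5) (L * r) (q * (L * r)) hr1 hr12 le_rfl (Or.inl rfl)
  obtain ⟨h3, hh3⟩ := hRS (2 * (q * (L * r))) M τ ((2 * (q * (L * r)) : ℕ) : ℤ) hMp hτ (by
    refine Int.natCast_dvd_natCast.2 ?_
    rw [hr]
    exact ⟨2 * (q * (L * (m * 4 ^ K))), by ring⟩) (by positivity) le_rfl (by
    have e1 : 2 * ((2 * (q * (L * r)) : ℕ) : ℝ) / M = 2 * (N2 * m : ℕ) := by
      rw [Nat.cast_mul 2, mul_div_assoc, mul_div_assoc, hRM]; push_cast; ring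
    rw [e1]
    have h5 : 64 * (τ + 2 * (N2 * m)) ≤ M := by omega
    exact_mod_cast h5) (L * r) (q * (L * r)) hr1 hr12 (by omega) (Or.inr (by push_cast; nlinarith))
  rw [hratio] at hh2 hh3
  have hCq := hq1 q hqa (by omega)
  have hCC : C * ((1 : ℝ) / q) ^ c ≤ ε / 60 := by
    refine le_trans ?_ hCq
    exact mul_le_mul_of_nonneg_right (le_abs_self C) (by positivity)
  refine ⟨max (max h1 h2) (max h3 1), fun h hh => ?_⟩
  have g1 : h1 ≤ h := le_trans (le_trans (le_max_left _ _) (le_max_left _ _)) hh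
  have g2 : h2 ≤ h := le_trans (le_trans (le_max_right _ _) (le_max_left _ _)) hh
  have g3 : h3 ≤ h := le_trans (le_trans (le_max_left _ _) (le_max_right _ _)) hh
  have g4 : 0 < h := le_trans (le_trans (le_max_right _ _) (le_max_right _ _)) hh
  set s : ℝ := |C1| * (4 : ℝ) ^ (-((K : ℝ) * (1 + c1))) + ε / (32 * N2) with hs
  have hs0 : 0 ≤ s := by positivity
  have hstep : ∀ P ∈ range (8 * D.N2), D.bd h (D.e * q * D.l) r P ≤
      (if D.Big P then ε / 20 else 0) + s := by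
    intro P hP
    rw [mem_range] at hP
    unfold bd
    by_cases hB : D.Big P
    · rw [if_pos hB, if_pos hB, hRval, hLr, hDM, hDτ, hNval]
      have a1 := (hh2 h g2).1
      have a2 := (hh3 h g3).1
      have a3 := hnat (q * (L * r)) (L * r) k hLrp (Nat.mul_le_mul_right _ hqb) h g4
      rw [show (chn 0 M τ) = chn ((0 : ℕ) : ℤ) M τ from rfl] at a1
      have a4 := a1.trans hCC
      have a5 := a2.trans hCC
      have a6 := a3.trans hk
      simp only [Nat.cast_zero] at a4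
      linarith
    · rw [if_neg hB, if_neg hB, zero_add]
      by_cases hU : D.up P = D.up (P + 1)
      · rw [if_pos hU]; exact hs0
      · rw [if_neg hU]
        have hS : D.Sgl P := by
          rcases D.up_cases hP with h5 | ⟨h5, -⟩ | ⟨-, -, h5⟩
          · exact absurd h5 hU
          · exact absurd h5 hB
          · exact h5
        obtain ⟨t1, t2, t3⟩ := D.tau_bounds hS
        rw [hLr, hDM, hDm]
        refine (hh1 h g1 (D.tau P) ?_ ?_).trans ?_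
        · rw [hT, ← hn2, ← hDτ]; exact t3
        · rw [hDτ] at t2; omega
        · rw [hs]
          have : C1 * (4 : ℝ) ^ (-((K : ℝ) * (1 + c1))) ≤ |C1| * (4 : ℝ) ^ (-((K : ℝ) * (1 + c1))) :=
            mul_le_mul_of_nonneg_right (le_abs_self C1) (by positivity)
          linarith
  refine (sum_le_sum hstep).trans ?_
  rw [sum_add_distrib, ← sum_filter, sum_const, sum_const, card_range, nsmul_eq_mul, nsmul_eq_mul]
  have hcard : (((range (8 * D.N2)).filter D.Big).card : ℝ) ≤ 6 := by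
    exact_mod_cast D.big_card _
  have hb1 : (((range (8 * D.N2)).filter D.Big).card : ℝ) * (ε / 20) ≤ 6 * (ε / 20) :=
    mul_le_mul_of_nonneg_right hcard (by positivity)
  have hb2 : ((8 * D.N2 : ℕ) : ℝ) * s ≤ ε / 4 + ε / 4 := by
    rw [hs, mul_add, hDN]
    refine add_le_add ?_ (le_of_eq ?_)
    · refine le_trans (le_of_eq ?_) (hK0 K hK)
      have e2 : (4 : ℝ) ^ (-((K : ℝ) * (1 + c1))) = (4 : ℝ) ^ (-((K : ℝ) * c1)) / 4 ^ K := by
        rw [eq_div_iff (by positivity), ← Real.rpow_natCast 4 K, ← Real.rpow_add (by norm_num)]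
        congr 1; ring
      rw [e2, hN2]
      push_cast
      field_simp
      ring
    · push_cast
      field_simp
      ring
  linarith

end RG

end Pool.Agent.H65.G
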