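import Mathlib
import Pool.Agent.H65.G.RingSum
import Pool.Agent.H58.W.WG

set_option autoImplicit false
open Finset

/-!
# The ring for the primitive of the parafermion (Route W, W-G)

`RG.wg_ring` : in a plane environment the displacement of the primitive inside a box differs from the
average over the colours of the plates of the displacement in the environment with frozen plates by at
most `4 mm r'` times the sum of the bounds of the steps.
`ring_top` : `LocB → RS → ` for all `ε` there is a ring for which the difference is at most `4 mm r' ε`,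
for all large `h`.
-/

namespace Pool.Agent.H65.G

open Pool.Agent.H75.Perc hiding WL CT hh PB
open Pool.Agent.H75.TwoArm hiding BX
open Pool.Agent.Q1.M4 (Cell)
open Pool.Agent.Q1 Pool.Agent.Q1.M6c
open Pool.Agent.H33.Q1
open Pool.Agent.H58.W Pool.Agent.H50.W Pool.Agent.H41.W Pool.Agent.H6.W Pool.Agent.H98.W
open Pool.Agent.H50.W.Chd (mem_RC)

lemma G'T (u e : ℤ × ℤ) : (syT u).G' e = (e.1 - 2 * u.1, e.2 - 2 * u.2) := by
  have h1 : (syT u).G (e.1 - 2 * u.1, e.2 - 2 * u.2) = e := by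
    show (e.1 - 2 * u.1 + 2 * u.1, e.2 - 2 * u.2 + 2 * u.2) = e
    refine Prod.ext ?_ ?_ <;> simp only <;> ring
  calc (syT u).G' e = (syT u).G' ((syT u).G (e.1 - 2 * u.1, e.2 - 2 * u.2)) := by rw [h1]
    _ = _ := GG'T u _

lemma mem_TLu {n : ℤ} (hn : 0 < n) {U : Finset Cell} {u e : ℤ × ℤ} :
    e ∈ (TL U n).map (syT u).G ↔
      (e.1 + e.2) % 2 = 1 ∧ ct n (tt ((syT u).G' e)) ∈ U := by
  rw [(syT u).mem_map, mem_TL hn]
  refine and_congr ?_ Iff.rfl
  rw [G'T]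
  simp only
  constructor <;> intro h <;> omega

namespace RG

variable (D : RG)

open Classical in
/-- cells of the ring -/
noncomputable def Rf : Finset Cell :=
  (RC (-(2 * D.N : ℕ)) (2 * D.N : ℕ) (-(2 * D.N : ℕ)) (2 * D.N : ℕ)).filter (fun c => D.rg c ≠ none)

lemma mem_Rf {c : Cell} : c ∈ D.Rf ↔ D.rg c ≠ none := by
  classical
  unfold Rf
  rw [mem_filter, mem_RC]
  constructor
  · exact fun h => h.2
  · intro h
    refine ⟨?_, h⟩
    obtain ⟨q, hq⟩ := Option.ne_none_iff_exists'.1 h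
    have := D.rg_big hq
    unfold Sq at this
    push_cast
    omega

/-- labels of the plates of the ring, origin at `u` -/
noncomputable def RL (h : ℕ) (u : ℤ × ℤ) : Finset (ℤ × ℤ) :=
  (TL D.Rf (2 * (h : ℤ))).map (syT u).G

/-- labels of the block of the step `P` -/
noncomputable def SL (h : ℕ) (u : ℤ × ℤ) (P : ℕ) : Finset (ℤ × ℤ) :=
  (TL (D.Uf P) (2 * (h : ℤ))).map (syT u).G

/-- coins of the step `P` -/
noncomputable def bP (h : ℕ) (u : ℤ × ℤ) (P : ℕ) : ℤ × ℤ → (ℤ × ℤ) ⊕ (ℕ × ℤ) :=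
  bku u (2 * (h : ℤ)) (D.hy (D.up P))

/-- coins of the ring -/
noncomputable def bR (h : ℕ) (u : ℤ × ℤ) : ℤ × ℤ → (ℤ × ℤ) ⊕ (ℕ × ℤ) :=
  bku u (2 * (h : ℤ)) D.rg

lemma bP_last (h : ℕ) (u : ℤ × ℤ) : D.bP h u (8 * D.N2) = D.bR h u := by
  unfold bP bR
  rw [D.up_last]
  congr 1
  funext c
  push_cast
  exact D.hy_all c

lemma bku_none' {κ : Type*} {u : ℤ × ℤ} {n : ℤ} {pl : Cell → Option κ} {e : ℤ × ℤ}
    (h : pl (ct n (tt ((syT u).G' e))) = none) : bku u n pl e = Sum.inl ((syT u).G' e) := bk_none h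

lemma G'_inj (u : ℤ × ℤ) : Function.Injective (syT u).G' := by
  intro e e' h
  have := congrArg (syT u).G h
  rwa [(syT u).GG', (syT u).GG'] at this

/-- off the block nothing changes -/
lemma bP_step {h : ℕ} (hh : 0 < h) (u : ℤ × ℤ) (P : ℕ) {e : ℤ × ℤ} (he : (e.1 + e.2) % 2 = 1)
    (hS : e ∉ D.SL h u P) : D.bP h u P e = D.bP h u (P + 1) e := by
  have hn : (0 : ℤ) < 2 * (h : ℤ) := by positivity
  unfold SL at hS
  rw [mem_TLu hn] at hS
  have h1 : ct (2 * (h : ℤ)) (tt ((syT u).G' e)) ∉ D.Uf P := fun h2 => hS ⟨he, h2⟩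
  rw [mem_Uf] at h1
  have h2 : D.hy (D.up P) (ct (2 * (h : ℤ)) (tt ((syT u).G' e))) =
      D.hy (D.up (P + 1)) (ct (2 * (h : ℤ)) (tt ((syT u).G' e))) :=
    D.hy_congr (by exact_mod_cast D.up_mono P) h1
  unfold bP bku bk
  rw [h2]

/-- a label of the box `BX p r'` lies in the inner square -/
lemma inner {h : ℕ} (hh : 0 < h) {u p : ℤ × ℤ} {r' : ℕ} {ρ : ℤ}
    (h1 : |p.1 - u.1| + |p.2 - u.2| + 2 * r' + 1 ≤ ρ * (2 * h)) {e : ℤ × ℤ}
    (he : e ∈ BX p r') : Sq ρ (ct (2 * (h : ℤ)) (tt ((syT u).G' e))) := by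
  have hn : (0 : ℤ) < 2 * (h : ℤ) := by positivity
  rw [mem_BX] at he
  rw [G'T]
  unfold tt ct Sq
  simp only
  have a1 := neg_abs_le (p.1 - u.1)
  have a2 := le_abs_self (p.1 - u.1)
  have a3 := neg_abs_le (p.2 - u.2)
  have a4 := le_abs_self (p.2 - u.2)
  rw [Int.le_ediv_iff_mul_le hn, Int.ediv_lt_iff_lt_mul hn, Int.le_ediv_iff_mul_le hn,
    Int.ediv_lt_iff_lt_mul hn, neg_mul]
  omega

/-- a label of the big square lies in the box around `u` -/
lemma outer {h : ℕ} (hh : 0 < h) {u : ℤ × ℤ} {N : ℕ} {e : ℤ × ℤ} (he : (e.1 + e.2) % 2 = 1)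
    (h1 : Sq (2 * N) (ct (2 * (h : ℤ)) (tt ((syT u).G' e)))) : e ∈ BX u (4 * N * h + 1) := by
  have hn : (0 : ℤ) < 2 * (h : ℤ) := by positivity
  rw [mem_BX]
  rw [G'T] at h1
  unfold tt ct Sq at h1
  simp only at h1
  rw [Int.le_ediv_iff_mul_le hn, Int.ediv_lt_iff_lt_mul hn, Int.le_ediv_iff_mul_le hn,
    Int.ediv_lt_iff_lt_mul hn, neg_mul] at h1
  have e1 : 2 * (N : ℤ) * (2 * h) = 4 * (N * h) := by ring
  have e2 : 4 * (N : ℤ) * h = 4 * (N * h) := by ring
  rw [e1] at h1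
  rw [e2]
  omega

/-- **The ring for the primitive.** -/
theorem wg_ring {R r : ℕ} (hR : 2 * R ≤ D.N) (hr : r ≤ R) (heR : D.e * D.l ≤ R)
    (ht : D.τ + 2 * D.n2 + D.m ≤ r) {h : ℕ} (hh : 0 < h) {X : Env} (hX : PlaneK X)
    {u p : ℤ × ℤ} {r' : ℕ} (hF : Free X.E p r') (hbig : Free X.E u (4 * D.N * h + 1))
    (hp : |p.1 - u.1| + |p.2 - u.2| + 2 * r' + 1 ≤ ((D.N : ℤ) - R) * (2 * h))
    {u' v' : ℤ × ℤ} (hu : InQ p r' u') (hv : InQ p r' v') :
    ‖X.D u' v' - EB (D.RL h u) (D.bR h u) (fun ω => (X.freeze (X.E \ D.RL h u) ω).D u' v')‖ ≤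
      4 * mm r' * ∑ P ∈ range (8 * D.N2), D.bd h R r P := by
  classical
  have hn : (0 : ℤ) < 2 * (h : ℤ) := by positivity
  -- the boxes
  have hex : ∀ P : ℕ, ∃ BC : Finset Cell, P < 8 * D.N2 → (D.Okb R BC ∧ D.Uf P ⊆ BC ∧
      ∀ h : ℕ, 0 < h → ∀ u : ℤ × ℤ,
      PB ((TL BC (2 * (h : ℤ))).map (syT u).G) (bku u (2 * (h : ℤ)) (D.hy (D.up P)))
        (A4 ((TL BC (2 * (h : ℤ))).map (syT u).G) ((TL (D.Uf P) (2 * (h : ℤ))).map (syT u).G)) ≤
          D.bd h R r P) := by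
    intro P
    by_cases hP : P < 8 * D.N2
    · obtain ⟨BC, h1⟩ := D.step hR hr heR ht hP
      exact ⟨BC, fun _ => h1⟩
    · exact ⟨∅, fun h1 => absurd h1 hP⟩
  choose BC hBC using hex
  have hbox : ∀ P < 8 * D.N2, ∀ e ∈ (TL (BC P) (2 * (h : ℤ))).map (syT u).G, e ∈ X.E \ BX p r' := by
    intro P hP e he
    rw [mem_TLu hn] at he
    obtain ⟨h1, h2⟩ := (hBC P hP).1.2 _ he.2
    rw [mem_sdiff]
    refine ⟨hbig ?_, fun h3 => h2 (inner hh hp h3)⟩
    have := outer hh he.1 h1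
    unfold BX at this
    exact this
  have hringE : D.RL h u ⊆ X.E \ BX p r' := by
    intro e he
    unfold RL at he
    rw [mem_TLu hn, mem_Rf] at he
    obtain ⟨q, hq⟩ := Option.ne_none_iff_exists'.1 he.2
    rw [mem_sdiff]
    constructor
    · apply hbig
      have := outer hh he.1 (D.rg_big hq)
      unfold BX at this
      exact this
    · intro h3
      -- the inner square contains no plate
      have h4 := inner hh hp h3
      set c := ct (2 * (h : ℤ)) (tt ((syT u).G' e)) with hc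
      obtain ⟨s1, s2, s3⟩ := D.rg_some hq
      have h5 : Sq ((D.N : ℤ) - R) (rc'^[q.1] c) := by
        rw [← sq_iter (ρ := (D.N : ℤ) - R) q.1, rc'_iter]
        exact h4
      obtain ⟨⟨a1, a2⟩, ⟨a3, a4⟩, -⟩ := s2
      have h6 := D.hw_bounds a1 a2
      have h7 : D.hw (D.K (rc'^[q.1] c).1) ≤ R := by
        have h8 : (D.τ : ℤ) + 2 * D.n2 + D.m ≤ r := by exact_mod_cast ht
        have h9 : (r : ℤ) ≤ R := by exact_mod_cast hr
        have h10 := D.K_bounds a1 a2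
        unfold hw
        omega
      unfold Sq at h5
      omega
  have key := wg_abs hX hF hu hv (D.bP h u) (D.SL h u)
    (fun P => (TL (BC P) (2 * (h : ℤ))).map (syT u).G) (8 * D.N2) ?_ ?_ ?_ ?_
  · rw [D.bP_last] at key
    rw [EF_nat X p r' u' v' (b := D.bP h u 0) ?_, EF_eq hu hv hringE (b := D.bR h u) ?_ ?_] at key
    · refine key.trans ?_
      refine mul_le_mul_of_nonneg_left ?_ ?_
      · refine sum_le_sum fun P hP => ?_
        rw [mem_range] at hP
        exact (hBC P hP).2.2 h hh u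
      · have := FZ_norm hX hF hu hv (∅ : Finset (ℤ × ℤ))
        have h1 := (norm_nonneg _).trans this
        positivity
    · -- separation
      intro l hl l' hl' h1
      unfold RL at hl
      rw [mem_TLu hn, mem_Rf] at hl
      obtain ⟨q, hq⟩ := Option.ne_none_iff_exists'.1 hl.2
      have h2 : D.bR h u l = Sum.inr q := bk_some hq
      rw [mem_sdiff, mem_sdiff] at hl'
      have h3 : D.rg (ct (2 * (h : ℤ)) (tt ((syT u).G' l'))) = none := by
        by_contra h4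
        apply hl'.2
        unfold RL
        rw [mem_TLu hn, mem_Rf]
        exact ⟨X.odd l' hl'.1.1, h4⟩
      have h5 : D.bR h u l' = Sum.inl ((syT u).G' l') := bk_none h3
      rw [h2, h5] at h1
      cases h1
    · -- natural labels
      intro l hl l' hl' h1
      have key : ∀ l ∈ (X.E \ BX p r') \ D.RL h u, D.bR h u l = Sum.inl ((syT u).G' l) := by
        intro l hl
        rw [mem_sdiff, mem_sdiff] at hl
        refine bk_none ?_
        by_contra h4
        apply hl.2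
        unfold RL
        rw [mem_TLu hn, mem_Rf]
        exact ⟨X.odd l hl.1.1, h4⟩
      rw [key l hl, key l' hl'] at h1
      exact G'_inj u (Sum.inl_injective h1)
    · -- natural world
      intro l _ l' _ h1
      unfold bP at h1
      rw [D.up_zero] at h1
      have h2 : ∀ l, bku u (2 * (h : ℤ)) (D.hy ((0 : ℕ) : ℤ)) l = Sum.inl ((syT u).G' l) :=
        fun l => bk_none (by push_cast; exact D.hy_zero _)
      rw [h2, h2] at h1
      exact G'_inj u (Sum.inl_injective h1)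
  · intro P hP
    obtain ⟨a, b, c, d, h1⟩ := (hBC P hP).1.1
    rw [h1]
    exact sc_RC hn u a b c d
  · intro P hP e he
    unfold SL at he
    rw [mem_TLu hn] at he
    rw [mem_TLu hn]
    exact ⟨he.1, (hBC P hP).2.1 he.2⟩
  · intro P hP e he
    exact hbox P hP e he
  · intro P _ l hl l' hl' h1 h2
    rw [D.bP_step hh u P (X.odd l hl) h1, D.bP_step hh u P (X.odd l' hl') h2]

end RG

/-- **The ring.** `f` = any further condition on the fineness. -/
theorem ring_top (hL : LocB) {C0 : ℕ} {C c : ℝ} (hRS : RS C0 C c) (hc : 0 < c) (ε : ℝ) (hε : 0 < ε)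
    (τ : ℕ) (hτ : 0 < τ) (f : ℕ → ℕ) : ∃ D : RG, D.τ = τ ∧ f (D.N2 * D.m) ≤ D.M ∧
      ∃ h0 : ℕ, ∀ h : ℕ, h0 ≤ h → ∀ (X : Env), PlaneK X → ∀ (u p : ℤ × ℤ) (r' : ℕ),
        Free X.E u (4 * D.N * h + 1) →
        |p.1 - u.1| + |p.2 - u.2| + 2 * r' + 1 ≤ (D.N : ℤ) * h → ∀ u' v' : ℤ × ℤ,
        InQ p r' u' → InQ p r' v' →
        ‖X.D u' v' - EB (D.RL h u) (D.bR h u) (fun ω => (X.freeze (X.E \ D.RL h u) ω).D u' v')‖ ≤
          4 * mm r' * ε := by
  obtain ⟨L, hL0, hsum⟩ := RG.bd_sum hL hRS hc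
  obtain ⟨q0, h1⟩ := hsum ε hε
  set q := max q0 1 with hq
  obtain ⟨K, h2⟩ := h1 q (le_max_left _ _)
  obtain ⟨m0, h3⟩ := h2 K le_rfl
  set m := max m0 1 with hm
  obtain ⟨M0, h4⟩ := h3 m (le_max_left _ _) τ hτ
  set N2 : ℕ := 2 * (L * 4 ^ K) * q with hN2
  set M := max M0 (τ + 2 * (N2 * m) + m + f (N2 * m) + 1) with hM
  have hMa : M0 ≤ M := le_max_left _ _
  have hMb : τ + 2 * (N2 * m) + m + f (N2 * m) + 1 ≤ M := le_max_right _ _
  have hq1 : 1 ≤ q := le_max_right _ _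
  have hm1 : 1 ≤ m := le_max_right _ _
  have h4K : 1 ≤ 4 ^ K := Nat.one_le_pow _ _ (by norm_num)
  have hLK : 0 < L * 4 ^ K := Nat.mul_pos hL0 (by omega)
  let D : RG := ⟨N2, m, M, L * 4 ^ K, τ, by omega, by omega, hLK, by
    rw [hN2]
    exact Nat.le_mul_of_pos_right _ (by omega), hτ, by omega⟩
  obtain ⟨h0, h5⟩ := h4 M hMa D rfl rfl rfl rfl rfl
  refine ⟨D, rfl, ?_, max h0 1, fun h hh X hX u p r' hbig hp u' v' hu hv => ?_⟩
  · show f (N2 * m) ≤ M
    omega
  have hh0 : h0 ≤ h := le_trans (le_max_left _ _) hh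
  have hh1 : 0 < h := le_trans (le_max_right _ _) hh
  have h6 := h5 h hh0
  have hN : D.N = 2 * (D.e * q * D.l) := by
    rw [D.N_eq]
    show N2 * D.l = 2 * ((L * 4 ^ K) * q * D.l)
    rw [hN2]; ring
  have hR : 2 * (D.e * q * D.l) ≤ D.N := hN.ge
  have hl : D.l = m * M := rfl
  have hr : m * M * 4 ^ K ≤ D.e * q * D.l := by
    rw [hl]
    show m * M * 4 ^ K ≤ (L * 4 ^ K) * q * (m * M)
    calc m * M * 4 ^ K ≤ L * q * (m * M * 4 ^ K) :=
        Nat.le_mul_of_pos_left _ (Nat.mul_pos hL0 hq1)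
      _ = _ := by ring
  have heR : D.e * D.l ≤ D.e * q * D.l :=
    Nat.mul_le_mul_right _ (Nat.le_mul_of_pos_right _ hq1)
  have ht : D.τ + 2 * D.n2 + D.m ≤ m * M * 4 ^ K := by
    show τ + 2 * (N2 * m) + m ≤ m * M * 4 ^ K
    have h7 : M ≤ m * M * 4 ^ K := by
      calc M ≤ m * M := Nat.le_mul_of_pos_left _ hm1
        _ ≤ m * M * 4 ^ K := Nat.le_mul_of_pos_right _ (by omega)
    omega
  -- the inner box
  have hNh : (0 : ℤ) ≤ D.N * h := by positivity
  have hp' : |p.1 - u.1| + |p.2 - u.2| + 2 * r' + 1 ≤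
      ((D.N : ℤ) - (D.e * q * D.l : ℕ)) * (2 * h) := by
    have e1 : ((D.N : ℤ) - (D.e * q * D.l : ℕ)) * (2 * h) = D.N * h := by
      have : (D.N : ℤ) = 2 * ((D.e * q * D.l : ℕ) : ℤ) := by exact_mod_cast hN
      rw [this]; ring
    rw [e1]
    exact hp
  have hFp : Free X.E p r' := by
    refine hbig.mono ?_ ?_
    · have a1 := abs_nonneg (p.2 - u.2)
      have e2 : 4 * (D.N : ℤ) * h = 4 * (D.N * h) := by ring
      rw [e2]; omega
    · have a1 := abs_nonneg (p.1 - u.1)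
      have e2 : 4 * (D.N : ℤ) * h = 4 * (D.N * h) := by ring
      rw [e2]; omega
  have key := D.wg_ring hR hr heR ht hh1 hX hFp hbig hp' hu hv
  refine key.trans (mul_le_mul_of_nonneg_left h6 ?_)
  have := FZ_norm hX hFp hu hv (∅ : Finset (ℤ × ℤ))
  have h1 := (norm_nonneg _).trans this
  positivity

end Pool.Agent.H65.G
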