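import Mathlib
import Pool.Agent.H65.G.Ring
import Pool.Agent.H5.FM.WinC

set_option autoImplicit false
open Finset

/-!
# The room of the ring as a coarse window (Route W, W-G)

`D.cw s` : the coarse window (`H5.FM.CW`) of the inside of the ring, `s` = colours of the plates. Row
`Y` = cells with `c.2 = Y - N + τ`.
* `room_iff` : a cell of the square `[-N, N)²` is in no plate iff it is a cell of the window;
* `AL, PL` : left end of the row and plate of the left wall; `AR, PR` = right side (half turn).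
-/

namespace Pool.Agent.H65.G

open Pool.Agent.Q1.M4 (Cell)
open Pool.Agent.H5.FM

namespace RG

variable (D : RG)

/-- number of rows -/
def HR : ℤ := 2 * D.N - 2 * D.τ

/-- left end of the row -/
def AL (Y : ℤ) : ℤ :=
  if Y < 2 * D.n2 - 1 then D.M * (D.n2 - 1 - Y) else -(D.N : ℤ) + D.hw (D.K (D.N - D.τ - 1 - Y))

/-- plate of the left wall of the row -/
def PL (Y : ℤ) : ℕ × ℤ :=
  if Y < 2 * D.n2 - 1 then (0, D.n2 - 2 - Y) else (3, D.K (D.N - D.τ - 1 - Y))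

/-- half turn of the sides -/
def flip (q : ℕ × ℤ) : ℕ × ℤ := ((q.1 + 2) % 4, q.2)

/-- right end of the row -/
def AR (Y : ℤ) : ℤ := -D.AL (D.HR - 1 - Y)

/-- plate of the right wall of the row -/
def PR (Y : ℤ) : ℕ × ℤ := flip (D.PL (D.HR - 1 - Y))

lemma MZ : (0 : ℤ) < D.M := by exact_mod_cast D.hM
lemma τZ : (0 : ℤ) < D.τ := by exact_mod_cast D.hτ
lemma n2Z : (2 : ℤ) ≤ D.n2 := by exact_mod_cast D.n2_pos
lemma NZ : (D.N : ℤ) = D.n2 * D.M := by exact_mod_cast D.N_eq'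
lemma NM : 2 * (D.M : ℤ) ≤ D.N := by exact_mod_cast D.N_ge
lemma thinZ : (D.τ : ℤ) + 2 * D.n2 ≤ D.M := by
  have := D.thin
  unfold n2
  exact_mod_cast this

lemma K_mono {x x' : ℤ} (h : x ≤ x') : D.K x ≤ D.K x' := by
  unfold K
  exact Int.ediv_le_ediv D.MZ h

lemma K_ge {x k : ℤ} : k ≤ D.K x ↔ k * D.M ≤ x := by
  unfold K; rw [Int.le_ediv_iff_mul_le D.MZ]

lemma K_lt {x k : ℤ} : D.K x < k ↔ x < k * D.M := by
  unfold K; rw [Int.ediv_lt_iff_lt_mul D.MZ]

/-- half widths inside the side -/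
lemma hw_le {x : ℤ} (h : -(D.N : ℤ) ≤ x) : D.hw (D.K x) ≤ D.τ + 2 * D.n2 - 1 := by
  have h1 : -(D.n2 : ℤ) ≤ D.K x := by
    rw [K_ge]
    have := D.NZ
    linarith
  unfold hw
  omega

lemma hw_ge {x : ℤ} (h : x < D.N) : (D.τ : ℤ) ≤ D.hw (D.K x) := by
  have h1 : D.K x < D.n2 := by
    rw [K_lt]
    have := D.NZ
    linarith
  unfold hw
  omega

lemma hw_anti {x x' : ℤ} (h : x ≤ x') : D.hw (D.K x') ≤ D.hw (D.K x) := by
  have := D.K_mono h
  unfold hw
  omega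

/-- in the tip plate -/
lemma hw_t {x : ℤ} (h1 : (D.N : ℤ) - D.M ≤ x) (h2 : x < D.N) : D.hw (D.K x) = D.τ := D.hw_tip h1 h2

/-- in the plate before the tip -/
lemma hw_t1 : D.hw (D.K ((D.N : ℤ) - D.M - 1)) = D.τ + 1 := by
  have h4 : D.K ((D.N : ℤ) - D.M - 1) = D.n2 - 2 := by
    have h3 := D.NZ
    have hM := D.MZ
    unfold K
    rw [Pool.Agent.H50.W.dv hM, h3]
    have e1 : (D.M : ℤ) * (D.n2 - 2) = D.n2 * D.M - 2 * D.M := by ring
    rw [e1]
    omega
  rw [h4]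
  unfold hw
  ring

/-- rows above the staircase of the bottom side -/
lemma AL_hi {Y : ℤ} (h : 2 * (D.n2 : ℤ) - 1 ≤ Y) :
    D.AL Y = -(D.N : ℤ) + D.hw (D.K (D.N - D.τ - 1 - Y)) := by
  unfold AL; rw [if_neg (by omega)]

lemma AL_lo {Y : ℤ} (h : Y < 2 * (D.n2 : ℤ) - 1) : D.AL Y = D.M * (D.n2 - 1 - Y) := by
  unfold AL; rw [if_pos h]

/-- the rows of the tip plate of the left side -/
lemma AL_tip {Y : ℤ} (h : 2 * (D.n2 : ℤ) - 1 ≤ Y) (h2 : Y < D.M - D.τ) :
    D.AL Y = -(D.N : ℤ) + D.τ := by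
  rw [D.AL_hi h, D.hw_t (by omega) ?_]
  have := D.n2Z
  have := D.τZ
  omega

lemma AL_bounds {Y : ℤ} (h0 : 0 ≤ Y) (h1 : Y < D.HR) :
    -(D.N : ℤ) + D.τ ≤ D.AL Y ∧ D.AL Y ≤ D.N - D.M := by
  have hM := D.MZ
  have hn := D.n2Z
  have hNZ := D.NZ
  have ht := D.thinZ
  have hNM := D.NM
  unfold HR at h1
  by_cases h : Y < 2 * (D.n2 : ℤ) - 1
  · rw [D.AL_lo h]
    constructor
    · have : (D.M : ℤ) * (1 - D.n2) ≤ D.M * (D.n2 - 1 - Y) := mul_le_mul_of_nonneg_left (by omega) hM.le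
      have e1 : (D.M : ℤ) * (1 - D.n2) = D.M - D.n2 * D.M := by ring
      rw [e1] at this
      omega
    · have : (D.M : ℤ) * (D.n2 - 1 - Y) ≤ D.M * (D.n2 - 1) := mul_le_mul_of_nonneg_left (by omega) hM.le
      have e1 : (D.M : ℤ) * (D.n2 - 1) = D.n2 * D.M - D.M := by ring
      rw [e1] at this
      omega
  · have hτ := D.τZ
    rw [D.AL_hi (by omega)]
    have a1 := D.hw_ge (x := D.N - D.τ - 1 - Y) (by omega)
    have a2 := D.hw_le (x := D.N - D.τ - 1 - Y) (by omega)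
    omega

lemma AL_anti {Y : ℤ} (h1 : Y + 1 < D.M - D.τ) : D.AL (Y + 1) ≤ D.AL Y := by
  have hM := D.MZ
  have hn := D.n2Z
  have hNZ := D.NZ
  have ht := D.thinZ
  rcases lt_trichotomy (Y + 1) (2 * (D.n2 : ℤ) - 1) with h | h | h
  · rw [D.AL_lo h, D.AL_lo (by omega)]
    exact mul_le_mul_of_nonneg_left (by omega) hM.le
  · rw [D.AL_tip (by omega) h1, D.AL_lo (by omega)]
    have e1 : (D.M : ℤ) * (D.n2 - 1 - Y) = D.M - D.n2 * D.M := by
      have : Y = 2 * D.n2 - 2 := by omega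
      rw [this]; ring
    rw [e1]
    omega
  · rw [D.AL_tip (by omega) h1, D.AL_tip (by omega) (by omega)]

lemma AL_drop : D.AL (D.M - D.τ - 1) < D.AL (D.M - D.τ) := by
  have ht := D.thinZ
  have hn := D.n2Z
  rw [D.AL_tip (by omega) (by omega), D.AL_hi (by omega)]
  have e1 : (D.N : ℤ) - D.τ - 1 - (D.M - D.τ) = D.N - D.M - 1 := by ring
  rw [e1, D.hw_t1]
  omega

lemma AL_mono {Y : ℤ} (h0 : D.M - D.τ ≤ Y) : D.AL Y ≤ D.AL (Y + 1) := by
  have ht := D.thinZ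
  rw [D.AL_hi (by omega), D.AL_hi (by omega)]
  have := D.hw_anti (x := D.N - D.τ - 1 - (Y + 1)) (x' := D.N - D.τ - 1 - Y) (by omega)
  omega

lemma AL_mono' {Y : ℤ} (h0 : D.M - D.τ - 1 ≤ Y) : D.AL Y ≤ D.AL (Y + 1) := by
  rcases eq_or_lt_of_le h0 with h | h
  · rw [← h]
    have := D.AL_drop
    rw [sub_add_cancel]
    exact this.le
  · exact D.AL_mono (by omega)

/-- opposite rows -/
lemma AL_sum {Y Z : ℤ} (h0 : 0 ≤ Y) (h1 : Y < D.HR) (h2 : 0 ≤ Z) (h3 : Z < D.HR)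
    (h4 : D.HR - 2 ≤ Y + Z) : D.AL Y + D.AL Z < 0 := by
  have hM := D.MZ
  have hn := D.n2Z
  have ht := D.thinZ
  have hNM := D.NM
  have hτ := D.τZ
  have key : ∀ W : ℤ, 0 ≤ W → W < D.HR → 2 * (D.n2 : ℤ) - 1 ≤ W →
      D.AL W ≤ -(D.N : ℤ) + D.τ + 2 * D.n2 - 1 := by
    intro W g0 g1 g2
    unfold HR at g1
    rw [D.AL_hi g2]
    have := D.hw_le (x := D.N - D.τ - 1 - W) (by omega)
    omega
  have b1 := D.AL_bounds h0 h1
  have b2 := D.AL_bounds h2 h3
  by_cases c1 : Y < 2 * (D.n2 : ℤ) - 1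
  · have : 2 * (D.n2 : ℤ) - 1 ≤ Z := by unfold HR at h4; omega
    have := key Z h2 h3 this
    omega
  · have := key Y h0 h1 (by omega)
    omega

lemma PL_eq {Y : ℤ} (h : D.AL Y = D.AL (Y + 1)) :
    D.PL Y = D.PL (Y + 1) := by
  have hM := D.MZ
  have hn := D.n2Z
  have hNZ := D.NZ
  have ht := D.thinZ
  rcases lt_trichotomy (Y + 1) (2 * (D.n2 : ℤ) - 1) with h2 | h2 | h2
  · exfalso
    rw [D.AL_lo h2, D.AL_lo (by omega)] at h
    have := Int.eq_of_mul_eq_mul_left hM.ne' h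
    omega
  · exfalso
    rw [D.AL_tip (Y := Y + 1) (by omega) (by omega), D.AL_lo (by omega)] at h
    have e1 : (D.M : ℤ) * (D.n2 - 1 - Y) = D.M - D.n2 * D.M := by
      have : Y = 2 * D.n2 - 2 := by omega
      rw [this]; ring
    rw [e1] at h
    omega
  · rw [D.AL_hi (by omega), D.AL_hi (by omega)] at h
    unfold PL
    rw [if_neg (by omega), if_neg (by omega)]
    have h3 : D.K (D.N - D.τ - 1 - Y) = D.K (D.N - D.τ - 1 - (Y + 1)) := by
      unfold hw at h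
      omega
    rw [h3]

/-- **The coarse window of the room**, `s` = colours of the plates. -/
def cw (s : ℕ × ℤ → Bool) : CW where
  H := D.HR
  A := D.AL
  B := D.AR
  YP := D.M - D.τ
  YQ := D.HR - (D.M - D.τ)
  CL Y := s (D.PL Y)
  CR Y := s (D.PR Y)
  CB := s (0, D.n2 - 1)
  CT := s (2, D.n2 - 1)
  H0 := by
    have := D.thinZ; have := D.NM; have := D.n2Z; have := D.MZ
    unfold HR; omega
  P0 := by have := D.thinZ; have := D.n2Z; omega
  P1 := by
    have := D.thinZ; have := D.NM; have := D.n2Z; have := D.MZ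
    unfold HR; omega
  Q0 := by
    have := D.thinZ; have := D.NM; have := D.n2Z; have := D.MZ
    unfold HR; omega
  Q1 := by have := D.thinZ; have := D.n2Z; omega
  aL Y _ h1 := D.AL_anti h1
  aP _ := D.AL_drop
  aU Y h0 _ := D.AL_mono h0
  bL Y h0 h1 := by
    unfold AR
    have e1 : D.HR - 1 - Y = D.HR - 1 - (Y + 1) + 1 := by ring
    rw [e1]
    have := D.AL_mono' (Y := D.HR - 1 - (Y + 1)) (by omega)
    omega
  bQ _ := by
    unfold AR
    have e1 : D.HR - 1 - (D.HR - (D.M - D.τ) - 1) = D.M - D.τ := by ring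
    have e2 : D.HR - 1 - (D.HR - (D.M - D.τ)) = D.M - D.τ - 1 := by ring
    rw [e1, e2]
    have := D.AL_drop
    omega
  bU Y h0 h1 := by
    unfold AR
    have e1 : D.HR - 1 - Y = D.HR - 1 - (Y + 1) + 1 := by ring
    rw [e1]
    have := D.AL_anti (Y := D.HR - 1 - (Y + 1)) (by omega)
    omega
  ab Y h0 h1 := by
    unfold AR
    have := D.AL_sum h0 h1 (Z := D.HR - 1 - Y) (by omega) (by omega) (by omega)
    omega
  ov1 Y h0 h1 := by
    unfold AR
    have := D.AL_sum h0 (by omega) (Z := D.HR - 1 - (Y + 1)) (by omega) (by omega) (by omega)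
    omega
  ov2 Y h0 h1 := by
    unfold AR
    have := D.AL_sum (Y := Y + 1) (by omega) h1 (Z := D.HR - 1 - Y) (by omega) (by omega) (by omega)
    omega
  cl Y _ _ h := by rw [D.PL_eq h]
  cr Y h0 h1 h := by
    unfold PR
    unfold AR at h
    have e1 : D.HR - 1 - Y = D.HR - 1 - (Y + 1) + 1 := by ring
    rw [e1] at h ⊢
    have h2 := D.PL_eq (Y := D.HR - 1 - (Y + 1)) (by omega)
    rw [h2]

/-! ### The cells of the room -/

/-- membership in a side, inside the square -/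
lemma onA_sq {c : Cell} (h1 : -(D.N : ℤ) ≤ c.1) (h2 : c.1 < D.N) (h3 : -(D.N : ℤ) ≤ c.2) :
    D.onA c ↔ -(D.N : ℤ) + D.τ ≤ c.1 ∧ c.2 + D.N < D.hw (D.K c.1) := by
  have := D.hw_ge h2
  have hτ := D.τZ
  unfold onA
  constructor
  · rintro ⟨-, ⟨-, h5⟩, h6⟩
    refine ⟨?_, h5⟩
    by_contra h7
    exact h6 ⟨by omega, h3⟩
  · rintro ⟨h4, h5⟩
    exact ⟨⟨h1, h2⟩, ⟨by omega, h5⟩, fun h6 => by omega⟩

/-- the two sides on the left of a row -/
lemma left_iff {c : Cell} (h1 : -(D.N : ℤ) ≤ c.1) (h2 : c.1 < D.N)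
    (h3 : -(D.N : ℤ) + D.τ ≤ c.2) (h4 : c.2 < D.N - D.τ) :
    (¬ D.onA c ∧ ¬ D.onA (-1 - c.2, c.1)) ↔ D.AL (c.2 + D.N - D.τ) ≤ c.1 := by
  have hM := D.MZ
  have hn := D.n2Z
  have hNZ := D.NZ
  have ht := D.thinZ
  have hτ := D.τZ
  have hNM := D.NM
  rw [D.onA_sq h1 h2 (by omega), D.onA_sq (c := (-1 - c.2, c.1)) (by simp only; omega)
    (by simp only; omega) h1]
  simp only
  have a1 := D.hw_le h1
  have e0 : (D.N : ℤ) - D.τ - 1 - (c.2 + D.N - D.τ) = -1 - c.2 := by ring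
  by_cases hY : c.2 + D.N - D.τ < 2 * (D.n2 : ℤ) - 1
  · rw [D.AL_lo hY, D.hw_t (x := -1 - c.2) (by omega) (by omega)]
    have hk : D.K c.1 ≥ D.n2 - 1 - (c.2 + D.N - D.τ) ↔
        (D.n2 - 1 - (c.2 + D.N - D.τ)) * D.M ≤ c.1 := D.K_ge
    have hb : (1 - (D.n2 : ℤ)) * D.M ≤ (D.n2 - 1 - (c.2 + D.N - D.τ)) * D.M :=
      mul_le_mul_of_nonneg_right (by omega) hM.le
    have e1 : (1 - (D.n2 : ℤ)) * D.M = D.M - D.n2 * D.M := by ring
    rw [e1] at hb
    rw [mul_comm (D.M : ℤ), ← hk]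
    unfold hw
    constructor
    · rintro ⟨g1, g2⟩
      by_contra g3
      apply g1
      constructor <;> omega
    · intro g
      have g' := hk.1 g
      constructor
      · rintro ⟨g1, g2⟩
        omega
      · rintro ⟨g1, g2⟩
        omega
  · rw [D.AL_hi (by omega), e0]
    constructor
    · rintro ⟨g1, g2⟩
      omega
    · intro g
      constructor
      · rintro ⟨g1, g2⟩; omega
      · rintro ⟨g1, g2⟩; omega

/-- **The cells of the room.** -/
theorem room_iff {c : Cell} (h1 : -(D.N : ℤ) ≤ c.1) (h2 : c.1 < D.N) (h3 : -(D.N : ℤ) ≤ c.2)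
    (h4 : c.2 < D.N) : D.rg c = none ↔
      (0 ≤ c.2 + D.N - D.τ ∧ c.2 + D.N - D.τ < D.HR) ∧
        D.AL (c.2 + D.N - D.τ) ≤ c.1 ∧ c.1 < D.AR (c.2 + D.N - D.τ) := by
  have hM := D.MZ
  have hn := D.n2Z
  have ht := D.thinZ
  have hτ := D.τZ
  have hNM := D.NM
  have r1 : rc'^[1] c = (c.2, -1 - c.1) := rfl
  have r2 : rc'^[2] c = (-1 - c.1, -1 - c.2) := rfl
  have r3 : rc'^[3] c = (-1 - c.2, c.1) := by
    show (-1 - c.2, -1 - (-1 - c.1)) = _
    rw [show (-1 : ℤ) - (-1 - c.1) = c.1 by ring]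
  have hall : D.rg c = none ↔ (¬ D.onA c ∧ ¬ D.onA (-1 - c.2, c.1)) ∧
      (¬ D.onA (-1 - c.1, -1 - c.2) ∧ ¬ D.onA (c.2, -1 - c.1)) := by
    rw [rg_none]
    constructor
    · intro h
      have g0 := h 0 (by norm_num)
      have g1 := h 1 (by norm_num)
      have g2 := h 2 (by norm_num)
      have g3 := h 3 (by norm_num)
      rw [r1] at g1
      rw [r2] at g2
      rw [r3] at g3
      exact ⟨⟨g0, g3⟩, g2, g1⟩
    · rintro ⟨⟨g0, g3⟩, g2, g1⟩ k hk
      rcases (show k = 0 ∨ k = 1 ∨ k = 2 ∨ k = 3 by omega) with rfl | rfl | rfl | rfl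
      · exact g0
      · rw [r1]; exact g1
      · rw [r2]; exact g2
      · rw [r3]; exact g3
  rw [hall]
  -- the rows
  have rows : ((¬ D.onA c ∧ ¬ D.onA (-1 - c.2, c.1)) ∧
      (¬ D.onA (-1 - c.1, -1 - c.2) ∧ ¬ D.onA (c.2, -1 - c.1))) →
      -(D.N : ℤ) + D.τ ≤ c.2 ∧ c.2 < D.N - D.τ := by
    rintro ⟨⟨g0, g3⟩, g2, g1⟩
    constructor
    · by_contra hlow
      have q0 := D.hw_ge h2
      by_cases hx : c.1 < -(D.N : ℤ) + D.τ
      · apply g3
        rw [D.onA_sq (c := (-1 - c.2, c.1)) (by simp only; omega) (by simp only; omega) h1]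
        simp only
        have := D.hw_ge (x := -1 - c.2) (by omega)
        constructor <;> omega
      · apply g0
        rw [D.onA_sq h1 h2 h3]
        constructor <;> omega
    · by_contra hhigh
      by_cases hx : -1 - c.1 < -(D.N : ℤ) + D.τ
      · apply g1
        rw [D.onA_sq (c := (c.2, -1 - c.1)) (by simp only; omega) (by simp only; omega)
          (by simp only; omega)]
        simp only
        have := D.hw_ge (x := c.2) h4
        constructor <;> omega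
      · apply g2
        rw [D.onA_sq (c := (-1 - c.1, -1 - c.2)) (by simp only; omega) (by simp only; omega)
          (by simp only; omega)]
        simp only
        have := D.hw_ge (x := -1 - c.1) (by omega)
        constructor <;> omega
  have hHR : c.2 + D.N - D.τ < D.HR ↔ c.2 < D.N - D.τ := by unfold HR; omega
  by_cases hr : -(D.N : ℤ) + D.τ ≤ c.2 ∧ c.2 < D.N - D.τ
  · have hL := D.left_iff h1 h2 hr.1 hr.2
    have hR := D.left_iff (c := (-1 - c.1, -1 - c.2)) (by simp only; omega) (by simp only; omega)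
      (by simp only; omega) (by simp only; omega)
    simp only at hR
    rw [show (-1 : ℤ) - (-1 - c.2) = c.2 by ring] at hR
    rw [hL, hR]
    have e1 : -1 - c.2 + D.N - D.τ = D.HR - 1 - (c.2 + D.N - D.τ) := by unfold HR; ring
    rw [e1]
    unfold AR
    constructor
    · rintro ⟨g1, g2⟩
      exact ⟨⟨by omega, hHR.2 hr.2⟩, g1, by omega⟩
    · rintro ⟨-, g1, g2⟩
      exact ⟨g1, by omega⟩
  · constructor
    · intro h
      exact absurd (rows h) hr
    · rintro ⟨⟨g1, g2⟩, -⟩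
      exact absurd ⟨by omega, hHR.1 g2⟩ hr

end RG

end Pool.Agent.H65.G
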