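import Mathlib
import Pool.Agent.H65.G.Room

set_option autoImplicit false
open Finset

/-!
# The plates next to the room (Route W, W-G)

`rg_flip` : half turn of the ring. `rg_L`, `rg_R` : the cells outside of the row `Y` of the room next to
its ends, and the pieces of floors and ceilings between two rows, lie in the plates `PL Y`, `PR Y`.
`rg_B`, `rg_T` : below the lowest and above the highest row.
`nos` : no level with two reflex corners of the same kind.
-/

namespace Pool.Agent.H65.G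

open Pool.Agent.Q1.M4 (Cell)
open Pool.Agent.H5.FM

namespace RG

variable (D : RG)

lemma rc2 (c : Cell) : rc^[2] c = (-1 - c.1, -1 - c.2) := rfl

lemma rc3 (c : Cell) : rc^[3] c = (c.2, -1 - c.1) := by
  show (-1 - (-1 - c.2), -1 - c.1) = _
  rw [show (-1 : ℤ) - (-1 - c.2) = c.2 by ring]

lemma rc_four (c : Cell) : rc^[4] c = c := rc4 c

/-- **Half turn of the ring.** -/
theorem rg_flip (c : Cell) : D.rg (-1 - c.1, -1 - c.2) = (D.rg c).map flip := by
  have key : ∀ (c : Cell) (q : ℕ × ℤ), D.rg c = some q →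
      D.rg (-1 - c.1, -1 - c.2) = some (flip q) := by
    intro c q h
    obtain ⟨h1, h2, h3⟩ := D.rg_some h
    set a := rc'^[q.1] c with ha
    have hc : rc^[q.1] a = c := rc'_iter q.1 c
    have e1 : (((-1 - c.1, -1 - c.2) : ℤ × ℤ) : Cell) = rc^[2 + q.1] a := by
      rw [Function.iterate_add_apply, hc]; rfl
    rw [e1]
    unfold flip
    rcases (show q.1 = 0 ∨ q.1 = 1 ∨ q.1 = 2 ∨ q.1 = 3 by omega) with g | g | g | g
    · rw [g, D.rg_eq (k := 2 + 0) (by norm_num) h2, h3]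
    · rw [g, D.rg_eq (k := 2 + 1) (by norm_num) h2, h3]
    · rw [g]
      have e2 : rc^[2 + 2] a = rc^[0] a := rc_four a
      rw [e2, D.rg_eq (k := 0) (by norm_num) h2, h3]
    · rw [g]
      have e2 : rc^[2 + 3] a = rc^[1] a := by
        show rc^[4 + 1] a = _
        rw [Function.iterate_add_apply, rc_four]
      rw [e2, D.rg_eq (k := 1) (by norm_num) h2, h3]
  rcases h : D.rg c with _ | q
  · rcases h' : D.rg (-1 - c.1, -1 - c.2) with _ | q'
    · rfl
    · have := key _ _ h'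
      simp only at this
      rw [show (-1 : ℤ) - (-1 - c.1) = c.1 by ring, show (-1 : ℤ) - (-1 - c.2) = c.2 by ring,
        show ((c.1, c.2) : Cell) = c from rfl, h] at this
      cases this
  · rw [key _ _ h]; rfl

/-- plates of the bottom side -/
lemma rg_0 {c : Cell} (h : D.onA c) : D.rg c = some (0, D.K c.1) := by
  have := D.rg_eq (k := 0) (by norm_num) h
  rwa [Function.iterate_zero_apply] at this

/-- plates of the left side -/
lemma rg_3 {x y : ℤ} (h : D.onA (-1 - y, x)) : D.rg (x, y) = some (3, D.K (-1 - y)) := by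
  have h1 := D.rg_eq (k := 3) (by norm_num) h
  rw [rc3] at h1
  simp only at h1
  rwa [show (-1 : ℤ) - (-1 - y) = y by ring] at h1

/-- **The plates on the left of a row.** -/
theorem rg_L {Y X : ℤ} (h0 : 0 ≤ Y) (h1 : Y < D.HR) (h2 : X < D.AL Y)
    (h3 : X = D.AL Y - 1 ∨ (Y + 1 < D.HR ∧ D.AL (Y + 1) ≤ X) ∨ (1 ≤ Y ∧ D.AL (Y - 1) ≤ X)) :
    D.rg (X, Y - D.N + D.τ) = some (D.PL Y) := by
  have hM := D.MZ
  have hn := D.n2Z
  have hNZ := D.NZ
  have ht := D.thinZ
  have hτ := D.τZ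
  have hNM := D.NM
  have hHR : D.HR = 2 * D.N - 2 * D.τ := rfl
  by_cases hY : Y < 2 * (D.n2 : ℤ) - 1
  · -- bottom side
    rw [D.AL_lo hY] at h2 h3
    have e1 : (D.M : ℤ) * (D.n2 - 1 - Y) = D.M * (D.n2 - 2 - Y) + D.M := by ring
    have lb : (D.M : ℤ) * (D.n2 - 2 - Y) ≤ X ∧ -(D.N : ℤ) + D.τ ≤ X := by
      have b1 : (D.M : ℤ) * (-D.n2) ≤ D.M * (D.n2 - 2 - Y) := mul_le_mul_of_nonneg_left (by omega) hM.le
      have e2 : (D.M : ℤ) * (-D.n2) = -(D.n2 * D.M) := by ring
      rw [e2] at b1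
      rcases h3 with h3 | ⟨h3, h4⟩ | ⟨h3, h4⟩
      · rw [h3, e1]
        constructor <;> omega
      · by_cases hY1 : Y + 1 < 2 * (D.n2 : ℤ) - 1
        · rw [D.AL_lo hY1] at h4
          have e3 : (D.n2 : ℤ) - 1 - (Y + 1) = D.n2 - 2 - Y := by ring
          rw [e3] at h4
          have b2 : (D.M : ℤ) * (1 - D.n2) ≤ D.M * (D.n2 - 2 - Y) :=
            mul_le_mul_of_nonneg_left (by omega) hM.le
          have e4 : (D.M : ℤ) * (1 - D.n2) = D.M - D.n2 * D.M := by ring
          rw [e4] at b2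
          constructor <;> omega
        · rw [D.AL_tip (by omega) (by omega)] at h4
          have e3 : (D.n2 : ℤ) - 2 - Y = -D.n2 := by omega
          rw [e3, e2]
          constructor <;> omega
      · exfalso
        rw [D.AL_lo (by omega)] at h4
        have : (D.M : ℤ) * (D.n2 - 1 - Y) < D.M * (D.n2 - 1 - (Y - 1)) :=
          mul_lt_mul_of_pos_left (by omega) hM
        omega
    have ub : X < D.N := by
      have : (D.M : ℤ) * (D.n2 - 1 - Y) ≤ D.M * (D.n2 - 1) := mul_le_mul_of_nonneg_left (by omega) hM.le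
      have e2 : (D.M : ℤ) * (D.n2 - 1) = D.n2 * D.M - D.M := by ring
      rw [e2] at this
      omega
    have hK : D.K X = D.n2 - 2 - Y := by
      unfold K
      rw [Pool.Agent.H50.W.dv hM]
      rw [e1] at h2
      exact ⟨lb.1, h2⟩
    have hon : D.onA (X, Y - D.N + D.τ) := by
      rw [D.onA_sq (by simp only; omega) (by simp only; omega) (by simp only; omega)]
      simp only
      rw [hK]
      unfold hw
      constructor <;> omega
    rw [D.rg_0 hon]
    unfold PL
    rw [if_pos hY]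
    simp only [hK]
  · -- left side
    have lb : -(D.N : ℤ) ≤ X := by
      rcases h3 with h3 | ⟨h3, h4⟩ | ⟨h3, h4⟩
      · have := (D.AL_bounds h0 h1).1
        omega
      · have := (D.AL_bounds (Y := Y + 1) (by omega) h3).1
        omega
      · have := (D.AL_bounds (Y := Y - 1) (by omega) (by omega)).1
        omega
    rw [D.AL_hi (by omega)] at h2
    have e1 : (-1 : ℤ) - (Y - D.N + D.τ) = D.N - D.τ - 1 - Y := by ring
    have hon : D.onA (-1 - (Y - D.N + D.τ), X) := by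
      rw [e1, D.onA_sq (by simp only; omega) (by simp only; omega) lb]
      simp only
      constructor <;> omega
    rw [D.rg_3 hon, e1]
    unfold PL
    rw [if_neg hY]

/-- **The plates on the right of a row.** -/
theorem rg_R {Y X : ℤ} (h0 : 0 ≤ Y) (h1 : Y < D.HR) (h2 : D.AR Y ≤ X)
    (h3 : X = D.AR Y ∨ (Y + 1 < D.HR ∧ X < D.AR (Y + 1)) ∨ (1 ≤ Y ∧ X < D.AR (Y - 1))) :
    D.rg (X, Y - D.N + D.τ) = some (D.PR Y) := by
  have hHR : D.HR = 2 * D.N - 2 * D.τ := rfl
  unfold AR at h2 h3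
  have key := D.rg_L (Y := D.HR - 1 - Y) (X := -1 - X) (by omega) (by omega) (by omega) (by
    rcases h3 with h3 | ⟨h3, h4⟩ | ⟨h3, h4⟩
    · left; omega
    · right; right
      refine ⟨by omega, ?_⟩
      rw [show D.HR - 1 - Y - 1 = D.HR - 1 - (Y + 1) by ring]
      omega
    · right; left
      refine ⟨by omega, ?_⟩
      rw [show D.HR - 1 - Y + 1 = D.HR - 1 - (Y - 1) by ring]
      omega)
  have h4 := D.rg_flip (-1 - X, D.HR - 1 - Y - D.N + D.τ)
  simp only at h4
  rw [key] at h4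
  have e1 : (-1 : ℤ) - (-1 - X) = X := by ring
  have e2 : (-1 : ℤ) - (D.HR - 1 - Y - D.N + D.τ) = Y - D.N + D.τ := by rw [hHR]; ring
  rw [e1, e2] at h4
  rw [h4]
  rfl

/-- below the lowest row -/
theorem rg_B {X : ℤ} (h1 : D.AL 0 ≤ X) (h2 : X < D.AR 0) :
    D.rg (X, -1 - D.N + D.τ) = some (0, (D.n2 : ℤ) - 1) := by
  have hM := D.MZ
  have hn := D.n2Z
  have hNZ := D.NZ
  have ht := D.thinZ
  have hτ := D.τZ
  have hNM := D.NM
  have hHR : D.HR = 2 * D.N - 2 * D.τ := rfl
  have hb := (D.AL_bounds (Y := D.HR - 1 - 0) (by omega) (by omega)).1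
  unfold AR at h2
  rw [D.AL_lo (by omega)] at h1
  have e1 : (D.M : ℤ) * (D.n2 - 1 - 0) = D.n2 * D.M - D.M := by ring
  rw [e1] at h1
  have hK : D.K X = D.n2 - 1 := by
    unfold K
    rw [Pool.Agent.H50.W.dv hM]
    have e2 : (D.M : ℤ) * (D.n2 - 1) = D.n2 * D.M - D.M := by ring
    rw [e2]
    omega
  have hon : D.onA (X, -1 - D.N + D.τ) := by
    rw [D.onA_sq (by simp only; omega) (by simp only; omega) (by simp only; omega)]
    simp only
    rw [hK]
    unfold hw
    constructor <;> omega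
  rw [D.rg_0 hon]
  simp only [hK]

/-- above the highest row -/
theorem rg_T {X : ℤ} (h1 : D.AL (D.HR - 1) ≤ X) (h2 : X < D.AR (D.HR - 1)) :
    D.rg (X, D.N - D.τ) = some (2, (D.n2 : ℤ) - 1) := by
  have hHR : D.HR = 2 * D.N - 2 * D.τ := rfl
  unfold AR at h2
  rw [show D.HR - 1 - (D.HR - 1) = 0 by ring] at h2
  have key := D.rg_B (X := -1 - X) (by omega) (by
    unfold AR
    rw [show D.HR - 1 - 0 = D.HR - 1 by ring]
    omega)
  have h4 := D.rg_flip (-1 - X, -1 - D.N + D.τ)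
  simp only at h4
  rw [key] at h4
  have e1 : (-1 : ℤ) - (-1 - X) = X := by ring
  have e2 : (-1 : ℤ) - (-1 - D.N + D.τ) = D.N - D.τ := by ring
  rw [e1, e2] at h4
  rw [h4]
  rfl

/-- no level with two reflex corners of the same kind (59's `NoS`) -/
theorem nos : ∀ Y, 0 ≤ Y → Y + 1 < D.HR →
    ¬ (D.AL (Y + 1) < D.AL Y ∧ D.AR Y < D.AR (Y + 1)) ∧
      ¬ (D.AL Y < D.AL (Y + 1) ∧ D.AR (Y + 1) < D.AR Y) := by
  have ht := D.thinZ
  have hn := D.n2Z
  have hNM := D.NM
  have hM := D.MZ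
  have hHR : D.HR = 2 * D.N - 2 * D.τ := rfl
  -- drops of the left end
  have drop : ∀ Y, 0 ≤ Y → Y + 1 < D.HR → D.AL (Y + 1) < D.AL Y → Y < 2 * (D.n2 : ℤ) - 1 := by
    intro Y h0 h1 h
    by_contra h2
    rw [D.AL_hi (by omega), D.AL_hi (by omega)] at h
    have := D.hw_anti (x := D.N - D.τ - 1 - (Y + 1)) (x' := D.N - D.τ - 1 - Y) (by omega)
    omega
  have rise : ∀ Y, 0 ≤ Y → Y + 1 < D.HR → D.AL Y < D.AL (Y + 1) → D.M - D.τ - 1 ≤ Y := by
    intro Y h0 h1 h
    by_contra h2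
    have := D.AL_anti (Y := Y) (by omega)
    omega
  intro Y h0 h1
  unfold AR
  have e1 : D.HR - 1 - Y = D.HR - 1 - (Y + 1) + 1 := by ring
  rw [e1]
  constructor
  · rintro ⟨g1, g2⟩
    have a1 := drop Y h0 h1 g1
    have a2 := rise (D.HR - 1 - (Y + 1)) (by omega) (by omega) (by omega)
    have a3 := drop (D.HR - 1 - (Y + 1)) (by omega) (by omega)
    -- the rise of the left end at the opposite level
    have hY : Y < 2 * (D.n2 : ℤ) - 1 := a1
    rw [D.AL_hi (Y := D.HR - 1 - (Y + 1) + 1) (by omega),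
      D.AL_hi (Y := D.HR - 1 - (Y + 1)) (by omega)] at g2
    have k1 : D.K (D.N - D.τ - 1 - (D.HR - 1 - (Y + 1) + 1)) = -D.n2 := by
      unfold K
      rw [Pool.Agent.H50.W.dv hM]
      have e2 : (D.M : ℤ) * (-D.n2) = -D.N := by rw [D.NZ]; ring
      rw [e2]
      omega
    have k2 : D.K (D.N - D.τ - 1 - (D.HR - 1 - (Y + 1))) = -D.n2 := by
      unfold K
      rw [Pool.Agent.H50.W.dv hM]
      have e2 : (D.M : ℤ) * (-D.n2) = -D.N := by rw [D.NZ]; ring
      rw [e2]
      omega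
    rw [k1, k2] at g2
    omega
  · rintro ⟨g1, g2⟩
    have a1 := rise Y h0 h1 g1
    have a2 := drop (D.HR - 1 - (Y + 1)) (by omega) (by omega) (by omega)
    rw [D.AL_hi (Y := Y + 1) (by omega), D.AL_hi (Y := Y) (by omega)] at g1
    have k1 : D.K (D.N - D.τ - 1 - (Y + 1)) = -D.n2 := by
      unfold K
      rw [Pool.Agent.H50.W.dv hM]
      have e2 : (D.M : ℤ) * (-D.n2) = -D.N := by rw [D.NZ]; ring
      rw [e2]
      omega
    have k2 : D.K (D.N - D.τ - 1 - Y) = -D.n2 := by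
      unfold K
      rw [Pool.Agent.H50.W.dv hM]
      have e2 : (D.M : ℤ) * (-D.n2) = -D.N := by rw [D.NZ]; ring
      rw [e2]
      omega
    rw [k1, k2] at g1
    omega

end RG

end Pool.Agent.H65.G
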