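import Mathlib
import Pool.Agent.H65.G.RoomC
import Pool.Agent.H74.Win.Ring

set_option autoImplicit false
open Finset

/-!
# The room and its walls at the level of tiles (Route W, W-G)

`WT`: window `(D.cw s).win n`, `n` even. Tile `(x, y)` of the window = tile `(x, y - n (N - τ))` of the
ring, its cell is `(x / n, y / n - N + τ)`.
* `zone_iff` : the random tiles `InP _ false` are the tiles of the cells of the room and the notches;
* `wall_colour` : a tile next to the zone (common side) lies in a plate with the colour `natc _ false`.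
* `diag_colour` : diagonal tiles at convex corners.
-/

namespace Pool.Agent.H65.G

open Pool.Agent.Q1.M4 (Cell)
open Pool.Agent.H5.FM
open Pool.Agent.H46.Sp (Win mm MM)
open Pool.Agent.H74.Win (InP natc sh)

namespace RG

variable (D : RG) (s : ℕ × ℤ → Bool)

lemma div_eq' {n x X : ℤ} (hn : 0 < n) (h1 : n * X ≤ x) (h2 : x < n * X + n) : x / n = X :=
  (Pool.Agent.H50.W.dv hn).2 ⟨h1, h2⟩

/-- a notch on the left of the row `y` -/
def NL (n x y : ℤ) : Prop := (D.cw s).dA n (y / n) (y % n) = 1 ∧ x = n * D.AL (y / n) - 1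

/-- a notch on the right of the row `y` -/
def NR (n x y : ℤ) : Prop := (D.cw s).dB n (y / n) (y % n) = 1 ∧ x = n * D.AR (y / n)

/-- **The random tiles** -/
theorem zone_iff {n : ℤ} (h2 : 2 ≤ n) (he : n % 2 = 0) {x y : ℤ} :
    InP ((D.cw s).win n h2 he) false x y ↔
      (0 ≤ y ∧ y < n * D.HR) ∧ ((D.AL (y / n) ≤ x / n ∧ x / n < D.AR (y / n)) ∨ D.NL s n x y ∨
        D.NR s n x y) := by
  have hn : (0 : ℤ) < n := by omega
  have e1 : InP ((D.cw s).win n h2 he) false x y ↔
      0 ≤ y ∧ y < n * D.HR ∧ (D.cw s).wa n y ≤ x ∧ x < (D.cw s).wb n y := by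
    unfold InP
    rw [Pool.Agent.H74.Win.sh_false, add_zero]
    exact Iff.rfl
  rw [e1]
  have hdiv : ∀ X : ℤ, X ≤ x / n ↔ n * X ≤ x := fun X => by
    rw [Int.le_ediv_iff_mul_le hn, mul_comm]
  have hdiv' : ∀ X : ℤ, x / n < X ↔ x < n * X := fun X => by
    rw [Int.ediv_lt_iff_lt_mul hn, mul_comm]
  have hA : (D.cw s).wa n y = n * D.AL (y / n) - (D.cw s).dA n (y / n) (y % n) := rfl
  have hB : (D.cw s).wb n y = n * D.AR (y / n) + (D.cw s).dB n (y / n) (y % n) := rfl
  have a1 := CW.dA_01 (C := D.cw s) (N := n) (q := y / n) (r := y % n)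
  have b1 := CW.dB_01 (C := D.cw s) (N := n) (q := y / n) (r := y % n)
  rw [hA, hB, hdiv, hdiv']
  unfold NL NR
  constructor
  · rintro ⟨g1, g2, g3, g4⟩
    refine ⟨⟨g1, g2⟩, ?_⟩
    by_cases c1 : n * D.AL (y / n) ≤ x
    · by_cases c2 : x < n * D.AR (y / n)
      · exact Or.inl ⟨c1, c2⟩
      · right; right
        constructor <;> omega
    · right; left
      constructor <;> omega
  · rintro ⟨⟨g1, g2⟩, h⟩
    have hy : 0 ≤ y / n ∧ y / n < D.HR := by
      constructor
      · exact Int.ediv_nonneg g1 hn.le
      · rw [Int.ediv_lt_iff_lt_mul hn, mul_comm]; exact g2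
    have hab : n * D.AL (y / n) + n ≤ n * D.AR (y / n) :=
      Pool.Agent.H5.FM.mul_gap hn ((D.cw s).ab _ hy.1 hy.2)
    refine ⟨g1, g2, ?_⟩
    rcases h with h | ⟨h3, h4⟩ | ⟨h3, h4⟩
    · constructor <;> omega
    · constructor <;> omega
    · constructor <;> omega

section colours

variable {n : ℤ} (h2 : 2 ≤ n) (he : n % 2 = 0) {x y : ℤ}

/-- colour of the tile on the left of a row -/
lemma natc_left (h0 : 0 ≤ y) (h1 : y < n * D.HR) (hx : x = (D.cw s).wa n y - 1) :
    natc ((D.cw s).win n h2 he) false x y = s (D.PL (y / n)) := by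
  have hn : (0 : ℤ) < n := by omega
  set C := D.cw s with hC
  have hab := CW.wab (C := C) h2 h0 h1
  have hM := (C.win n h2 he)
  have hMy : C.wb n y ≤ (C.win n h2 he).M y :=
    Pool.Agent.H46.Sp.Win.b_le_M (D := C.win n h2 he) h0
  have hCL : s (D.PL (y / n)) = C.CL (y / n) := rfl
  rw [hCL]
  unfold natc
  have hh : (C.win n h2 he).h = n * D.HR := rfl
  rw [if_neg (by omega), if_neg (by rw [hh]; omega)]
  by_cases h3 : y + 1 < n * C.YP
  · have hm : (C.win n h2 he).m y = C.wa n (y + 1) := by
      show mm (C.wa n) (n * C.YP) y = _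
      unfold mm; rw [if_pos h3]
    rw [hm]
    by_cases h4 : x < C.wa n (y + 1)
    · rw [if_pos h4]
      have h5 := CW.wa_L (C := C) h2 h0 h3
      have h6 : C.wa n y = C.wa n (y + 1) := by omega
      show C.wcl n y = _
      rw [CW.wcl_lo h3]
      exact ((CW.step_lo (C := C) h2 h0 h3 he).1 h6).symm
    · rw [if_neg h4, if_neg (by omega), if_neg (by simp), if_neg (by omega), if_pos]
      · show C.wcl n (y - 1) = _
        rw [CW.wcl_lo (by omega), sub_add_cancel]
      · show x < C.wa n y
        omega
  · have hm : (C.win n h2 he).m y = C.wa n y := by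
      show mm (C.wa n) (n * C.YP) y = _
      unfold mm; rw [if_neg h3]
    rw [hm, if_pos (by omega)]
    show C.wcl n y = _
    rw [CW.wcl_hi h3]

/-- colour of the tile on the right of a row -/
lemma natc_right (h0 : 0 ≤ y) (h1 : y < n * D.HR) (hx : x = (D.cw s).wb n y) :
    natc ((D.cw s).win n h2 he) false x y = s (D.PR (y / n)) := by
  have hn : (0 : ℤ) < n := by omega
  set C := D.cw s with hC
  have hab := CW.wab (C := C) h2 h0 h1
  have hmy : (C.win n h2 he).m y ≤ C.wa n y :=
    Pool.Agent.H46.Sp.Win.m_le_a (D := C.win n h2 he) h0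
  have hCR : s (D.PR (y / n)) = C.CR (y / n) := rfl
  rw [hCR]
  unfold natc
  have hh : (C.win n h2 he).h = n * D.HR := rfl
  rw [if_neg (by omega), if_neg (by rw [hh]; omega), if_neg (by omega)]
  have hQ1 := C.Q1
  have hQH : n * C.YQ < n * C.H := mul_lt_mul_of_pos_left hQ1 hn
  have hH : C.H = D.HR := rfl
  rw [hH] at hQH
  by_cases h3 : y < n * C.YQ
  · have hm : (C.win n h2 he).M y = C.wb n (y + 1) := by
      show MM (C.wb n) (n * C.YQ) y = _
      unfold MM; rw [if_pos h3]
    have h5 := CW.stepR_lo (C := C) h2 h0 (by omega) he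
    rw [hm]
    by_cases h4 : C.wb n (y + 1) ≤ x
    · rw [if_pos h4]
      have h6 : C.wb n y = C.wb n (y + 1) := by have := h5.1; omega
      show C.wcr n y = _
      rw [CW.wcr_lo h3]
      exact (h5.2.1 h6).symm
    · rw [if_neg h4, if_neg (by simp), if_neg (by omega), if_neg]
      · show C.wcr n (y - 1) = _
        rw [CW.wcr_lo (by omega), sub_add_cancel]
      · show ¬ x < C.wa n y
        omega
  · have hm : (C.win n h2 he).M y = C.wb n y := by
      show MM (C.wb n) (n * C.YQ) y = _
      unfold MM; rw [if_neg h3]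
    rw [hm, if_pos (by omega)]
    show C.wcr n y = _
    rw [CW.wcr_hi h3]

/-- colour of a tile below a row, left floor -/
lemma natc_floorL (h0 : 0 ≤ y) (h1 : y + 1 < n * D.HR) (hx : (D.cw s).wa n (y + 1) ≤ x)
    (hx' : x < (D.cw s).wa n y) : natc ((D.cw s).win n h2 he) false x y = s (D.PL (y / n)) := by
  have hn : (0 : ℤ) < n := by omega
  set C := D.cw s with hC
  have hab := CW.wab (C := C) h2 h0 (by show y < n * D.HR; omega)
  have hMy : C.wb n y ≤ (C.win n h2 he).M y :=
    Pool.Agent.H46.Sp.Win.b_le_M (D := C.win n h2 he) h0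
  have hCL : s (D.PL (y / n)) = C.CL (y / n) := rfl
  rw [hCL]
  -- the left end drops
  have h3 : y + 1 < n * C.YP := by
    by_contra h3
    have := (CW.step_hi (C := C) h2 (y := y) (by omega) h1 he).1
    omega
  unfold natc
  have hh : (C.win n h2 he).h = n * D.HR := rfl
  rw [if_neg (by omega), if_neg (by rw [hh]; omega)]
  have hm : (C.win n h2 he).m y = C.wa n (y + 1) := by
    show mm (C.wa n) (n * C.YP) y = _
    unfold mm; rw [if_pos h3]
  rw [hm, if_neg (by omega), if_neg (by omega), if_neg (by simp), if_neg (by omega), if_pos]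
  · show C.wcl n (y - 1) = _
    rw [CW.wcl_lo (by omega), sub_add_cancel]
  · show x < C.wa n y
    omega

/-- colour of a tile below a row, right floor -/
lemma natc_floorR (h0 : 0 ≤ y) (h1 : y + 1 < n * D.HR) (hx : x < (D.cw s).wb n (y + 1))
    (hx' : (D.cw s).wb n y ≤ x) : natc ((D.cw s).win n h2 he) false x y = s (D.PR (y / n)) := by
  have hn : (0 : ℤ) < n := by omega
  set C := D.cw s with hC
  have hab := CW.wab (C := C) h2 h0 (by show y < n * D.HR; omega)
  have hmy : (C.win n h2 he).m y ≤ C.wa n y :=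
    Pool.Agent.H46.Sp.Win.m_le_a (D := C.win n h2 he) h0
  have hCR : s (D.PR (y / n)) = C.CR (y / n) := rfl
  rw [hCR]
  have h3 : y < n * C.YQ := by
    by_contra h3
    have := CW.wb_U (C := C) h2 (y := y) (by omega) h1
    omega
  unfold natc
  have hh : (C.win n h2 he).h = n * D.HR := rfl
  rw [if_neg (by omega), if_neg (by rw [hh]; omega), if_neg (by omega)]
  have hm : (C.win n h2 he).M y = C.wb n (y + 1) := by
    show MM (C.wb n) (n * C.YQ) y = _
    unfold MM; rw [if_pos h3]
  rw [hm, if_neg (by omega), if_neg (by simp), if_neg (by omega), if_neg]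
  · show C.wcr n (y - 1) = _
    rw [CW.wcr_lo (by omega), sub_add_cancel]
  · show ¬ x < C.wa n y
    omega

/-- colour of a tile below the lowest row -/
lemma natc_bot (hx : (D.cw s).wa n 0 ≤ x) (hx' : x < (D.cw s).wb n 0) :
    natc ((D.cw s).win n h2 he) false x (-1) = s (0, D.n2 - 1) := by
  have hn : (0 : ℤ) < n := by omega
  set C := D.cw s with hC
  unfold natc
  have hh : (C.win n h2 he).h = n * D.HR := rfl
  have hH : 0 < D.HR := C.H0
  have hpos : 0 < n * D.HR := mul_pos hn hH
  have hP : (1 : ℤ) ≤ C.YP := C.P0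
  have hPn : n * 1 ≤ n * C.YP := mul_le_mul_of_nonneg_left hP hn.le
  have hQn : 0 ≤ n * C.YQ := mul_nonneg hn.le C.Q0
  have hm : (C.win n h2 he).m (-1) = C.wa n 0 := by
    show mm (C.wa n) (n * C.YP) (-1) = _
    unfold mm; rw [if_pos (by omega)]; rfl
  have hM : (C.win n h2 he).M (-1) = C.wb n 0 := by
    show MM (C.wb n) (n * C.YQ) (-1) = _
    unfold MM; rw [if_pos (by omega)]; rfl
  rw [if_neg (by omega), if_neg (by rw [hh]; omega), hm, hM, if_neg (by omega), if_neg (by omega),
    if_neg (by simp), if_pos rfl]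
  rfl

/-- colour of a tile above a row, left ceiling -/
lemma natc_ceilL (h0 : 1 ≤ y) (h1 : y < n * D.HR) (hx : (D.cw s).wa n (y - 1) ≤ x)
    (hx' : x < (D.cw s).wa n y) : natc ((D.cw s).win n h2 he) false x y = s (D.PL (y / n)) := by
  have hn : (0 : ℤ) < n := by omega
  set C := D.cw s with hC
  have hCL : s (D.PL (y / n)) = C.CL (y / n) := rfl
  rw [hCL]
  have h3 : ¬ y + 1 < n * C.YP := by
    intro h3
    have := CW.wa_L (C := C) h2 (y := y - 1) (by omega) (by omega)
    rw [sub_add_cancel] at this
    omega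
  unfold natc
  have hh : (C.win n h2 he).h = n * D.HR := rfl
  rw [if_neg (by omega), if_neg (by rw [hh]; omega)]
  have hm : (C.win n h2 he).m y = C.wa n y := by
    show mm (C.wa n) (n * C.YP) y = _
    unfold mm; rw [if_neg h3]
  rw [hm, if_pos hx']
  show C.wcl n y = _
  rw [CW.wcl_hi h3]

/-- colour of a tile above a row, right ceiling -/
lemma natc_ceilR (h0 : 1 ≤ y) (h1 : y < n * D.HR) (hx : x < (D.cw s).wb n (y - 1))
    (hx' : (D.cw s).wb n y ≤ x) : natc ((D.cw s).win n h2 he) false x y = s (D.PR (y / n)) := by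
  have hn : (0 : ℤ) < n := by omega
  set C := D.cw s with hC
  have hab := CW.wab (C := C) h2 (y := y) (by omega) (by show y < n * D.HR; omega)
  have hmy : (C.win n h2 he).m y ≤ C.wa n y :=
    Pool.Agent.H46.Sp.Win.m_le_a (D := C.win n h2 he) (by omega)
  have hCR : s (D.PR (y / n)) = C.CR (y / n) := rfl
  rw [hCR]
  have h3 : ¬ y < n * C.YQ := by
    intro h3
    have := (CW.stepR_lo (C := C) h2 (z := y - 1) (by omega) (by omega) he).1
    rw [sub_add_cancel] at this
    omega
  unfold natc
  have hh : (C.win n h2 he).h = n * D.HR := rfl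
  rw [if_neg (by omega), if_neg (by rw [hh]; omega), if_neg (by omega)]
  have hm : (C.win n h2 he).M y = C.wb n y := by
    show MM (C.wb n) (n * C.YQ) y = _
    unfold MM; rw [if_neg h3]
  rw [hm, if_pos hx']
  show C.wcr n y = _
  rw [CW.wcr_hi h3]

/-- colour of a tile above the highest row -/
lemma natc_top : natc ((D.cw s).win n h2 he) false x (n * D.HR) = s (2, D.n2 - 1) := by
  have hn : (0 : ℤ) < n := by omega
  unfold natc
  have hh : ((D.cw s).win n h2 he).h = n * D.HR := rfl
  have hH : 0 < D.HR := (D.cw s).H0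
  have hpos : 0 < n * D.HR := mul_pos hn hH
  rw [if_neg (by omega), if_pos (by rw [hh])]
  rfl

/-- **The walls have the colours of the plates.** -/
theorem wall_colour (hz : ¬ InP ((D.cw s).win n h2 he) false x y)
    (hnb : InP ((D.cw s).win n h2 he) false (x + 1) y ∨ InP ((D.cw s).win n h2 he) false (x - 1) y ∨
      InP ((D.cw s).win n h2 he) false x (y + 1) ∨ InP ((D.cw s).win n h2 he) false x (y - 1)) :
    ∃ q, D.rg (x / n, y / n - D.N + D.τ) = some q ∧
      natc ((D.cw s).win n h2 he) false x y = s q := by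
  have hn : (0 : ℤ) < n := by omega
  set C := D.cw s with hC
  have e1 : ∀ x y, InP (C.win n h2 he) false x y ↔
      0 ≤ y ∧ y < n * D.HR ∧ C.wa n y ≤ x ∧ x < C.wb n y := by
    intro x y
    unfold InP
    rw [Pool.Agent.H74.Win.sh_false, add_zero]
    exact Iff.rfl
  have wA : ∀ y, C.wa n y = n * D.AL (y / n) - C.dA n (y / n) (y % n) := fun _ => rfl
  have wB : ∀ y, C.wb n y = n * D.AR (y / n) + C.dB n (y / n) (y % n) := fun _ => rfl
  have row : ∀ {y : ℤ}, 0 ≤ y → y < n * D.HR → 0 ≤ y / n ∧ y / n < D.HR := fun h0 h1 =>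
    ⟨Int.ediv_nonneg h0 hn.le, by rw [Int.ediv_lt_iff_lt_mul hn, mul_comm]; exact h1⟩
  rw [e1, e1, e1, e1] at hnb
  rw [e1] at hz
  -- the end tiles of the rows
  have left : ∀ {x y : ℤ}, 0 ≤ y → y < n * D.HR → x = C.wa n y - 1 →
      ∃ q, D.rg (x / n, y / n - D.N + D.τ) = some q ∧ natc (C.win n h2 he) false x y = s q := by
    intro x y h0 h1 hx
    obtain ⟨r0, r1⟩ := row h0 h1
    refine ⟨D.PL (y / n), ?_, D.natc_left s h2 he h0 h1 hx⟩
    have a1 := CW.dA_01 (C := C) (N := n) (q := y / n) (r := y % n)
    rw [wA] at hx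
    have e2 : x / n = D.AL (y / n) - 1 := by
      refine div_eq' hn ?_ ?_ <;> rw [mul_sub, mul_one] <;> omega
    rw [e2]
    exact D.rg_L r0 r1 (by omega) (Or.inl rfl)
  have right : ∀ {x y : ℤ}, 0 ≤ y → y < n * D.HR → x = C.wb n y →
      ∃ q, D.rg (x / n, y / n - D.N + D.τ) = some q ∧ natc (C.win n h2 he) false x y = s q := by
    intro x y h0 h1 hx
    obtain ⟨r0, r1⟩ := row h0 h1
    refine ⟨D.PR (y / n), ?_, D.natc_right s h2 he h0 h1 hx⟩
    have a1 := CW.dB_01 (C := C) (N := n) (q := y / n) (r := y % n)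
    rw [wB] at hx
    have e2 : x / n = D.AR (y / n) := by
      refine div_eq' hn ?_ ?_ <;> omega
    rw [e2]
    exact D.rg_R r0 r1 le_rfl (Or.inl rfl)
  have hH : 0 < D.HR := C.H0
  rcases hnb with ⟨h0, h1, g1, g2⟩ | ⟨h0, h1, g1, g2⟩ | ⟨h0, h1, g1, g2⟩ | ⟨h0, h1, g1, g2⟩
  · exact left h0 h1 (by omega)
  · exact right h0 h1 (by omega)
  · -- below a tile of the zone
    rcases lt_or_ge y 0 with hy | hy
    · have : y = -1 := by omega
      subst this
      rw [show (-1 : ℤ) + 1 = 0 by norm_num] at g1 g2
      refine ⟨(0, D.n2 - 1), ?_, D.natc_bot s h2 he g1 g2⟩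
      have hP : (1 : ℤ) ≤ C.YP := C.P0
      have a1 : C.wa n 0 = n * D.AL 0 := by
        have := CW.wa_q0 (C := C) (N := n) (q := 0) hn
        rw [mul_zero] at this
        rw [this, CW.dA_lo (by omega) (by omega), sub_zero]
        rfl
      have b1 : C.wb n 0 = n * D.AR 0 := by
        have := CW.wb_q0 (C := C) (N := n) (q := 0) hn
        rw [mul_zero] at this
        rw [this, CW.dB_lo C.Q0 (by omega), add_zero]
        rfl
      have e2 : (-1 : ℤ) / n = -1 := div_eq' hn (by omega) (by omega)
      rw [e2]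
      refine D.rg_B ?_ ?_
      · rw [Int.le_ediv_iff_mul_le hn, mul_comm, ← a1]; exact g1
      · rw [Int.ediv_lt_iff_lt_mul hn, mul_comm, ← b1]; exact g2
    · obtain ⟨r0, r1⟩ := row hy (by omega)
      obtain ⟨q, r, hyq, q0, q1⟩ := Pool.Agent.H5.FM.exists_qr hn y
      have hyd : y / n = q := by rw [hyq]; exact Pool.Agent.H5.FM.qr_div q0 q1
      rcases lt_or_ge x (C.wa n y) with hx | hx
      · -- left floor
        by_cases hx1 : x = C.wa n y - 1
        · exact left hy (by omega) hx1
        refine ⟨D.PL (y / n), ?_, D.natc_floorL s h2 he hy h1 g1 hx⟩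
        have h3 : y + 1 < n * C.YP := by
          by_contra h3
          have := (CW.step_hi (C := C) h2 (y := y) (by omega) h1 he).1
          omega
        have a1 := CW.dA_01 (C := C) (N := n) (q := y / n) (r := y % n)
        -- last row of the coarse row
        have hr : r = n - 1 := by
          by_contra hr
          have hr1 : r + 1 < n := by omega
          have w1 := CW.wa_r1 (C := C) (N := n) (q := q) q0 hr1
          have w2 := CW.wa_qr (C := C) (N := n) (q := q) q0 q1
          have a2 := CW.dA_01 (C := C) (N := n) (q := q) (r := r + 1)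
          have a3 := CW.dA_01 (C := C) (N := n) (q := q) (r := r)
          rw [← hyq] at w1 w2
          omega
        have w1 : C.wa n (y + 1) = n * D.AL (q + 1) := by
          have w1 := CW.wa_q1 (C := C) (N := n) (q := q) hn
          rw [← hr, ← hyq] at w1
          rw [w1, CW.dA_lo ?_ (by omega), sub_zero]
          · rfl
          · refine (Pool.Agent.H5.FM.qr_lt (z := C.YP) (q := q + 1) (r := 0) (N := n) le_rfl hn).1 ?_
            rw [add_zero, mul_add, mul_one]
            omega
        rw [hyd]
        rw [hyd] at r0 r1 a1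
        rw [w1] at g1
        rw [wA, hyd] at hx
        have hq1 : q + 1 < D.HR := by
          have : n * q + n < n * D.HR := by omega
          by_contra h5
          have := mul_le_mul_of_nonneg_left (show D.HR ≤ q + 1 by omega) hn.le
          rw [mul_add, mul_one] at this
          omega
        refine D.rg_L r0 r1 ?_ (Or.inr (Or.inl ⟨hq1, ?_⟩))
        · rw [Int.ediv_lt_iff_lt_mul hn, mul_comm]; omega
        · rw [Int.le_ediv_iff_mul_le hn, mul_comm]; exact g1
      · -- right floor
        have hx' : C.wb n y ≤ x := by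
          by_contra h
          exact hz ⟨hy, by omega, hx, by omega⟩
        by_cases hx1 : x = C.wb n y
        · exact right hy (by omega) hx1
        refine ⟨D.PR (y / n), ?_, D.natc_floorR s h2 he hy h1 g2 hx'⟩
        have h3 : y < n * C.YQ := by
          by_contra h3
          have := CW.wb_U (C := C) h2 (y := y) (by omega) h1
          omega
        have a1 := CW.dB_01 (C := C) (N := n) (q := y / n) (r := y % n)
        have hr : r = n - 1 := by
          by_contra hr
          have hr1 : r + 1 < n := by omega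
          have w1 := CW.wb_r1 (C := C) (N := n) (q := q) q0 hr1
          have w2 := CW.wb_qr (C := C) (N := n) (q := q) q0 q1
          have a2 := CW.dB_01 (C := C) (N := n) (q := q) (r := r + 1)
          have a3 := CW.dB_01 (C := C) (N := n) (q := q) (r := r)
          rw [← hyq] at w1 w2
          omega
        have hq : q < C.YQ := by
          rw [hyq] at h3
          exact (Pool.Agent.H5.FM.qr_lt q0 q1).1 h3
        have w1 : C.wb n (y + 1) = n * D.AR (q + 1) := by
          have w1 := CW.wb_q1 (C := C) (N := n) (q := q) hn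
          rw [← hr, ← hyq] at w1
          rw [w1, CW.dB_lo (by omega) (by omega), add_zero]
          rfl
        rw [hyd]
        rw [hyd] at r0 r1 a1
        rw [w1] at g2
        rw [wB, hyd] at hx'
        have hq1 : q + 1 < D.HR := by
          have : n * q + n < n * D.HR := by omega
          by_contra h5
          have := mul_le_mul_of_nonneg_left (show D.HR ≤ q + 1 by omega) hn.le
          rw [mul_add, mul_one] at this
          omega
        refine D.rg_R r0 r1 ?_ (Or.inr (Or.inl ⟨hq1, ?_⟩))
        · rw [Int.le_ediv_iff_mul_le hn, mul_comm]; omega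
        · rw [Int.ediv_lt_iff_lt_mul hn, mul_comm]; exact g2
  · -- above a tile of the zone
    rcases lt_or_ge y (n * D.HR) with hy | hy
    · obtain ⟨r0, r1⟩ := row (y := y) (by omega) hy
      obtain ⟨q, r, hyq, q0, q1⟩ := Pool.Agent.H5.FM.exists_qr hn y
      have hyd : y / n = q := by rw [hyq]; exact Pool.Agent.H5.FM.qr_div q0 q1
      rcases lt_or_ge x (C.wa n y) with hx | hx
      · -- left ceiling
        by_cases hx1 : x = C.wa n y - 1
        · exact left (by omega) hy hx1
        refine ⟨D.PL (y / n), ?_, D.natc_ceilL s h2 he (by omega) hy g1 hx⟩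
        have h3 : n * C.YP ≤ y := by
          by_contra h3
          have := CW.wa_L (C := C) h2 (y := y - 1) (by omega) (by omega)
          rw [sub_add_cancel] at this
          omega
        have hq : C.YP ≤ q := by
          rw [hyq] at h3
          exact (Pool.Agent.H5.FM.qr_le q0 q1).1 h3
        have a1 := CW.dA_01 (C := C) (N := n) (q := y / n) (r := y % n)
        have hr : r = 0 := by
          by_contra hr
          have w1 := CW.wa_qr (C := C) (N := n) (q := q) (r := r - 1) (by omega) (by omega)
          have w2 := CW.wa_qr (C := C) (N := n) (q := q) q0 q1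
          have a2 := CW.dA_01 (C := C) (N := n) (q := q) (r := r - 1)
          have a3 := CW.dA_01 (C := C) (N := n) (q := q) (r := r)
          rw [show n * q + (r - 1) = y - 1 by omega] at w1
          rw [← hyq] at w2
          omega
        have w1 : C.wa n (y - 1) = n * D.AL (q - 1) := by
          have w1 := CW.wa_qr (C := C) (N := n) (q := q - 1) (r := n - 1) (by omega) (by omega)
          rw [show n * (q - 1) + (n - 1) = y - 1 by rw [hyq, hr]; ring] at w1
          rw [w1, CW.dA_hi (by omega) (by omega), sub_zero]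
          rfl
        have hP : (1 : ℤ) ≤ C.YP := C.P0
        rw [hyd]
        rw [hyd] at r0 r1 a1
        rw [w1] at g1
        rw [wA, hyd] at hx
        refine D.rg_L r0 r1 ?_ (Or.inr (Or.inr ⟨by omega, ?_⟩))
        · rw [Int.ediv_lt_iff_lt_mul hn, mul_comm]; omega
        · rw [Int.le_ediv_iff_mul_le hn, mul_comm]; exact g1
      · -- right ceiling
        have hx' : C.wb n y ≤ x := by
          by_contra h
          exact hz ⟨by omega, hy, hx, by omega⟩
        by_cases hx1 : x = C.wb n y
        · exact right (by omega) hy hx1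
        refine ⟨D.PR (y / n), ?_, D.natc_ceilR s h2 he (by omega) hy g2 hx'⟩
        have h3 : n * C.YQ < y := by
          by_contra h3
          have := (CW.stepR_lo (C := C) h2 (z := y - 1) (by omega) (by omega) he).1
          rw [sub_add_cancel] at this
          omega
        have hq : C.YQ ≤ q := by
          rw [hyq] at h3
          exact (Pool.Agent.H5.FM.qr_le q0 q1).1 h3.le
        have a1 := CW.dB_01 (C := C) (N := n) (q := y / n) (r := y % n)
        have hr : r = 0 := by
          by_contra hr
          have w1 := CW.wb_qr (C := C) (N := n) (q := q) (r := r - 1) (by omega) (by omega)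
          have w2 := CW.wb_qr (C := C) (N := n) (q := q) q0 q1
          have a2 := CW.dB_01 (C := C) (N := n) (q := q) (r := r - 1)
          have a3 := CW.dB_01 (C := C) (N := n) (q := q) (r := r)
          rw [show n * q + (r - 1) = y - 1 by omega] at w1
          rw [← hyq] at w2
          omega
        have hq' : C.YQ < q := by
          by_contra h5
          have h6 : q = C.YQ := by omega
          rw [hyq, hr, h6] at h3
          omega
        have w1 : C.wb n (y - 1) = n * D.AR (q - 1) := by
          have w1 := CW.wb_qr (C := C) (N := n) (q := q - 1) (r := n - 1) (by omega) (by omega)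
          rw [show n * (q - 1) + (n - 1) = y - 1 by rw [hyq, hr]; ring] at w1
          rw [w1, CW.dB_hi (by omega) (by omega), add_zero]
          rfl
        have hQ0 := C.Q0
        rw [hyd]
        rw [hyd] at r0 r1 a1
        rw [w1] at g2
        rw [wB, hyd] at hx'
        refine D.rg_R r0 r1 ?_ (Or.inr (Or.inr ⟨by omega, ?_⟩))
        · rw [Int.le_ediv_iff_mul_le hn, mul_comm]; omega
        · rw [Int.ediv_lt_iff_lt_mul hn, mul_comm]; exact g2
    · have hyt : y = n * D.HR := by omega
      refine ⟨(2, D.n2 - 1), ?_, by rw [hyt]; exact D.natc_top s h2 he⟩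
      have hP1 : C.YP ≤ C.H := C.P1
      have hQ1 : C.YQ < C.H := C.Q1
      have hHC : C.H = D.HR := rfl
      have e2 : y - 1 = n * (D.HR - 1) + (n - 1) := by rw [hyt]; ring
      have a1 : C.wa n (y - 1) = n * D.AL (D.HR - 1) := by
        rw [e2, CW.wa_qr (by omega) (by omega), CW.dA_hi (by omega) (by omega), sub_zero]
        rfl
      have b1 : C.wb n (y - 1) = n * D.AR (D.HR - 1) := by
        rw [e2, CW.wb_qr (by omega) (by omega), CW.dB_hi (by omega) (by omega), add_zero]
        rfl
      have e3 : y / n = D.HR := by rw [hyt]; exact Int.mul_ediv_cancel_left _ hn.ne'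
      have e4 : D.HR - D.N + D.τ = D.N - D.τ := by unfold HR; ring
      rw [e3, e4]
      refine D.rg_T ?_ ?_
      · rw [Int.le_ediv_iff_mul_le hn, mul_comm, ← a1]; exact g1
      · rw [Int.ediv_lt_iff_lt_mul hn, mul_comm, ← b1]; exact g2

end colours

end RG

end Pool.Agent.H65.G
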