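import Mathlib
import Pool.Agent.H65.G.RoomT
import Pool.Agent.H5.FM.WinCo

set_option autoImplicit false
open Finset

/-!
# Notches of the room (Route W, W-G)

`notch_box` : a notch tile lies in a plate `q`, and all tiles at distance `< n` from it lie in `q` or in
the room. `coarseC` : the window is coarse.
-/

namespace Pool.Agent.H65.G

open Pool.Agent.Q1.M4 (Cell)
open Pool.Agent.H5.FM
open Pool.Agent.H46.Sp (Win mm MM)
open Pool.Agent.H74.Win (InP natc sh)

namespace RG

variable (D : RG) (s : ℕ × ℤ → Bool)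

/-- the window of the room is coarse -/
theorem coarseC {n : ℤ} (h2 : 2 ≤ n) (he : n % 2 = 0) (h8 : 8 ≤ n) :
    Pool.Agent.H31.Sp.CoarseC ((D.cw s).win n h2 he) n D.HR D.AL D.AR (D.M - D.τ)
      (D.HR - (D.M - D.τ)) (fun Y => s (D.PL Y)) (fun Y => s (D.PR Y)) :=
  (D.cw s).coarseC h2 he h8

/-- a cell of the room is in no plate -/
lemma room_cell {X Y : ℤ} (h0 : 0 ≤ Y) (h1 : Y < D.HR) (h2 : D.AL Y ≤ X) (h3 : X < D.AR Y) :
    D.rg (X, Y - D.N + D.τ) = none := by
  have hτ := D.τZ
  have hHR : D.HR = 2 * D.N - 2 * D.τ := rfl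
  have b1 := (D.AL_bounds h0 h1).1
  have b2 := (D.AL_bounds (Y := D.HR - 1 - Y) (by omega) (by omega)).1
  have b3 : D.AR Y = -D.AL (D.HR - 1 - Y) := rfl
  have e1 : Y - D.N + D.τ + D.N - D.τ = Y := by ring
  rw [D.room_iff (by simp only; omega) (by simp only; omega) (by simp only; omega)
    (by simp only; omega)]
  simp only
  rw [e1]
  exact ⟨⟨h0, h1⟩, h2, h3⟩

/-- **Near a notch there is only its plate.** -/
theorem notch_box {n : ℤ} (h2 : 2 ≤ n) {x y : ℤ} (h0 : 0 ≤ y) (h1 : y < n * D.HR)
    (h : D.NL s n x y ∨ D.NR s n x y) : ∃ q, D.rg (x / n, y / n - D.N + D.τ) = some q ∧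
      ∀ x' y' : ℤ, |x' - x| < n → |y' - y| < n →
        D.rg (x' / n, y' / n - D.N + D.τ) = none ∨ D.rg (x' / n, y' / n - D.N + D.τ) = some q := by
  have hn : (0 : ℤ) < n := by omega
  have row : 0 ≤ y / n ∧ y / n < D.HR :=
    ⟨Int.ediv_nonneg h0 hn.le, by rw [Int.ediv_lt_iff_lt_mul hn, mul_comm]; exact h1⟩
  obtain ⟨q, r, hyq, q0, q1⟩ := Pool.Agent.H5.FM.exists_qr hn y
  have hyd : y / n = q := by rw [hyq]; exact Pool.Agent.H5.FM.qr_div q0 q1
  have hym : y % n = r := by rw [hyq]; exact Pool.Agent.H5.FM.qr_mod q0 q1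
  rw [hyd] at row
  have hab := (D.cw s).ab q row.1 row.2
  have hA : (D.cw s).A = D.AL := rfl
  have hB : (D.cw s).B = D.AR := rfl
  have hHC : (D.cw s).H = D.HR := rfl
  rw [hA, hB] at hab
  -- two neighbouring values
  have two : ∀ {z z' X : ℤ}, z = n * X - 1 → |z' - z| < n → z' / n = X - 1 ∨ z' / n = X := by
    intro z z' X h3 h4
    rw [abs_lt] at h4
    rcases lt_or_ge z' (n * X) with h5 | h5
    · left
      exact div_eq' hn (by rw [mul_sub, mul_one]; omega) (by rw [mul_sub, mul_one]; omega)
    · right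
      exact div_eq' hn h5 (by omega)
  have two' : ∀ {z z' X : ℤ}, z = n * X → |z' - z| < n → z' / n = X - 1 ∨ z' / n = X := by
    intro z z' X h3 h4
    rw [abs_lt] at h4
    rcases lt_or_ge z' (n * X) with h5 | h5
    · left
      exact div_eq' hn (by rw [mul_sub, mul_one]; omega) (by rw [mul_sub, mul_one]; omega)
    · right
      exact div_eq' hn h5 (by omega)
  rcases h with ⟨g1, g2⟩ | ⟨g1, g2⟩
  · rw [hyd] at g1 g2
    rw [hym] at g1
    have hx : x / n = D.AL q - 1 :=
      div_eq' hn (by rw [mul_sub, mul_one]; omega) (by rw [mul_sub, mul_one]; omega)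
    have hpl := D.rg_L row.1 row.2 (X := D.AL q - 1) (by omega) (Or.inl rfl)
    refine ⟨D.PL q, by rw [hx, hyd]; exact hpl, fun x' y' hx' hy' => ?_⟩
    have tx := two g2 hx'
    rcases CW.dA_one (C := D.cw s) (N := n) g1 with ⟨k1, k2, k3, -⟩ | ⟨k1, k2, k3, -⟩
    · -- lower notch
      rw [hA] at k3
      have hq1 : q + 1 < D.HR := by
        have := (D.cw s).P1
        rw [hHC] at this
        omega
      have hov := (D.cw s).ov1 q row.1 hq1
      have hab1 := (D.cw s).ab (q + 1) (by omega) hq1
      rw [hA, hB] at hov hab1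
      have ty := two (z := y) (z' := y') (X := q + 1) (by rw [hyq, k2]; ring) hy'
      rw [add_sub_cancel_right] at ty
      rcases tx with tx | tx <;> rcases ty with ty | ty <;> rw [tx, ty]
      · right; exact hpl
      · left; exact D.room_cell (by omega) hq1 (by omega) (by omega)
      · left; exact D.room_cell row.1 row.2 le_rfl hab
      · left; exact D.room_cell (by omega) hq1 (by omega) hov
    · -- upper notch
      rw [hA] at k3
      have hP0 := (D.cw s).P0
      have hov := (D.cw s).ov2 (q - 1) (by omega) (by rw [hHC]; omega)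
      have hab1 := (D.cw s).ab (q - 1) (by omega) (by rw [hHC]; omega)
      rw [hA, hB, sub_add_cancel] at hov
      rw [hA, hB] at hab1
      have ty := two' (z := y) (z' := y') (X := q) (by rw [hyq, k2]; ring) hy'
      rcases tx with tx | tx <;> rcases ty with ty | ty <;> rw [tx, ty]
      · left; exact D.room_cell (by omega) (by omega) (by omega) (by omega)
      · right; exact hpl
      · left; exact D.room_cell (by omega) (by omega) (by omega) hov
      · left; exact D.room_cell row.1 row.2 le_rfl hab
  · rw [hyd] at g1 g2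
    rw [hym] at g1
    have hx : x / n = D.AR q := div_eq' hn (by omega) (by omega)
    have hpl := D.rg_R row.1 row.2 (X := D.AR q) le_rfl (Or.inl rfl)
    refine ⟨D.PR q, by rw [hx, hyd]; exact hpl, fun x' y' hx' hy' => ?_⟩
    have tx := two' g2 hx'
    rcases CW.dB_one (C := D.cw s) (N := n) g1 with ⟨k1, k2, k3, -⟩ | ⟨k1, k2, k3, -⟩
    · -- lower notch
      rw [hB] at k3
      have hq1 : q + 1 < D.HR := by
        have := (D.cw s).Q1
        rw [hHC] at this
        omega
      have hov := (D.cw s).ov2 q row.1 hq1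
      have hab1 := (D.cw s).ab (q + 1) (by omega) hq1
      rw [hA, hB] at hov hab1
      have ty := two (z := y) (z' := y') (X := q + 1) (by rw [hyq, k2]; ring) hy'
      rw [add_sub_cancel_right] at ty
      rcases tx with tx | tx <;> rcases ty with ty | ty <;> rw [tx, ty]
      · left; exact D.room_cell row.1 row.2 (by omega) (by omega)
      · left; exact D.room_cell (by omega) hq1 (by omega) (by omega)
      · right; exact hpl
      · left; exact D.room_cell (by omega) hq1 (by omega) (by omega)
    · -- upper notch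
      rw [hB] at k3
      have hQ0 := (D.cw s).Q0
      have hov := (D.cw s).ov1 (q - 1) (by omega) (by rw [hHC]; omega)
      have hab1 := (D.cw s).ab (q - 1) (by omega) (by rw [hHC]; omega)
      rw [hA, hB, sub_add_cancel] at hov
      rw [hA, hB] at hab1
      have ty := two' (z := y) (z' := y') (X := q) (by rw [hyq, k2]; ring) hy'
      rcases tx with tx | tx <;> rcases ty with ty | ty <;> rw [tx, ty]
      · left; exact D.room_cell (by omega) (by omega) (by omega) (by omega)
      · left; exact D.room_cell row.1 row.2 (by omega) (by omega)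
      · left; exact D.room_cell (by omega) (by omega) (by omega) (by omega)
      · right; exact hpl

end RG

end Pool.Agent.H65.G
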