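import Mathlib
import Pool.Agent.H65.G.RoomT
import Pool.Agent.H68.G.Walk

set_option autoImplicit false
open Finset

/-!
# Solid plates are connected (Route W, W-G, R3b)

`Cn t p` : `p` is a corner of the tile `t`. Open tiles join their even corners (`Co`, vertices `V p`),
closed tiles their odd corners (`DCo`, faces `Fc p`).
`tp n o t` : plate of the tile `t`, origin of the ring at the lattice point `o`.
`plate_co`, `plate_dco` : corners of the tiles of one solid plate are joined.
-/

namespace Pool.Agent.H65.G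

open Pool.Agent.H75.Perc hiding WL CT hh PB
open Pool.Agent.H75.TwoArm
open Pool.Agent.Q1.M4 (Cell)
open Pool.Agent.H33.Q1
open Pool.Agent.Q1 (DCo)
open Pool.Agent.H68.G (V Fc)

/-- corners of a tile -/
def Cn (t p : ℤ × ℤ) : Prop := (p.1 = t.1 ∨ p.1 = t.1 + 1) ∧ (p.2 = t.2 ∨ p.2 = t.2 + 1)

/-- two corners of the same parity are equal or opposite -/
lemma cn_opp {t p p' : ℤ × ℤ} (hp : Cn t p) (hp' : Cn t p')
    (e : (p.1 + p.2) % 2 = (p'.1 + p'.2) % 2) :
    p = p' ∨ (p.1 + p'.1 = 2 * t.1 + 1 ∧ p.2 + p'.2 = 2 * t.2 + 1) := by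
  obtain ⟨x, y⟩ := t
  obtain ⟨a, b⟩ := p
  obtain ⟨c, d⟩ := p'
  obtain ⟨h1, h2⟩ := hp
  obtain ⟨h3, h4⟩ := hp'
  simp only at h1 h2 h3 h4 e
  by_cases h5 : a = c
  · left; rw [h5, show b = d by omega]
  · right; exact ⟨by simp only; omega, by simp only; omega⟩

/-- an open tile joins its even corners -/
lemma co_tile {W : Finset (ℤ × ℤ)} {t p p' : ℤ × ℤ} (ht : lt t ∈ W) (hp : Cn t p) (hp' : Cn t p')
    (e : (p.1 + p.2) % 2 = 0) (e' : (p'.1 + p'.2) % 2 = 0) : Co W (V p) (V p') := by
  rcases cn_opp hp hp' (by rw [e, e']) with h | ⟨g1, g2⟩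
  · rw [h]; exact Co.refl _ _
  obtain ⟨x, y⟩ := t
  obtain ⟨a, b⟩ := p
  obtain ⟨c, d⟩ := p'
  obtain ⟨h1, h2⟩ := hp
  simp only at h1 h2 e e' g1 g2
  have e1 : V (a, b) + V (c, d) = lt (x, y) := by
    unfold V lt
    refine Prod.ext ?_ ?_
    · simp only [Prod.mk_add_mk]; omega
    · simp only [Prod.mk_add_mk]; omega
  refine Relation.ReflTransGen.single ⟨?_, e1 ▸ ht⟩
  have e2 : V (c, d) - V (a, b) = ((c - d) / 2 - (a - b) / 2, (c + d) / 2 - (a + b) / 2) := rfl
  rw [e2]
  unfold IsUnit4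
  simp only [Prod.mk.injEq]
  rcases h1 with h1 | h1 <;> rcases h2 with h2 | h2
  · right; left; omega
  · left; omega
  · right; right; left; omega
  · right; right; right; omega

/-- a closed tile joins its odd corners -/
lemma dco_tile {W : Finset (ℤ × ℤ)} {t p p' : ℤ × ℤ} (ht : lt t ∉ W) (hp : Cn t p) (hp' : Cn t p')
    (e : (p.1 + p.2) % 2 = 1) (e' : (p'.1 + p'.2) % 2 = 1) : DCo W (Fc p) (Fc p') := by
  rcases cn_opp hp hp' (by rw [e, e']) with h | ⟨g1, g2⟩
  · rw [h]; exact DCo.refl _ _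
  obtain ⟨x, y⟩ := t
  obtain ⟨a, b⟩ := p
  obtain ⟨c, d⟩ := p'
  obtain ⟨h1, h2⟩ := hp
  simp only at h1 h2 e e' g1 g2
  have e1 : Fc (a, b) + Fc (c, d) - (1, 1) = lt (x, y) := by
    unfold Fc lt
    refine Prod.ext ?_ ?_
    · simp only [Prod.mk_add_mk, Prod.mk_sub_mk]; omega
    · simp only [Prod.mk_add_mk, Prod.mk_sub_mk]; omega
  refine DCo.step ?_ (e1 ▸ ht)
  have e2 : Fc (c, d) - Fc (a, b) =
    ((c - d + 1) / 2 - (a - b + 1) / 2, (c + d + 1) / 2 - (a + b + 1) / 2) := rfl
  rw [e2]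
  unfold IsUnit4
  simp only [Prod.mk.injEq]
  rcases h1 with h1 | h1 <;> rcases h2 with h2 | h2
  · right; left; omega
  · left; omega
  · right; right; left; omega
  · right; right; right; omega

/-- side-adjacent tiles have a common corner of each parity -/
lemma common_corner {t t' : ℤ × ℤ} (h : IsUnit4 (t' - t)) (b : ℤ) (hb : b = 0 ∨ b = 1) :
    ∃ p, Cn t p ∧ Cn t' p ∧ (p.1 + p.2) % 2 = b := by
  have h1 := unit_cases h
  obtain ⟨x, y⟩ := t
  obtain ⟨x', y'⟩ := t'
  simp only at h1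
  have key : ∀ X Y : ℤ, (X = x ∨ X = x + 1) → (Y = y ∨ Y = y + 1) → (X = x' ∨ X = x' + 1) →
      (Y = y' ∨ Y = y' + 1) → (X + Y) % 2 = b →
      ∃ p, Cn (x, y) p ∧ Cn (x', y') p ∧ (p.1 + p.2) % 2 = b := fun X Y a1 a2 a3 a4 a5 =>
    ⟨(X, Y), ⟨a1, a2⟩, ⟨a3, a4⟩, a5⟩
  rcases h1 with ⟨h3, h4⟩ | ⟨h3, h4⟩ | ⟨h3, h4⟩ | ⟨h3, h4⟩
  · rcases Int.emod_two_eq_zero_or_one (x + 1 + y) with h5 | h5
    · rcases hb with rfl | rfl
      · exact key (x + 1) y (by omega) (by omega) (by omega) (by omega) (by omega)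
      · exact key (x + 1) (y + 1) (by omega) (by omega) (by omega) (by omega) (by omega)
    · rcases hb with rfl | rfl
      · exact key (x + 1) (y + 1) (by omega) (by omega) (by omega) (by omega) (by omega)
      · exact key (x + 1) y (by omega) (by omega) (by omega) (by omega) (by omega)
  · rcases Int.emod_two_eq_zero_or_one (x + (y + 1)) with h5 | h5
    · rcases hb with rfl | rfl
      · exact key x (y + 1) (by omega) (by omega) (by omega) (by omega) (by omega)
      · exact key (x + 1) (y + 1) (by omega) (by omega) (by omega) (by omega) (by omega)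
    · rcases hb with rfl | rfl
      · exact key (x + 1) (y + 1) (by omega) (by omega) (by omega) (by omega) (by omega)
      · exact key x (y + 1) (by omega) (by omega) (by omega) (by omega) (by omega)
  · rcases Int.emod_two_eq_zero_or_one (x + y) with h5 | h5
    · rcases hb with rfl | rfl
      · exact key x y (by omega) (by omega) (by omega) (by omega) (by omega)
      · exact key x (y + 1) (by omega) (by omega) (by omega) (by omega) (by omega)
    · rcases hb with rfl | rfl
      · exact key x (y + 1) (by omega) (by omega) (by omega) (by omega) (by omega)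
      · exact key x y (by omega) (by omega) (by omega) (by omega) (by omega)
  · rcases Int.emod_two_eq_zero_or_one (x + y) with h5 | h5
    · rcases hb with rfl | rfl
      · exact key x y (by omega) (by omega) (by omega) (by omega) (by omega)
      · exact key (x + 1) y (by omega) (by omega) (by omega) (by omega) (by omega)
    · rcases hb with rfl | rfl
      · exact key (x + 1) y (by omega) (by omega) (by omega) (by omega) (by omega)
      · exact key x y (by omega) (by omega) (by omega) (by omega) (by omega)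

/-- chains of side-adjacent tiles with the property `S` -/
def Ch (S : ℤ × ℤ → Prop) (t t' : ℤ × ℤ) : Prop :=
  Relation.ReflTransGen (fun a b => IsUnit4 (b - a) ∧ S a ∧ S b) t t'

lemma Ch.refl (S : ℤ × ℤ → Prop) (t : ℤ × ℤ) : Ch S t t := Relation.ReflTransGen.refl

lemma Ch.trans {S : ℤ × ℤ → Prop} {a b c : ℤ × ℤ} (h : Ch S a b) (h' : Ch S b c) : Ch S a c :=
  Relation.ReflTransGen.trans h h'

lemma Ch.symm {S : ℤ × ℤ → Prop} {a b : ℤ × ℤ} (h : Ch S a b) : Ch S b a := by
  unfold Ch at h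
  induction h with
  | refl => exact Ch.refl _ _
  | tail _ hbc ih =>
    refine Relation.ReflTransGen.head ⟨?_, hbc.2.2, hbc.2.1⟩ ih
    have := isUnit4_neg hbc.1
    rwa [neg_sub] at this

lemma Ch.mono {S S' : ℤ × ℤ → Prop} (hS : ∀ t, S t → S' t) {a b : ℤ × ℤ} (h : Ch S a b) :
    Ch S' a b := by
  unfold Ch at h
  induction h with
  | refl => exact Ch.refl _ _
  | tail _ hbc ih => exact ih.tail ⟨hbc.1, hS _ hbc.2.1, hS _ hbc.2.2⟩

lemma Ch.mem {S : ℤ × ℤ → Prop} {a b : ℤ × ℤ} (h : Ch S a b) (ha : S a) : S b := by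
  unfold Ch at h
  induction h with
  | refl => exact ha
  | tail _ hbc _ => exact hbc.2.2

/-- **open chains join vertices** -/
lemma Ch.co {W : Finset (ℤ × ℤ)} {S : ℤ × ℤ → Prop} (hS : ∀ t, S t → lt t ∈ W) {t t' : ℤ × ℤ}
    (h : Ch S t t') (ht : S t) {p : ℤ × ℤ} (hp : Cn t p) (e : (p.1 + p.2) % 2 = 0) :
    ∀ p', Cn t' p' → (p'.1 + p'.2) % 2 = 0 → Co W (V p) (V p') := by
  unfold Ch at h
  induction h with
  | refl => exact fun p' hp' e' => co_tile (hS _ ht) hp hp' e e'
  | tail _ hbc ih =>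
    intro p' hp' e'
    obtain ⟨z, hz1, hz2, hz3⟩ := common_corner hbc.1 0 (Or.inl rfl)
    exact (ih z hz1 hz3).trans (co_tile (hS _ hbc.2.2) hz2 hp' hz3 e')

/-- **closed chains join faces** -/
lemma Ch.dco {W : Finset (ℤ × ℤ)} {S : ℤ × ℤ → Prop} (hS : ∀ t, S t → lt t ∉ W) {t t' : ℤ × ℤ}
    (h : Ch S t t') (ht : S t) {p : ℤ × ℤ} (hp : Cn t p) (e : (p.1 + p.2) % 2 = 1) :
    ∀ p', Cn t' p' → (p'.1 + p'.2) % 2 = 1 → DCo W (Fc p) (Fc p') := by
  unfold Ch at h
  induction h with
  | refl => exact fun p' hp' e' => dco_tile (hS _ ht) hp hp' e e'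
  | tail _ hbc ih =>
    intro p' hp' e'
    obtain ⟨z, hz1, hz2, hz3⟩ := common_corner hbc.1 1 (Or.inr rfl)
    exact (ih z hz1 hz3).trans (dco_tile (hS _ hbc.2.2) hz2 hp' hz3 e')

/-- horizontal chains -/
lemma ch_hor {S : ℤ × ℤ → Prop} {x x' y : ℤ} (h : ∀ z, min x x' ≤ z → z ≤ max x x' → S (z, y)) :
    Ch S (x, y) (x', y) := by
  have key : ∀ (n : ℕ) (x : ℤ), (∀ z, x ≤ z → z ≤ x + n → S (z, y)) → Ch S (x, y) (x + n, y) := by
    intro n
    induction n with
    | zero => intro x _; simp only [Nat.cast_zero, add_zero]; exact Ch.refl _ _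
    | succ n ih =>
      intro x hx
      refine (ih x fun z h1 h2 => hx z h1 (by push_cast; omega)).tail ⟨?_, hx _ (by omega) (by push_cast; omega),
        hx _ (by push_cast; omega) (by push_cast; omega)⟩
      left
      refine Prod.ext ?_ ?_
      · simp only [Prod.fst_sub]; push_cast; ring
      · simp only [Prod.snd_sub]; ring
  rcases le_total x x' with h1 | h1
  · have e : x' = x + (x' - x).toNat := by rw [Int.toNat_of_nonneg (by omega)]; ring
    rw [e]
    refine key _ _ fun z h2 h3 => h z (by omega) (by omega)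
  · have e : x = x' + (x - x').toNat := by rw [Int.toNat_of_nonneg (by omega)]; ring
    rw [e]
    refine (key _ _ fun z h2 h3 => h z (by omega) (by omega)).symm

/-- vertical chains -/
lemma ch_ver {S : ℤ × ℤ → Prop} {x y y' : ℤ} (h : ∀ z, min y y' ≤ z → z ≤ max y y' → S (x, z)) :
    Ch S (x, y) (x, y') := by
  have key : ∀ (n : ℕ) (y : ℤ), (∀ z, y ≤ z → z ≤ y + n → S (x, z)) → Ch S (x, y) (x, y + n) := by
    intro n
    induction n with
    | zero => intro y _; simp only [Nat.cast_zero, add_zero]; exact Ch.refl _ _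
    | succ n ih =>
      intro y hy
      refine (ih y fun z h1 h2 => hy z h1 (by push_cast; omega)).tail ⟨?_, hy _ (by omega) (by push_cast; omega),
        hy _ (by push_cast; omega) (by push_cast; omega)⟩
      right; left
      refine Prod.ext ?_ ?_
      · simp only [Prod.fst_sub]; ring
      · simp only [Prod.snd_sub]; push_cast; ring
  rcases le_total y y' with h1 | h1
  · have e : y' = y + (y' - y).toNat := by rw [Int.toNat_of_nonneg (by omega)]; ring
    rw [e]
    refine key _ _ fun z h2 h3 => h z (by omega) (by omega)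
  · have e : y = y' + (y - y').toNat := by rw [Int.toNat_of_nonneg (by omega)]; ring
    rw [e]
    refine (key _ _ fun z h2 h3 => h z (by omega) (by omega)).symm

/-- turning a chain -/
lemma Ch.turn {S : ℤ × ℤ → Prop} {a b : ℤ × ℤ} (h : Ch S a b) :
    Ch (fun c => S (rc' c)) (rc a) (rc b) := by
  unfold Ch at h
  induction h with
  | refl => exact Ch.refl _ _
  | tail _ hbc ih =>
    refine ih.tail ⟨?_, ?_, ?_⟩
    · rename_i b c _
      have h1 := unit_cases hbc.1
      have h2 : rc c - rc b = (-1 - c.2 - (-1 - b.2), c.1 - b.1) := rfl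
      unfold IsUnit4
      rw [h2]
      simp only [Prod.mk.injEq]
      omega
    · show S (rc' (rc _)); rw [rc'_rc]; exact hbc.2.1
    · show S (rc' (rc _)); rw [rc'_rc]; exact hbc.2.2

lemma Ch.rck {S : ℤ × ℤ → Prop} (k : ℕ) : ∀ {a b : ℤ × ℤ}, Ch S a b →
    Ch (fun c => S (rc'^[k] c)) (rc^[k] a) (rc^[k] b) := by
  induction k with
  | zero => intro a b h; exact h
  | succ k ih =>
    intro a b h
    have h1 := (ih h).turn
    rw [Function.iterate_succ_apply', Function.iterate_succ_apply']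
    refine h1.mono fun c hc => ?_
    rw [Function.iterate_succ_apply]
    exact hc

namespace RG

variable (D : RG)

/-- the plates of the side `0` are connected -/
lemma plate_ch0 {c c' : Cell} (h : D.onA c) (h' : D.onA c') (hK : D.K c'.1 = D.K c.1) :
    Ch (fun a => D.onA a ∧ D.K a.1 = D.K c.1) c c' := by
  obtain ⟨x, y⟩ := c
  obtain ⟨x', y'⟩ := c'
  have hNZ := D.NZ
  have ht := D.thinZ
  have hn := D.n2Z
  have hτ := D.τZ
  -- down to the row `-N - 1`
  have down : ∀ {x y : ℤ}, D.onA (x, y) →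
      Ch (fun a => D.onA a ∧ D.K a.1 = D.K x) (x, y) (x, -(D.N : ℤ) - 1) := by
    intro x y h
    obtain ⟨h1, h2, h3⟩ := h
    simp only at h1 h2 h3
    have h4 := D.hw_ge h1.2
    refine ch_ver fun z g1 g2 => ⟨⟨h1, ?_, ?_⟩, rfl⟩
    · simp only; omega
    · simp only; omega
  have a1 := down h
  have a2 := down h'
  simp only at hK
  rw [hK] at a2
  refine (a1.trans ?_).trans a2.symm
  obtain ⟨h1, h2, h3⟩ := h
  obtain ⟨h1', h2', h3'⟩ := h'
  simp only at h1 h2 h3 h1' h2' h3'
  refine ch_hor fun z g1 g2 => ?_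
  have hz : -(D.N : ℤ) ≤ z ∧ z < D.N := by omega
  have hKz : D.K z = D.K x := by
    rcases le_total x x' with h5 | h5
    · have k1 := D.K_mono (x := x) (x' := z) (by omega)
      have k2 := D.K_mono (x := z) (x' := x') (by omega)
      omega
    · have k1 := D.K_mono (x := x') (x' := z) (by omega)
      have k2 := D.K_mono (x := z) (x' := x) (by omega)
      omega
  have h4 := D.hw_ge hz.2
  refine ⟨⟨hz, ?_, ?_⟩, hKz⟩
  · simp only; omega
  · simp only; omega

/-- **the plates are connected sets of cells** -/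
theorem plate_ch {c c' : Cell} {q : ℕ × ℤ} (h : D.rg c = some q) (h' : D.rg c' = some q) :
    Ch (fun a => D.rg a = some q) c c' := by
  obtain ⟨h1, h2, h3⟩ := D.rg_some h
  obtain ⟨-, h2', h3'⟩ := D.rg_some h'
  have h4 := (D.plate_ch0 h2 h2' (by rw [← h3, ← h3'])).rck q.1
  rw [rc'_iter, rc'_iter] at h4
  refine h4.mono fun a ha => ?_
  have h5 := D.rg_eq h1 ha.1
  rw [rc'_iter] at h5
  rw [h5, ha.2, ← h3]

/-- plate of the tile `t`, the origin of the ring at `o`, cells of `n × n` tiles -/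
noncomputable def tp (n : ℤ) (o t : ℤ × ℤ) : Option (ℕ × ℤ) :=
  D.rg ((t.1 - o.1) / n, (t.2 - o.2) / n)

/-- tiles of one cell are connected -/
lemma ch_cell {n : ℤ} (hn : 0 < n) {o t t' : ℤ × ℤ} {c : Cell}
    (h : ((t.1 - o.1) / n, (t.2 - o.2) / n) = c) (h' : ((t'.1 - o.1) / n, (t'.2 - o.2) / n) = c) :
    Ch (fun a => ((a.1 - o.1) / n, (a.2 - o.2) / n) = c) t t' := by
  obtain ⟨x, y⟩ := t
  obtain ⟨x', y'⟩ := t'
  subst h
  simp only [Prod.mk.injEq] at h'
  obtain ⟨h1, h2⟩ := h'
  have hz : ∀ a b z w : ℤ, min a b ≤ z → z ≤ max a b → (b - w) / n = (a - w) / n →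
      (z - w) / n = (a - w) / n := by
    intro a b z w g1 g2 g3
    rcases le_total a b with g4 | g4
    · have k1 : (a - w) / n ≤ (z - w) / n := Int.ediv_le_ediv hn (by omega)
      have k2 : (z - w) / n ≤ (b - w) / n := Int.ediv_le_ediv hn (by omega)
      omega
    · have k1 : (b - w) / n ≤ (z - w) / n := Int.ediv_le_ediv hn (by omega)
      have k2 : (z - w) / n ≤ (a - w) / n := Int.ediv_le_ediv hn (by omega)
      omega
  refine (ch_hor (x := x) (x' := x') (y := y) fun z g1 g2 => ?_).trans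
    (ch_ver (y := y) (y' := y') fun z g1 g2 => ?_)
  · simp only [Prod.mk.injEq, and_true]
    exact hz _ _ _ _ g1 g2 h1
  · simp only [Prod.mk.injEq]
    exact ⟨h1, hz _ _ _ _ g1 g2 h2⟩

/-- **the plates are connected sets of tiles** -/
theorem tp_ch {n : ℤ} (hn : 0 < n) {o t t' : ℤ × ℤ} {q : ℕ × ℤ} (h : D.tp n o t = some q)
    (h' : D.tp n o t' = some q) : Ch (fun a => D.tp n o a = some q) t t' := by
  have key : ∀ {c c' : Cell}, Ch (fun a => D.rg a = some q) c c' → D.rg c = some q →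
      ∀ {t t' : ℤ × ℤ}, ((t.1 - o.1) / n, (t.2 - o.2) / n) = c →
        ((t'.1 - o.1) / n, (t'.2 - o.2) / n) = c' → Ch (fun a => D.tp n o a = some q) t t' := by
    intro c c' hc hq
    unfold Ch at hc
    induction hc with
    | refl =>
      intro t t' ht ht'
      refine (ch_cell hn ht ht').mono fun a ha => ?_
      unfold tp
      rw [ha]; exact hq
    | @tail b d hab hbd ih =>
      intro t t' ht ht'
      -- neighbouring tiles of the cells `b`, `d`
      obtain ⟨z, w, hz, hw, hzw⟩ : ∃ z w : ℤ × ℤ, ((z.1 - o.1) / n, (z.2 - o.2) / n) = b ∧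
          ((w.1 - o.1) / n, (w.2 - o.2) / n) = d ∧ IsUnit4 (w - z) := by
        have e1 : ∀ X : ℤ, ∀ Y : ℤ, ∀ r r' : ℤ, 0 ≤ r → r < n → 0 ≤ r' → r' < n →
            (((n * X + r + o.1, n * Y + r' + o.2) : ℤ × ℤ).1 - o.1) / n = X ∧
            (((n * X + r + o.1, n * Y + r' + o.2) : ℤ × ℤ).2 - o.2) / n = Y := by
          intro X Y r r' g1 g2 g3 g4
          constructor
          · simp only [add_sub_cancel_right]; exact Pool.Agent.H5.FM.qr_div g1 g2
          · simp only [add_sub_cancel_right]; exact Pool.Agent.H5.FM.qr_div g3 g4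
        have hb := unit_cases hbd.1
        obtain ⟨bx, bz⟩ := b
        obtain ⟨dx, dy⟩ := d
        simp only at hb
        rcases hb with ⟨g1, g2⟩ | ⟨g1, g2⟩ | ⟨g1, g2⟩ | ⟨g1, g2⟩
        · refine ⟨(n * bx + (n - 1) + o.1, n * bz + 0 + o.2), (n * dx + 0 + o.1, n * dy + 0 + o.2),
            ?_, ?_, ?_⟩
          · obtain ⟨k1, k2⟩ := e1 bx bz (n - 1) 0 (by omega) (by omega) le_rfl hn
            rw [k1, k2]
          · obtain ⟨k1, k2⟩ := e1 dx dy 0 0 le_rfl hn le_rfl hn
            rw [k1, k2]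
          · left
            rw [g1, g2]
            refine Prod.ext ?_ ?_
            · simp only [Prod.mk_sub_mk]; ring
            · simp only [Prod.mk_sub_mk]; ring
        · refine ⟨(n * bx + 0 + o.1, n * bz + (n - 1) + o.2), (n * dx + 0 + o.1, n * dy + 0 + o.2),
            ?_, ?_, ?_⟩
          · obtain ⟨k1, k2⟩ := e1 bx bz 0 (n - 1) le_rfl hn (by omega) (by omega)
            rw [k1, k2]
          · obtain ⟨k1, k2⟩ := e1 dx dy 0 0 le_rfl hn le_rfl hn
            rw [k1, k2]
          · right; left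
            rw [g1, g2]
            refine Prod.ext ?_ ?_
            · simp only [Prod.mk_sub_mk]; ring
            · simp only [Prod.mk_sub_mk]; ring
        · refine ⟨(n * bx + 0 + o.1, n * bz + 0 + o.2), (n * dx + (n - 1) + o.1, n * dy + 0 + o.2),
            ?_, ?_, ?_⟩
          · obtain ⟨k1, k2⟩ := e1 bx bz 0 0 le_rfl hn le_rfl hn
            rw [k1, k2]
          · obtain ⟨k1, k2⟩ := e1 dx dy (n - 1) 0 (by omega) (by omega) le_rfl hn
            rw [k1, k2]
          · right; right; left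
            rw [g1, g2]
            refine Prod.ext ?_ ?_
            · simp only [Prod.mk_sub_mk]; ring
            · simp only [Prod.mk_sub_mk]; ring
        · refine ⟨(n * bx + 0 + o.1, n * bz + 0 + o.2), (n * dx + 0 + o.1, n * dy + (n - 1) + o.2),
            ?_, ?_, ?_⟩
          · obtain ⟨k1, k2⟩ := e1 bx bz 0 0 le_rfl hn le_rfl hn
            rw [k1, k2]
          · obtain ⟨k1, k2⟩ := e1 dx dy 0 (n - 1) le_rfl hn (by omega) (by omega)
            rw [k1, k2]
          · right; right; right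
            rw [g1, g2]
            refine Prod.ext ?_ ?_
            · simp only [Prod.mk_sub_mk]; ring
            · simp only [Prod.mk_sub_mk]; ring
      have s1 := ih ht hz
      have qz : D.tp n o z = some q := by unfold tp; rw [hz]; exact hbd.2.1
      have qw : D.tp n o w = some q := by unfold tp; rw [hw]; exact hbd.2.2
      refine (s1.tail ⟨hzw, qz, qw⟩).trans ((ch_cell hn hw ht').mono fun a ha => ?_)
      unfold tp
      rw [ha]; exact hbd.2.2
  exact key (D.plate_ch h h') h rfl rfl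

/-- **a solid open plate joins its vertices** -/
theorem plate_co {n : ℤ} (hn : 0 < n) {o : ℤ × ℤ} {q : ℕ × ℤ} {W : Finset (ℤ × ℤ)}
    (hW : ∀ t, D.tp n o t = some q → lt t ∈ W) {t t' p p' : ℤ × ℤ} (h : D.tp n o t = some q)
    (h' : D.tp n o t' = some q) (hp : Cn t p) (hp' : Cn t' p') (e : (p.1 + p.2) % 2 = 0)
    (e' : (p'.1 + p'.2) % 2 = 0) : Co W (V p) (V p') :=
  (D.tp_ch hn h h').co hW h hp e p' hp' e'

/-- **a solid closed plate joins its faces** -/
theorem plate_dco {n : ℤ} (hn : 0 < n) {o : ℤ × ℤ} {q : ℕ × ℤ} {W : Finset (ℤ × ℤ)}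
    (hW : ∀ t, D.tp n o t = some q → lt t ∉ W) {t t' p p' : ℤ × ℤ} (h : D.tp n o t = some q)
    (h' : D.tp n o t' = some q) (hp : Cn t p) (hp' : Cn t' p') (e : (p.1 + p.2) % 2 = 1)
    (e' : (p'.1 + p'.2) % 2 = 1) : DCo W (Fc p) (Fc p') :=
  (D.tp_ch hn h h').dco hW h hp e p' hp' e'

end RG

end Pool.Agent.H65.G
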