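import Mathlib
import Pool.Agent.H65.G.PlConn
import Pool.Agent.H68.G.RingP
import Pool.Agent.H13.Sp.Pos

set_option autoImplicit false
open Finset

/-!
# The plates along the boundary of the room (Route W, W-G, R3b)

Plates are numbered by `p : ℤ`, period `8 n2`, counterclockwise from the first plate `(0, -n2)` of the bottom
side: `plt p`. `PP k` : number of the plate at the position `k` (`H13/Sp/Pos`) of the window `(D.cw s).win n`;
`PP` is nondecreasing with steps `0` or `1`, and `colp k = s (plt (PP k))`.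
-/

namespace Pool.Agent.H65.G

open Pool.Agent.Q1.M4 (Cell)
open Pool.Agent.H5.FM
open Pool.Agent.H46.Sp (Win mm MM)
open Pool.Agent.H74.Win (InP natc sh)
open Pool.Agent.H13.Sp (nP colq colp nP_pos)
open Pool.Agent.H68.G (plt_add)

namespace RG

variable (D : RG)

/-- number of a plate -/
def ixp (q : ℕ × ℤ) : ℤ := 2 * D.n2 * q.1 + q.2 + D.n2

lemma plt_add' (p z : ℤ) : D.plt (p + 8 * D.n2 * z) = D.plt p := by
  unfold plt
  rw [Int.add_mul_emod_self_left]
  congr 1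
  have e : p + 8 * (D.n2 : ℤ) * z = p + 2 * D.n2 * (4 * z) := by ring
  rw [e, Int.add_mul_emod_self_left]

lemma plt_ixp {q : ℕ × ℤ} (h1 : q.1 < 4) (h2 : -(D.n2 : ℤ) ≤ q.2) (h3 : q.2 < D.n2) :
    D.plt (D.ixp q) = q := by
  have hn := D.n2Z
  obtain ⟨k, K⟩ := q
  simp only at h1 h2 h3
  have h4 : (k : ℤ) < 4 := by exact_mod_cast h1
  have h5 : 2 * (D.n2 : ℤ) * k ≤ 2 * D.n2 * 3 := mul_le_mul_of_nonneg_left (by omega) (by omega)
  have h6 : 0 ≤ 2 * (D.n2 : ℤ) * k := by positivity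
  have e0 : D.ixp (k, K) = 2 * D.n2 * k + (K + D.n2) := by unfold ixp; ring
  unfold plt
  rw [e0]
  have e1 : (2 * (D.n2 : ℤ) * k + (K + D.n2)) % (8 * D.n2) = 2 * D.n2 * k + (K + D.n2) :=
    Int.emod_eq_of_lt (by omega) (by omega)
  have e2 : (2 * (D.n2 : ℤ) * k + (K + D.n2)) / (2 * D.n2) = k := qr_div (by omega) (by omega)
  have e3 : (2 * (D.n2 : ℤ) * k + (K + D.n2)) % (2 * D.n2) = K + D.n2 := qr_mod (by omega) (by omega)
  rw [e1, e2, e3, Int.toNat_natCast, add_sub_cancel_right]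

/-- number of the plate on the left of the row `Y` -/
def nl (Y : ℤ) : ℤ :=
  if Y < 2 * D.n2 - 1 then 8 * D.n2 + (2 * D.n2 - 2 - Y) else 7 * D.n2 + D.K (D.N - D.τ - 1 - Y)

/-- number of the plate on the right of the row `Y` -/
def nr (Y : ℤ) : ℤ := D.nl (D.HR - 1 - Y) - 4 * D.n2

lemma plt_nl {Y : ℤ} (h0 : 0 ≤ Y) (h1 : Y < D.HR) : D.plt (D.nl Y) = D.PL Y := by
  have hn := D.n2Z
  have hτ := D.τZ
  unfold HR at h1
  unfold nl PL
  by_cases h : Y < 2 * (D.n2 : ℤ) - 1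
  · rw [if_pos h, if_pos h]
    have e : 8 * (D.n2 : ℤ) + (2 * D.n2 - 2 - Y) = D.ixp (0, D.n2 - 2 - Y) + 8 * D.n2 := by
      unfold ixp; push_cast; ring
    rw [e, Pool.Agent.H68.G.plt_add]
    exact D.plt_ixp (by norm_num) (by simp only; omega) (by simp only; omega)
  · rw [if_neg h, if_neg h]
    have e : 7 * (D.n2 : ℤ) + D.K (D.N - D.τ - 1 - Y) = D.ixp (3, D.K (D.N - D.τ - 1 - Y)) := by
      unfold ixp; push_cast; ring
    rw [e]
    have hK := D.K_bounds (x := D.N - D.τ - 1 - Y) (by omega) (by omega)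
    exact D.plt_ixp (by norm_num) (by simp only; omega) (by simp only; omega)

/-- opposite plates -/
lemma plt_flip (p : ℤ) : D.plt (p - 4 * D.n2) = flip (D.plt p) := by
  have hn := D.n2Z
  -- quotient and remainder
  obtain ⟨a, r, hp, h0, h1⟩ := exists_qr (N := 2 * (D.n2 : ℤ)) (by omega) p
  obtain ⟨b, k, ha, k0, k1⟩ := exists_qr (N := (4 : ℤ)) (by omega) a
  have e1 : p = 8 * D.n2 * b + (2 * D.n2 * k + r) := by rw [hp, ha]; ring
  have hk : 2 * (D.n2 : ℤ) * k ≤ 2 * D.n2 * 3 := mul_le_mul_of_nonneg_left (by omega) (by omega)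
  have hk0 : 0 ≤ 2 * (D.n2 : ℤ) * k := by positivity
  have f1 : D.plt p = (k.toNat, r - D.n2) := by
    unfold plt
    have g1 : p % (8 * D.n2) = 2 * D.n2 * k + r := by
      rw [e1]; exact qr_mod (by omega) (by omega)
    have g2 : p % (2 * D.n2) = r := by rw [hp]; exact qr_mod h0 h1
    rw [g1, g2, qr_div h0 h1]
  have f2 : D.plt (p - 4 * D.n2) = (((k + 2) % 4).toNat, r - D.n2) := by
    unfold plt
    have g2 : (p - 4 * D.n2) % (2 * D.n2) = r := by
      have : p - 4 * (D.n2 : ℤ) = 2 * D.n2 * (a - 2) + r := by rw [hp]; ring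
      rw [this]; exact qr_mod h0 h1
    rw [g2]
    congr 2
    by_cases h : 2 ≤ k
    · have h2 : 2 * (D.n2 : ℤ) * (k - 2) ≤ 2 * D.n2 * 1 := mul_le_mul_of_nonneg_left (by omega) (by omega)
      have h3 : 0 ≤ 2 * (D.n2 : ℤ) * (k - 2) := by
        apply mul_nonneg <;> omega
      have g1 : (p - 4 * D.n2) % (8 * D.n2) = 2 * D.n2 * (k - 2) + r := by
        have : p - 4 * (D.n2 : ℤ) = 8 * D.n2 * b + (2 * D.n2 * (k - 2) + r) := by rw [e1]; ring
        rw [this]; exact qr_mod (by omega) (by omega)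
      rw [g1, qr_div h0 h1]
      omega
    · have h2 : 2 * (D.n2 : ℤ) * (k + 2) ≤ 2 * D.n2 * 3 := mul_le_mul_of_nonneg_left (by omega) (by omega)
      have h3 : 0 ≤ 2 * (D.n2 : ℤ) * (k + 2) := by
        apply mul_nonneg <;> omega
      have g1 : (p - 4 * D.n2) % (8 * D.n2) = 2 * D.n2 * (k + 2) + r := by
        have : p - 4 * (D.n2 : ℤ) = 8 * D.n2 * (b - 1) + (2 * D.n2 * (k + 2) + r) := by rw [e1]; ring
        rw [this]; exact qr_mod (by omega) (by omega)
      rw [g1, qr_div h0 h1]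
      omega
  rw [f1, f2]
  unfold flip
  simp only
  congr 1
  omega

lemma plt_nr {Y : ℤ} (h0 : 0 ≤ Y) (h1 : Y < D.HR) : D.plt (D.nr Y) = D.PR Y := by
  unfold nr PR
  rw [plt_flip, D.plt_nl (by omega) (by omega)]

lemma nl_step {Y : ℤ} (_h0 : 0 ≤ Y) (_h1 : Y + 1 < D.HR) :
    D.nl (Y + 1) ≤ D.nl Y ∧ D.nl Y ≤ D.nl (Y + 1) + 1 := by
  have hn := D.n2Z
  have hτ := D.τZ
  have hM := D.MZ
  have ht := D.thinZ
  have hNM := D.NM
  have hNZ := D.NZ
  unfold nl
  by_cases c1 : Y + 1 < 2 * (D.n2 : ℤ) - 1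
  · rw [if_pos c1, if_pos (by omega)]; omega
  · by_cases c2 : Y < 2 * (D.n2 : ℤ) - 1
    · rw [if_neg c1, if_pos c2]
      have h3 : Y = 2 * D.n2 - 2 := by omega
      have h4 : D.K (D.N - D.τ - 1 - (Y + 1)) = D.n2 - 1 := by
        unfold K
        rw [Pool.Agent.H50.W.dv hM, h3, hNZ]
        have e : (D.M : ℤ) * (D.n2 - 1) = D.n2 * D.M - D.M := by ring
        rw [e]
        omega
      rw [h4]
      omega
    · rw [if_neg c1, if_neg c2]
      have k1 := D.K_mono (x := D.N - D.τ - 1 - (Y + 1)) (x' := D.N - D.τ - 1 - Y) (by omega)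
      have k2 : D.K (D.N - D.τ - 1 - Y) ≤ D.K (D.N - D.τ - 1 - (Y + 1)) + 1 := by
        have : D.K (D.N - D.τ - 1 - (Y + 1)) + 1 = D.K (D.N - D.τ - 1 - (Y + 1) + D.M) := by
          unfold K
          rw [Int.add_ediv_of_dvd_right (dvd_refl _), Int.ediv_self hM.ne']
        rw [this]
        exact D.K_mono (by omega)
      omega

lemma nl_0 : D.nl 0 = 10 * D.n2 - 2 := by
  have hn := D.n2Z
  unfold nl
  rw [if_pos (by omega)]
  ring

lemma nl_top : D.nl (D.HR - 1) = 6 * D.n2 := by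
  have hn := D.n2Z
  have hτ := D.τZ
  have hM := D.MZ
  have ht := D.thinZ
  have hNM := D.NM
  have hNZ := D.NZ
  unfold nl HR
  rw [if_neg (by omega)]
  have h4 : D.K (D.N - D.τ - 1 - (2 * D.N - 2 * D.τ - 1)) = -D.n2 := by
    unfold K
    rw [Pool.Agent.H50.W.dv hM, hNZ]
    have e : (D.M : ℤ) * (-D.n2) = -(D.n2 * D.M) := by ring
    rw [e]
    omega
  rw [h4]
  ring

lemma nr_step {Y : ℤ} (h0 : 0 ≤ Y) (h1 : Y + 1 < D.HR) :
    D.nr Y ≤ D.nr (Y + 1) ∧ D.nr (Y + 1) ≤ D.nr Y + 1 := by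
  unfold nr
  have := D.nl_step (Y := D.HR - 1 - (Y + 1)) (by omega) (by omega)
  rw [show D.HR - 1 - (Y + 1) + 1 = D.HR - 1 - Y by ring] at this
  omega

lemma nr_0 : D.nr 0 = 2 * D.n2 := by
  unfold nr
  rw [sub_zero, nl_top]
  ring

lemma nr_top : D.nr (D.HR - 1) = 6 * D.n2 - 2 := by
  unfold nr
  rw [sub_self, nl_0]
  ring

/-! ### Positions -/

section pos

variable (n : ℤ)

/-- row of the plate on the right at the height `y` -/
def ρr (y : ℤ) : ℤ := if y < n * (D.HR - (D.M - D.τ)) then (y + 1) / n else y / n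

/-- row of the plate on the left at the height `y` -/
def ρl (y : ℤ) : ℤ := if y + 1 < n * (D.M - D.τ) then (y + 1) / n else y / n

/-- plate number of a position between `0` and `2h + 3` -/
def pq (k : ℤ) : ℤ :=
  if k = 0 then 2 * D.n2 - 1 else if k ≤ n * D.HR + 1 then D.nr (D.ρr n (k - 2))
  else if k = n * D.HR + 2 then 6 * D.n2 - 1 else D.nl (D.ρl n (2 * (n * D.HR) + 2 - k))

/-- **plate number of a position** -/
def PP (k : ℤ) : ℤ :=
  D.pq n (k % (2 * (n * D.HR) + 4)) + 8 * D.n2 * (k / (2 * (n * D.HR) + 4))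

variable {n}

lemma HR_pos : 0 < D.HR := by
  have ht := D.thinZ
  have hNM := D.NM
  have hn := D.n2Z
  have hM := D.MZ
  have hτ := D.τZ
  unfold HR; omega

lemma YP_bd : 0 < (D.M : ℤ) - D.τ ∧ (D.M : ℤ) - D.τ < D.HR ∧ 0 < D.HR - ((D.M : ℤ) - D.τ) := by
  have ht := D.thinZ
  have hNM := D.NM
  have hn := D.n2Z
  have hM := D.MZ
  have hτ := D.τZ
  unfold HR; omega

lemma div_step (hn : 0 < n) (y : ℤ) : y / n ≤ (y + 1) / n ∧ (y + 1) / n ≤ y / n + 1 := by
  constructor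
  · exact Int.ediv_le_ediv hn (by omega)
  · have : y / n + 1 = (y + n) / n := by
      rw [Int.add_ediv_of_dvd_right (dvd_refl _), Int.ediv_self hn.ne']
    rw [this]
    exact Int.ediv_le_ediv hn (by omega)

/-- rows of the right side -/
lemma ρr_bd (hn : 0 < n) {y : ℤ} (h0 : -1 ≤ y) (h1 : y < n * D.HR) :
    0 ≤ D.ρr n y ∧ D.ρr n y < D.HR := by
  have hH := D.YP_bd
  have hr : ∀ t : ℤ, 0 ≤ t → t < n * D.HR → 0 ≤ t / n ∧ t / n < D.HR := fun t g0 g1 =>
    ⟨Int.ediv_nonneg g0 hn.le, by rw [Int.ediv_lt_iff_lt_mul hn, mul_comm]; exact g1⟩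
  have h2 : n * (D.HR - (D.M - D.τ)) < n * D.HR := mul_lt_mul_of_pos_left (by omega) hn
  have h3 : 0 < n * (D.HR - (D.M - D.τ)) := mul_pos hn (by omega)
  unfold ρr
  split_ifs with h
  · exact hr _ (by omega) (by omega)
  · exact hr _ (by omega) (by omega)

lemma ρl_bd (hn : 0 < n) {y : ℤ} (h0 : -1 ≤ y) (h1 : y < n * D.HR) :
    0 ≤ D.ρl n y ∧ D.ρl n y < D.HR := by
  have hH := D.YP_bd
  have hr : ∀ t : ℤ, 0 ≤ t → t < n * D.HR → 0 ≤ t / n ∧ t / n < D.HR := fun t g0 g1 =>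
    ⟨Int.ediv_nonneg g0 hn.le, by rw [Int.ediv_lt_iff_lt_mul hn, mul_comm]; exact g1⟩
  have h2 : n * (D.M - D.τ) < n * D.HR := mul_lt_mul_of_pos_left (by omega) hn
  have h3 : 0 < n * ((D.M : ℤ) - D.τ) := mul_pos hn (by omega)
  unfold ρl
  split_ifs with h
  · exact hr _ (by omega) (by omega)
  · exact hr _ (by omega) (by omega)

lemma ρr_step (hn : 0 < n) (y : ℤ) : D.ρr n y ≤ D.ρr n (y + 1) ∧ D.ρr n (y + 1) ≤ D.ρr n y + 1 := by
  have a1 := div_step hn y
  have a2 := div_step hn (y + 1)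
  unfold ρr
  split_ifs <;> omega

lemma ρl_step (hn : 0 < n) (y : ℤ) : D.ρl n y ≤ D.ρl n (y + 1) ∧ D.ρl n (y + 1) ≤ D.ρl n y + 1 := by
  have a1 := div_step hn y
  have a2 := div_step hn (y + 1)
  unfold ρl
  split_ifs <;> omega

lemma ρr_bot (hn : 0 < n) : D.ρr n (-1) = 0 := by
  have hH := D.YP_bd
  have h3 : 0 < n * (D.HR - (D.M - D.τ)) := mul_pos hn (by omega)
  unfold ρr
  rw [if_pos (by omega)]
  simp

lemma ρl_bot (hn : 0 < n) : D.ρl n (-1) = 0 := by
  have hH := D.YP_bd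
  have h3 : 0 < n * ((D.M : ℤ) - D.τ) := mul_pos hn (by omega)
  unfold ρl
  rw [if_pos (by omega)]
  simp

lemma top_div (hn : 0 < n) : (n * D.HR - 1) / n = D.HR - 1 := by
  have e : n * D.HR - 1 = n * (D.HR - 1) + (n - 1) := by ring
  rw [e]
  exact qr_div (by omega) (by omega)

lemma ρr_top (hn : 0 < n) : D.ρr n (n * D.HR - 1) = D.HR - 1 := by
  have hH := D.YP_bd
  have h3 : n * (D.HR - (D.M - D.τ)) + n ≤ n * D.HR := mul_gap hn (by omega)
  unfold ρr
  rw [if_neg (by omega)]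
  exact D.top_div hn

lemma ρl_top (hn : 0 < n) : D.ρl n (n * D.HR - 1) = D.HR - 1 := by
  have hH := D.YP_bd
  have h3 : n * (D.M - D.τ) + n ≤ n * D.HR := mul_gap hn (by omega)
  unfold ρl
  rw [if_neg (by omega)]
  exact D.top_div hn

/-- steps of the numbers on the right side -/
lemma nr_ρ (hn : 0 < n) {y : ℤ} (h0 : -1 ≤ y) (h1 : y + 1 < n * D.HR) :
    D.nr (D.ρr n y) ≤ D.nr (D.ρr n (y + 1)) ∧ D.nr (D.ρr n (y + 1)) ≤ D.nr (D.ρr n y) + 1 := by
  have a1 := D.ρr_step hn y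
  have a2 := D.ρr_bd hn (y := y) h0 (by omega)
  have a3 := D.ρr_bd hn (y := y + 1) (by omega) h1
  rcases eq_or_lt_of_le a1.1 with h | h
  · rw [← h]; omega
  · have h4 : D.ρr n (y + 1) = D.ρr n y + 1 := by omega
    rw [h4]
    exact D.nr_step a2.1 (by omega)

lemma nl_ρ (hn : 0 < n) {y : ℤ} (h0 : -1 ≤ y) (h1 : y + 1 < n * D.HR) :
    D.nl (D.ρl n (y + 1)) ≤ D.nl (D.ρl n y) ∧ D.nl (D.ρl n y) ≤ D.nl (D.ρl n (y + 1)) + 1 := by
  have a1 := D.ρl_step hn y
  have a2 := D.ρl_bd hn (y := y) h0 (by omega)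
  have a3 := D.ρl_bd hn (y := y + 1) (by omega) h1
  rcases eq_or_lt_of_le a1.1 with h | h
  · rw [← h]; omega
  · have h4 : D.ρl n (y + 1) = D.ρl n y + 1 := by omega
    rw [h4]
    exact D.nl_step a2.1 (by omega)

/-- steps inside a period -/
lemma pq_step (hn : 0 < n) {k : ℤ} (h0 : 0 ≤ k) (h1 : k + 1 < 2 * (n * D.HR) + 4) :
    D.pq n k ≤ D.pq n (k + 1) ∧ D.pq n (k + 1) ≤ D.pq n k + 1 := by
  have hH : 0 < n * D.HR := mul_pos hn D.HR_pos
  unfold pq
  rcases eq_or_lt_of_le h0 with h | h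
  · subst h
    rw [if_pos rfl, zero_add, if_neg (by omega), if_pos (by omega), show (1 : ℤ) - 2 = -1 by norm_num,
      D.ρr_bot hn, D.nr_0]
    omega
  · rw [if_neg (by omega), if_neg (by omega : ¬ k + 1 = 0)]
    rcases lt_trichotomy (k + 1) (n * D.HR + 2) with h2 | h2 | h2
    · rw [if_pos (by omega), if_pos (by omega)]
      have := D.nr_ρ hn (y := k - 2) (by omega) (by omega)
      rwa [show k - 2 + 1 = k + 1 - 2 by ring] at this
    · rw [if_pos (by omega), if_neg (by omega), if_pos h2,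
        show k - 2 = n * D.HR - 1 by omega, D.ρr_top hn, D.nr_top]
      omega
    · rw [if_neg (by omega : ¬ k ≤ n * D.HR + 1), if_neg (by omega : ¬ k + 1 ≤ n * D.HR + 1),
        if_neg (by omega : ¬ k + 1 = n * D.HR + 2)]
      by_cases h3 : k = n * D.HR + 2
      · rw [if_pos h3, show 2 * (n * D.HR) + 2 - (k + 1) = n * D.HR - 1 by omega, D.ρl_top hn, D.nl_top]
        omega
      · rw [if_neg h3]
        have := D.nl_ρ hn (y := 2 * (n * D.HR) + 2 - (k + 1)) (by omega) (by omega)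
        rwa [show 2 * (n * D.HR) + 2 - (k + 1) + 1 = 2 * (n * D.HR) + 2 - k by ring] at this

lemma PP_add (hn : 0 < n) (k : ℤ) : D.PP n (k + (2 * (n * D.HR) + 4)) = D.PP n k + 8 * D.n2 := by
  have hH : 0 < n * D.HR := mul_pos hn D.HR_pos
  unfold PP
  rw [Int.add_emod_right, Int.add_ediv_of_dvd_right (dvd_refl _), Int.ediv_self (by omega)]
  ring

/-- value in the period -/
lemma PP_eq {k : ℤ} (h0 : 0 ≤ k) (h1 : k < 2 * (n * D.HR) + 4) : D.PP n k = D.pq n k := by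
  unfold PP
  rw [Int.emod_eq_of_lt h0 h1, Int.ediv_eq_zero_of_lt h0 h1, mul_zero, add_zero]

lemma PP_end (hn : 0 < n) : D.PP n (2 * (n * D.HR) + 4) = 10 * D.n2 - 1 := by
  have hH : 0 < n * D.HR := mul_pos hn D.HR_pos
  have := D.PP_add hn 0
  rw [zero_add] at this
  rw [this, D.PP_eq le_rfl (by omega)]
  unfold pq
  rw [if_pos rfl]
  ring

/-- **the plate numbers are nondecreasing with steps `0`, `1`** -/
theorem PP_step (hn : 0 < n) (k : ℤ) : D.PP n k ≤ D.PP n (k + 1) ∧ D.PP n (k + 1) ≤ D.PP n k + 1 := by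
  have hH : 0 < n * D.HR := mul_pos hn D.HR_pos
  have per : ∀ (z : ℤ) (j : ℤ), D.PP n (j + (2 * (n * D.HR) + 4) * z) = D.PP n j + 8 * D.n2 * z := by
    intro z j
    unfold PP
    rw [Int.add_mul_emod_self_left, Int.add_mul_ediv_left _ _ (by omega)]
    ring
  obtain ⟨z, r, hk, h0, h1⟩ := exists_qr (N := 2 * (n * D.HR) + 4) (by omega) k
  have e1 : k = r + (2 * (n * D.HR) + 4) * z := by rw [hk]; ring
  have e2 : k + 1 = r + 1 + (2 * (n * D.HR) + 4) * z := by rw [hk]; ring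
  rw [e2, e1, per, per]
  have key : D.PP n r ≤ D.PP n (r + 1) ∧ D.PP n (r + 1) ≤ D.PP n r + 1 := by
    by_cases h2 : r + 1 < 2 * (n * D.HR) + 4
    · rw [D.PP_eq h0 h1, D.PP_eq (by omega) h2]
      exact D.pq_step hn h0 h2
    · have h3 : r + 1 = 2 * (n * D.HR) + 4 := by omega
      rw [h3, D.PP_end hn, D.PP_eq h0 h1]
      unfold pq
      rw [if_neg (by omega), if_neg (by omega), if_neg (by omega),
        show 2 * (n * D.HR) + 2 - r = -1 by omega, D.ρl_bot hn, D.nl_0]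
      omega
  omega

end pos

section colour

variable (s : ℕ × ℤ → Bool) {n : ℤ} (h2 : 2 ≤ n) (he : n % 2 = 0)

lemma nP_win : nP ((D.cw s).win n h2 he) = 2 * (n * D.HR) + 4 := rfl

/-- **colour of a position = colour of its plate** -/
theorem colp_PP (k : ℤ) : colp ((D.cw s).win n h2 he) k = s (D.plt (D.PP n k)) := by
  have hn : 0 < n := by omega
  have hH : 0 < n * D.HR := mul_pos hn D.HR_pos
  have hn2 := D.n2Z
  have e0 : colp ((D.cw s).win n h2 he) k =
      colq ((D.cw s).win n h2 he) (k % (2 * (n * D.HR) + 4)) := rfl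
  rw [e0]
  unfold PP
  rw [D.plt_add']
  have b0 := Int.emod_nonneg k (show 2 * (n * D.HR) + 4 ≠ 0 by omega)
  have b1 := Int.emod_lt_of_pos k (show 0 < 2 * (n * D.HR) + 4 by omega)
  generalize k % (2 * (n * D.HR) + 4) = r at b0 b1
  unfold colq pq
  have hh : ((D.cw s).win n h2 he).h = n * D.HR := rfl
  rw [hh]
  by_cases c0 : r = 0
  · rw [if_pos c0, if_pos c0]
    have e : 2 * (D.n2 : ℤ) - 1 = D.ixp (0, D.n2 - 1) := by unfold ixp; push_cast; ring
    rw [e, D.plt_ixp (by norm_num) (by simp only; omega) (by simp only; omega)]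
    rfl
  rw [if_neg c0, if_neg c0]
  by_cases c1 : r ≤ n * D.HR + 1
  · rw [if_pos c1, if_pos c1]
    have b := D.ρr_bd hn (y := r - 2) (by omega) (by omega)
    rw [D.plt_nr b.1 b.2]
    show (D.cw s).wcr n (r - 2) = _
    have hQ : (D.cw s).YQ = D.HR - (D.M - D.τ) := rfl
    unfold CW.wcr ρr
    rw [hQ]
    split_ifs <;> rfl
  rw [if_neg c1, if_neg c1]
  by_cases c2 : r = n * D.HR + 2
  · rw [if_pos c2, if_pos c2]
    have e : 6 * (D.n2 : ℤ) - 1 = D.ixp (2, D.n2 - 1) := by unfold ixp; push_cast; ring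
    rw [e, D.plt_ixp (by norm_num) (by simp only; omega) (by simp only; omega)]
    rfl
  rw [if_neg c2, if_neg c2]
  have b := D.ρl_bd hn (y := 2 * (n * D.HR) + 2 - r) (by omega) (by omega)
  rw [D.plt_nl b.1 b.2]
  show (D.cw s).wcl n (2 * (n * D.HR) + 2 - r) = _
  have hP : (D.cw s).YP = D.M - D.τ := rfl
  unfold CW.wcl ρl
  rw [hP]
  split_ifs <;> rfl

end colour

end RG

end Pool.Agent.H65.G
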