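import Mathlib
import Pool.Agent.H65.G.PlPos
import Pool.Agent.H59.J.Arcs

set_option autoImplicit false
open Finset

/-!
# The plates at the convex corners of the room (Route W, W-G, R3b)

`ow n` : centre of the ring in the frame of the window. `t_left` … `t_top` : plate of a tile of the wall.
`PosR` : convex corner `q` (direction `i`) at the position `k` (text of 59).
`tile_pos` : the two outer tiles of the corner which are neighbours of the room lie in the plates of the positions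
`k - 1`, `k`.
-/

namespace Pool.Agent.H65.G

open Pool.Agent.Q1.M4 (Cell)
open Pool.Agent.H5.FM
open Pool.Agent.H46.Sp (Win mm MM)
open Pool.Agent.H74.Win (InP natc sh)
open Pool.Agent.H59.J (tl)

namespace RG

variable (D : RG) (s : ℕ × ℤ → Bool)

/-- centre of the ring in the frame of the window -/
def ow (n : ℤ) : ℤ × ℤ := (0, n * (D.N - D.τ))

lemma tp_ow {n : ℤ} (hn : 0 < n) (x y : ℤ) :
    D.tp n (D.ow n) (x, y) = D.rg (x / n, y / n - D.N + D.τ) := by
  unfold tp ow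
  simp only [sub_zero]
  have e : (y - n * (D.N - D.τ)) / n = y / n - (D.N - D.τ) := by
    rw [sub_eq_add_neg, ← mul_neg, Int.add_mul_ediv_left _ _ hn.ne']
    ring
  rw [e]
  congr 2
  ring

section tiles

variable {n : ℤ} (h2 : 2 ≤ n) {x y : ℤ}
include h2

lemma row_bd (h0 : 0 ≤ y) (h1 : y < n * D.HR) : 0 ≤ y / n ∧ y / n < D.HR :=
  ⟨Int.ediv_nonneg h0 (by omega), by rw [Int.ediv_lt_iff_lt_mul (by omega), mul_comm]; exact h1⟩

lemma t_left (h0 : 0 ≤ y) (h1 : y < n * D.HR) (hx : x = (D.cw s).wa n y - 1) :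
    D.tp n (D.ow n) (x, y) = some (D.PL (y / n)) := by
  have hn : (0 : ℤ) < n := by omega
  obtain ⟨r0, r1⟩ := D.row_bd h2 h0 h1
  rw [D.tp_ow hn]
  have wA : (D.cw s).wa n y = n * D.AL (y / n) - (D.cw s).dA n (y / n) (y % n) := rfl
  have a1 := CW.dA_01 (C := D.cw s) (N := n) (q := y / n) (r := y % n)
  rw [wA] at hx
  have e2 : x / n = D.AL (y / n) - 1 := by
    refine div_eq' hn ?_ ?_ <;> rw [mul_sub, mul_one] <;> omega
  rw [e2]
  exact D.rg_L r0 r1 (by omega) (Or.inl rfl)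

lemma t_right (h0 : 0 ≤ y) (h1 : y < n * D.HR) (hx : x = (D.cw s).wb n y) :
    D.tp n (D.ow n) (x, y) = some (D.PR (y / n)) := by
  have hn : (0 : ℤ) < n := by omega
  obtain ⟨r0, r1⟩ := D.row_bd h2 h0 h1
  rw [D.tp_ow hn]
  have wB : (D.cw s).wb n y = n * D.AR (y / n) + (D.cw s).dB n (y / n) (y % n) := rfl
  have a1 := CW.dB_01 (C := D.cw s) (N := n) (q := y / n) (r := y % n)
  rw [wB] at hx
  have e2 : x / n = D.AR (y / n) := by
    refine div_eq' hn ?_ ?_ <;> omega
  rw [e2]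
  exact D.rg_R r0 r1 le_rfl (Or.inl rfl)

lemma t_bot (g1 : (D.cw s).wa n 0 ≤ x) (g2 : x < (D.cw s).wb n 0) :
    D.tp n (D.ow n) (x, -1) = some (0, (D.n2 : ℤ) - 1) := by
  have hn : (0 : ℤ) < n := by omega
  set C := D.cw s with hC
  rw [D.tp_ow hn]
  have hP : (1 : ℤ) ≤ C.YP := C.P0
  have a1 : C.wa n 0 = n * D.AL 0 := by
    have := CW.wa_q0 (C := C) (N := n) (q := 0) hn
    rw [mul_zero] at this
    rw [this, CW.dA_lo (by omega) (by omega), sub_zero]
    rfl
  have b1 : C.wb n 0 = n * D.AR 0 := by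
    have := CW.wb_q0 (C := C) (N := n) (q := 0) hn
    rw [mul_zero] at this
    rw [this, CW.dB_lo C.Q0 (by omega), add_zero]
    rfl
  have e2 : (-1 : ℤ) / n = -1 := div_eq' hn (by omega) (by omega)
  rw [e2]
  refine D.rg_B ?_ ?_
  · rw [Int.le_ediv_iff_mul_le hn, mul_comm, ← a1]; exact g1
  · rw [Int.ediv_lt_iff_lt_mul hn, mul_comm, ← b1]; exact g2

lemma t_top (g1 : (D.cw s).wa n (n * D.HR - 1) ≤ x) (g2 : x < (D.cw s).wb n (n * D.HR - 1)) :
    D.tp n (D.ow n) (x, n * D.HR) = some (2, (D.n2 : ℤ) - 1) := by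
  have hn : (0 : ℤ) < n := by omega
  set C := D.cw s with hC
  rw [D.tp_ow hn]
  have hP1 : C.YP ≤ C.H := C.P1
  have hQ1 : C.YQ < C.H := C.Q1
  have hHC : C.H = D.HR := rfl
  have e2 : n * D.HR - 1 = n * (D.HR - 1) + (n - 1) := by ring
  have a1 : C.wa n (n * D.HR - 1) = n * D.AL (D.HR - 1) := by
    rw [e2, CW.wa_qr (by omega) (by omega), CW.dA_hi (by omega) (by omega), sub_zero]
    rfl
  have b1 : C.wb n (n * D.HR - 1) = n * D.AR (D.HR - 1) := by
    rw [e2, CW.wb_qr (by omega) (by omega), CW.dB_hi (by omega) (by omega), add_zero]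
    rfl
  have e3 : n * D.HR / n = D.HR := Int.mul_ediv_cancel_left _ hn.ne'
  have e4 : D.HR - D.N + D.τ = D.N - D.τ := by unfold HR; ring
  rw [e3, e4]
  refine D.rg_T ?_ ?_
  · rw [Int.le_ediv_iff_mul_le hn, mul_comm, ← a1]; exact g1
  · rw [Int.ediv_lt_iff_lt_mul hn, mul_comm, ← b1]; exact g2

lemma t_floorL (he : n % 2 = 0) (hy : 0 ≤ y) (h1 : y + 1 < n * D.HR) (g1 : (D.cw s).wa n (y + 1) ≤ x)
    (hx : x < (D.cw s).wa n y) : D.tp n (D.ow n) (x, y) = some (D.PL (y / n)) := by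
  by_cases hx1 : x = (D.cw s).wa n y - 1
  · exact D.t_left s h2 hy (by omega) hx1
  have hn : (0 : ℤ) < n := by omega
  set C := D.cw s with hC
  rw [D.tp_ow hn]
  obtain ⟨r0, r1⟩ := D.row_bd h2 hy (by omega : y < n * D.HR)
  obtain ⟨q, r, hyq, q0, q1⟩ := Pool.Agent.H5.FM.exists_qr hn y
  have hyd : y / n = q := by rw [hyq]; exact Pool.Agent.H5.FM.qr_div q0 q1
  have wA : ∀ y, C.wa n y = n * D.AL (y / n) - C.dA n (y / n) (y % n) := fun _ => rfl
  have h3 : y + 1 < n * C.YP := by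
    by_contra h3
    have := (CW.step_hi (C := C) h2 (y := y) (by omega) h1 he).1
    omega
  have a1 := CW.dA_01 (C := C) (N := n) (q := y / n) (r := y % n)
  have hr : r = n - 1 := by
    by_contra hr
    have hr1 : r + 1 < n := by omega
    have w1 := CW.wa_r1 (C := C) (N := n) (q := q) q0 hr1
    have w2 := CW.wa_qr (C := C) (N := n) (q := q) q0 q1
    have a2 := CW.dA_01 (C := C) (N := n) (q := q) (r := r + 1)
    have a3 := CW.dA_01 (C := C) (N := n) (q := q) (r := r)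
    rw [← hyq] at w1 w2
    omega
  have w1 : C.wa n (y + 1) = n * D.AL (q + 1) := by
    have w1 := CW.wa_q1 (C := C) (N := n) (q := q) hn
    rw [← hr, ← hyq] at w1
    rw [w1, CW.dA_lo ?_ (by omega), sub_zero]
    · rfl
    · refine (Pool.Agent.H5.FM.qr_lt (z := C.YP) (q := q + 1) (r := 0) (N := n) le_rfl hn).1 ?_
      rw [add_zero, mul_add, mul_one]
      omega
  rw [hyd]
  rw [hyd] at r0 r1 a1
  rw [w1] at g1
  rw [wA, hyd] at hx
  have hq1 : q + 1 < D.HR := by
    have : n * q + n < n * D.HR := by omega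
    by_contra h5
    have := mul_le_mul_of_nonneg_left (show D.HR ≤ q + 1 by omega) hn.le
    rw [mul_add, mul_one] at this
    omega
  refine D.rg_L r0 r1 ?_ (Or.inr (Or.inl ⟨hq1, ?_⟩))
  · rw [Int.ediv_lt_iff_lt_mul hn, mul_comm]; omega
  · rw [Int.le_ediv_iff_mul_le hn, mul_comm]; exact g1

lemma t_floorR (he : n % 2 = 0) (hy : 0 ≤ y) (h1 : y + 1 < n * D.HR) (g2 : x < (D.cw s).wb n (y + 1))
    (hx' : (D.cw s).wb n y ≤ x) : D.tp n (D.ow n) (x, y) = some (D.PR (y / n)) := by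
  by_cases hx1 : x = (D.cw s).wb n y
  · exact D.t_right s h2 hy (by omega) hx1
  have hn : (0 : ℤ) < n := by omega
  set C := D.cw s with hC
  rw [D.tp_ow hn]
  obtain ⟨r0, r1⟩ := D.row_bd h2 hy (by omega : y < n * D.HR)
  obtain ⟨q, r, hyq, q0, q1⟩ := Pool.Agent.H5.FM.exists_qr hn y
  have hyd : y / n = q := by rw [hyq]; exact Pool.Agent.H5.FM.qr_div q0 q1
  have wB : ∀ y, C.wb n y = n * D.AR (y / n) + C.dB n (y / n) (y % n) := fun _ => rfl
  have h3 : y < n * C.YQ := by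
    by_contra h3
    have := CW.wb_U (C := C) h2 (y := y) (by omega) h1
    omega
  have a1 := CW.dB_01 (C := C) (N := n) (q := y / n) (r := y % n)
  have hr : r = n - 1 := by
    by_contra hr
    have hr1 : r + 1 < n := by omega
    have w1 := CW.wb_r1 (C := C) (N := n) (q := q) q0 hr1
    have w2 := CW.wb_qr (C := C) (N := n) (q := q) q0 q1
    have a2 := CW.dB_01 (C := C) (N := n) (q := q) (r := r + 1)
    have a3 := CW.dB_01 (C := C) (N := n) (q := q) (r := r)
    rw [← hyq] at w1 w2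
    omega
  have hq : q < C.YQ := by
    rw [hyq] at h3
    exact (Pool.Agent.H5.FM.qr_lt q0 q1).1 h3
  have w1 : C.wb n (y + 1) = n * D.AR (q + 1) := by
    have w1 := CW.wb_q1 (C := C) (N := n) (q := q) hn
    rw [← hr, ← hyq] at w1
    rw [w1, CW.dB_lo (by omega) (by omega), add_zero]
    rfl
  rw [hyd]
  rw [hyd] at r0 r1 a1
  rw [w1] at g2
  rw [wB, hyd] at hx'
  have hq1 : q + 1 < D.HR := by
    have : n * q + n < n * D.HR := by omega
    by_contra h5
    have := mul_le_mul_of_nonneg_left (show D.HR ≤ q + 1 by omega) hn.le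
    rw [mul_add, mul_one] at this
    omega
  refine D.rg_R r0 r1 ?_ (Or.inr (Or.inl ⟨hq1, ?_⟩))
  · rw [Int.le_ediv_iff_mul_le hn, mul_comm]; omega
  · rw [Int.ediv_lt_iff_lt_mul hn, mul_comm]; exact g2

lemma t_ceilL (hy1 : 1 ≤ y) (hy : y < n * D.HR) (g1 : (D.cw s).wa n (y - 1) ≤ x)
    (hx : x < (D.cw s).wa n y) : D.tp n (D.ow n) (x, y) = some (D.PL (y / n)) := by
  by_cases hx1 : x = (D.cw s).wa n y - 1
  · exact D.t_left s h2 (by omega) hy hx1
  have hn : (0 : ℤ) < n := by omega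
  set C := D.cw s with hC
  rw [D.tp_ow hn]
  obtain ⟨r0, r1⟩ := D.row_bd h2 (by omega : 0 ≤ y) hy
  obtain ⟨q, r, hyq, q0, q1⟩ := Pool.Agent.H5.FM.exists_qr hn y
  have hyd : y / n = q := by rw [hyq]; exact Pool.Agent.H5.FM.qr_div q0 q1
  have wA : ∀ y, C.wa n y = n * D.AL (y / n) - C.dA n (y / n) (y % n) := fun _ => rfl
  have h3 : n * C.YP ≤ y := by
    by_contra h3
    have := CW.wa_L (C := C) h2 (y := y - 1) (by omega) (by omega)
    rw [sub_add_cancel] at this
    omega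
  have hq : C.YP ≤ q := by
    rw [hyq] at h3
    exact (Pool.Agent.H5.FM.qr_le q0 q1).1 h3
  have a1 := CW.dA_01 (C := C) (N := n) (q := y / n) (r := y % n)
  have hr : r = 0 := by
    by_contra hr
    have w1 := CW.wa_qr (C := C) (N := n) (q := q) (r := r - 1) (by omega) (by omega)
    have w2 := CW.wa_qr (C := C) (N := n) (q := q) q0 q1
    have a2 := CW.dA_01 (C := C) (N := n) (q := q) (r := r - 1)
    have a3 := CW.dA_01 (C := C) (N := n) (q := q) (r := r)
    rw [show n * q + (r - 1) = y - 1 by omega] at w1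
    rw [← hyq] at w2
    omega
  have w1 : C.wa n (y - 1) = n * D.AL (q - 1) := by
    have w1 := CW.wa_qr (C := C) (N := n) (q := q - 1) (r := n - 1) (by omega) (by omega)
    rw [show n * (q - 1) + (n - 1) = y - 1 by rw [hyq, hr]; ring] at w1
    rw [w1, CW.dA_hi (by omega) (by omega), sub_zero]
    rfl
  have hP : (1 : ℤ) ≤ C.YP := C.P0
  rw [hyd]
  rw [hyd] at r0 r1 a1
  rw [w1] at g1
  rw [wA, hyd] at hx
  refine D.rg_L r0 r1 ?_ (Or.inr (Or.inr ⟨by omega, ?_⟩))
  · rw [Int.ediv_lt_iff_lt_mul hn, mul_comm]; omega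
  · rw [Int.le_ediv_iff_mul_le hn, mul_comm]; exact g1

lemma t_ceilR (he : n % 2 = 0) (hy1 : 1 ≤ y) (hy : y < n * D.HR) (g2 : x < (D.cw s).wb n (y - 1))
    (hx' : (D.cw s).wb n y ≤ x) : D.tp n (D.ow n) (x, y) = some (D.PR (y / n)) := by
  by_cases hx1 : x = (D.cw s).wb n y
  · exact D.t_right s h2 (by omega) hy hx1
  have hn : (0 : ℤ) < n := by omega
  set C := D.cw s with hC
  rw [D.tp_ow hn]
  obtain ⟨r0, r1⟩ := D.row_bd h2 (by omega : 0 ≤ y) hy
  obtain ⟨q, r, hyq, q0, q1⟩ := Pool.Agent.H5.FM.exists_qr hn y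
  have hyd : y / n = q := by rw [hyq]; exact Pool.Agent.H5.FM.qr_div q0 q1
  have wB : ∀ y, C.wb n y = n * D.AR (y / n) + C.dB n (y / n) (y % n) := fun _ => rfl
  have h3 : n * C.YQ < y := by
    by_contra h3
    have := (CW.stepR_lo (C := C) h2 (z := y - 1) (by omega) (by omega) he).1
    rw [sub_add_cancel] at this
    omega
  have hq : C.YQ ≤ q := by
    rw [hyq] at h3
    exact (Pool.Agent.H5.FM.qr_le q0 q1).1 h3.le
  have a1 := CW.dB_01 (C := C) (N := n) (q := y / n) (r := y % n)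
  have hr : r = 0 := by
    by_contra hr
    have w1 := CW.wb_qr (C := C) (N := n) (q := q) (r := r - 1) (by omega) (by omega)
    have w2 := CW.wb_qr (C := C) (N := n) (q := q) q0 q1
    have a2 := CW.dB_01 (C := C) (N := n) (q := q) (r := r - 1)
    have a3 := CW.dB_01 (C := C) (N := n) (q := q) (r := r)
    rw [show n * q + (r - 1) = y - 1 by omega] at w1
    rw [← hyq] at w2
    omega
  have hq' : C.YQ < q := by
    by_contra h5
    have h6 : q = C.YQ := by omega
    rw [hyq, hr, h6] at h3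
    omega
  have w1 : C.wb n (y - 1) = n * D.AR (q - 1) := by
    have w1 := CW.wb_qr (C := C) (N := n) (q := q - 1) (r := n - 1) (by omega) (by omega)
    rw [show n * (q - 1) + (n - 1) = y - 1 by rw [hyq, hr]; ring] at w1
    rw [w1, CW.dB_hi (by omega) (by omega), add_zero]
    rfl
  have hQ0 := C.Q0
  rw [hyd]
  rw [hyd] at r0 r1 a1
  rw [w1] at g2
  rw [wB, hyd] at hx'
  refine D.rg_R r0 r1 ?_ (Or.inr (Or.inr ⟨by omega, ?_⟩))
  · rw [Int.le_ediv_iff_mul_le hn, mul_comm]; omega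
  · rw [Int.ediv_lt_iff_lt_mul hn, mul_comm]; exact g2

end tiles

/-- a convex corner of the room at the position `k` (text of 59) -/
def PosR (D : Win) (q : ℤ × ℤ) (i k : ℤ) : Prop :=
  (∃ z, 0 ≤ z ∧ z < D.yP ∧ (0 < z → D.a z < D.a (z - 1)) ∧ q = (D.a z, z) ∧ i = 2 ∧
    k = 2 * D.h + 4 - z) ∨
  (∃ z, D.yP ≤ z ∧ z ≤ D.h ∧ (z < D.h → D.a (z - 1) < D.a z) ∧ q = (D.a (z - 1), z) ∧ i = 1 ∧
    k = 2 * D.h + 3 - z) ∨
  (∃ z, 0 ≤ z ∧ z ≤ D.yQ ∧ (0 < z → D.b (z - 1) < D.b z) ∧ q = (D.b z, z) ∧ i = 3 ∧ k = z + 1) ∨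
  (∃ z, D.yQ < z ∧ z ≤ D.h ∧ (z < D.h → D.b z < D.b (z - 1)) ∧ q = (D.b (z - 1), z) ∧ i = 0 ∧
    k = z + 2)

lemma pl_bot : D.plt (2 * D.n2 - 1) = (0, (D.n2 : ℤ) - 1) := by
  have hn2 := D.n2Z
  have e : 2 * (D.n2 : ℤ) - 1 = D.ixp (0, D.n2 - 1) := by unfold ixp; push_cast; ring
  rw [e, D.plt_ixp (by norm_num) (by simp only; omega) (by simp only; omega)]

lemma pl_top : D.plt (6 * D.n2 - 1) = (2, (D.n2 : ℤ) - 1) := by
  have hn2 := D.n2Z
  have e : 6 * (D.n2 : ℤ) - 1 = D.ixp (2, D.n2 - 1) := by unfold ixp; push_cast; ring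
  rw [e, D.plt_ixp (by norm_num) (by simp only; omega) (by simp only; omega)]

section vals

variable {n : ℤ} (hn : 0 < n)
include hn

/-- plate of a position on the right side -/
lemma pl_r {k : ℤ} (h0 : 1 ≤ k) (h1 : k ≤ n * D.HR + 1) : D.plt (D.PP n k) = D.PR (D.ρr n (k - 2)) := by
  have hH : 0 < n * D.HR := mul_pos hn D.HR_pos
  rw [D.PP_eq (by omega) (by omega)]
  unfold pq
  rw [if_neg (by omega), if_pos h1]
  have b := D.ρr_bd hn (y := k - 2) (by omega) (by omega)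
  exact D.plt_nr b.1 b.2

/-- plate of a position on the left side -/
lemma pl_l {k : ℤ} (h0 : n * D.HR + 3 ≤ k) (h1 : k ≤ 2 * (n * D.HR) + 3) :
    D.plt (D.PP n k) = D.PL (D.ρl n (2 * (n * D.HR) + 2 - k)) := by
  have hH : 0 < n * D.HR := mul_pos hn D.HR_pos
  rw [D.PP_eq (by omega) (by omega)]
  unfold pq
  rw [if_neg (by omega), if_neg (by omega), if_neg (by omega)]
  have b := D.ρl_bd hn (y := 2 * (n * D.HR) + 2 - k) (by omega) (by omega)
  exact D.plt_nl b.1 b.2

lemma pl_0 : D.plt (D.PP n 0) = (0, (D.n2 : ℤ) - 1) := by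
  have hH : 0 < n * D.HR := mul_pos hn D.HR_pos
  rw [D.PP_eq le_rfl (by omega)]
  unfold pq
  rw [if_pos rfl, pl_bot]

lemma pl_end : D.plt (D.PP n (2 * (n * D.HR) + 4)) = (0, (D.n2 : ℤ) - 1) := by
  rw [D.PP_end hn, show 10 * (D.n2 : ℤ) - 1 = 2 * D.n2 - 1 + 8 * D.n2 by ring,
    Pool.Agent.H68.G.plt_add, pl_bot]

lemma pl_h : D.plt (D.PP n (n * D.HR + 2)) = (2, (D.n2 : ℤ) - 1) := by
  have hH : 0 < n * D.HR := mul_pos hn D.HR_pos
  rw [D.PP_eq (by omega) (by omega)]
  unfold pq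
  rw [if_neg (by omega), if_neg (by omega), if_pos rfl, pl_top]

end vals

/-- **The outer tiles at the convex corners lie in the plates of the two positions.** -/
theorem tile_pos {n : ℤ} (h2 : 2 ≤ n) (he : n % 2 = 0) {q : ℤ × ℤ} {i k : ℤ}
    (h : PosR ((D.cw s).win n h2 he) q i k) :
    D.tp n (D.ow n) (tl q (i + 1)) = some (D.plt (D.PP n (k - 1))) ∧
      D.tp n (D.ow n) (tl q (i + 3)) = some (D.plt (D.PP n k)) := by
  have hn : (0 : ℤ) < n := by omega
  have hH : 0 < n * D.HR := mul_pos hn D.HR_pos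
  have hYP := D.YP_bd
  have hP : n * ((D.M : ℤ) - D.τ) + n ≤ n * D.HR := mul_gap hn (by omega)
  have hP0 : 0 < n * ((D.M : ℤ) - D.τ) := mul_pos hn (by omega)
  have hQ0 : 0 < n * (D.HR - ((D.M : ℤ) - D.τ)) := mul_pos hn (by omega)
  have hQ : n * (D.HR - ((D.M : ℤ) - D.τ)) + n ≤ n * D.HR := mul_gap hn (by omega)
  have hab : ∀ y, 0 ≤ y → y < n * D.HR → (D.cw s).wa n y + 2 ≤ (D.cw s).wb n y := fun y g0 g1 =>
    CW.wab (C := D.cw s) h2 g0 g1
  -- the structure fields
  have f1 : ((D.cw s).win n h2 he).yP = n * (D.M - D.τ) := rfl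
  have f2 : ((D.cw s).win n h2 he).yQ = n * (D.HR - (D.M - D.τ)) := rfl
  have f3 : ((D.cw s).win n h2 he).h = n * D.HR := rfl
  have f4 : ∀ y, ((D.cw s).win n h2 he).a y = (D.cw s).wa n y := fun _ => rfl
  have f5 : ∀ y, ((D.cw s).win n h2 he).b y = (D.cw s).wb n y := fun _ => rfl
  unfold PosR at h
  simp only [f1, f2, f3, f4, f5] at h
  rcases h with ⟨z, z0, z1, hz, rfl, rfl, rfl⟩ | ⟨z, z0, z1, hz, rfl, rfl, rfl⟩ |
    ⟨z, z0, z1, hz, rfl, rfl, rfl⟩ | ⟨z, z0, z1, hz, rfl, rfl, rfl⟩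
  · -- lower left
    have e1 : tl ((D.cw s).wa n z, z) (2 + 1) = ((D.cw s).wa n z - 1, z) := rfl
    have e2 : tl ((D.cw s).wa n z, z) (2 + 3) = ((D.cw s).wa n z, z - 1) := rfl
    rw [e1, e2]
    have r1 : D.ρl n (z - 1) = z / n := by
      unfold ρl; rw [if_pos (by omega), sub_add_cancel]
    constructor
    · rw [D.t_left s h2 z0 (by omega) rfl, D.pl_l hn (by omega) (by omega),
        show 2 * (n * D.HR) + 2 - (2 * (n * D.HR) + 4 - z - 1) = z - 1 by ring, r1]
    · rcases eq_or_lt_of_le z0 with hz0 | hz0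
      · subst hz0
        rw [sub_zero, D.pl_end hn, zero_sub]
        exact D.t_bot s h2 le_rfl (by have := hab 0 le_rfl hH; omega)
      · have r2 : D.ρl n (z - 2) = (z - 1) / n := by
          unfold ρl; rw [if_pos (by omega), show z - 2 + 1 = z - 1 by ring]
        rw [D.pl_l hn (by omega) (by omega),
          show 2 * (n * D.HR) + 2 - (2 * (n * D.HR) + 4 - z) = z - 2 by ring, r2]
        refine D.t_floorL s h2 he (by omega) (by omega) ?_ (hz hz0)
        rw [sub_add_cancel]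
  · -- upper left
    have e1 : tl ((D.cw s).wa n (z - 1), z) (1 + 1) = ((D.cw s).wa n (z - 1), z) := rfl
    have e2 : tl ((D.cw s).wa n (z - 1), z) (1 + 3) = ((D.cw s).wa n (z - 1) - 1, z - 1) := rfl
    rw [e1, e2]
    constructor
    · rcases eq_or_lt_of_le z1 with hz1 | hz1
      · subst hz1
        rw [show 2 * (n * D.HR) + 3 - n * D.HR - 1 = n * D.HR + 2 by ring, D.pl_h hn]
        exact D.t_top s h2 le_rfl (by have := hab (n * D.HR - 1) (by omega) (by omega); omega)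
      · have r2 : D.ρl n z = z / n := by
          unfold ρl; rw [if_neg (by omega)]
        rw [D.pl_l hn (by omega) (by omega),
          show 2 * (n * D.HR) + 2 - (2 * (n * D.HR) + 3 - z - 1) = z by ring, r2]
        exact D.t_ceilL s h2 (by omega) hz1 le_rfl (hz hz1)
    · have r2 : D.ρl n (z - 1) = (z - 1) / n := by
        unfold ρl; rw [if_neg (by omega)]
      rw [D.pl_l hn (by omega) (by omega),
        show 2 * (n * D.HR) + 2 - (2 * (n * D.HR) + 3 - z) = z - 1 by ring, r2]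
      exact D.t_left s h2 (by omega) (by omega) rfl
  · -- lower right
    have e1 : tl ((D.cw s).wb n z, z) (3 + 1) = ((D.cw s).wb n z - 1, z - 1) := rfl
    have e2 : tl ((D.cw s).wb n z, z) (3 + 3) = ((D.cw s).wb n z, z) := rfl
    rw [e1, e2, add_sub_cancel_right]
    constructor
    · rcases eq_or_lt_of_le z0 with hz0 | hz0
      · subst hz0
        rw [D.pl_0 hn, zero_sub]
        exact D.t_bot s h2 (by have := hab 0 le_rfl hH; omega) (by omega)
      · have r2 : D.ρr n (z - 2) = (z - 1) / n := by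
          unfold ρr; rw [if_pos (by omega), show z - 2 + 1 = z - 1 by ring]
        rw [D.pl_r hn (by omega) (by omega), r2]
        have := hz hz0
        refine D.t_floorR s h2 he (by omega) (by omega) ?_ (by omega)
        rw [sub_add_cancel]
        omega
    · have r2 : D.ρr n (z + 1 - 2) = z / n := by
        unfold ρr; rw [if_pos (by omega), show z + 1 - 2 + 1 = z by ring]
      rw [D.pl_r hn (by omega) (by omega), r2]
      exact D.t_right s h2 z0 (by omega) rfl
  · -- upper right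
    have e1 : tl ((D.cw s).wb n (z - 1), z) (0 + 1) = ((D.cw s).wb n (z - 1), z - 1) := rfl
    have e2 : tl ((D.cw s).wb n (z - 1), z) (0 + 3) = ((D.cw s).wb n (z - 1) - 1, z) := rfl
    rw [e1, e2]
    constructor
    · have r2 : D.ρr n (z + 2 - 1 - 2) = (z - 1) / n := by
        unfold ρr; rw [if_neg (by omega), show z + 2 - 1 - 2 = z - 1 by ring]
      rw [D.pl_r hn (by omega) (by omega), r2]
      exact D.t_right s h2 (by omega) (by omega) rfl
    · rcases eq_or_lt_of_le z1 with hz1 | hz1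
      · subst hz1
        rw [D.pl_h hn]
        exact D.t_top s h2 (by have := hab (n * D.HR - 1) (by omega) (by omega); omega) (by omega)
      · have r2 : D.ρr n (z + 2 - 2) = z / n := by
          unfold ρr; rw [if_neg (by omega), show z + 2 - 2 = z by ring]
        rw [D.pl_r hn (by omega) (by omega), r2]
        have := hz hz1
        exact D.t_ceilR s h2 he (by omega) hz1 (by omega) (by omega)

end RG

end Pool.Agent.H65.G
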