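import Mathlib
import Pool.Agent.H65.G.PlTile

set_option autoImplicit false
open Finset

/-!
# The diagonal tiles at the convex corners of the room (Route W, W-G, R3b)

`tile_diag` : the diagonal tile of a convex corner at the position `k` lies in the plate of the position `k - 1`.
`agr_side`, `agr_diag` : if the plates are solid outside of the room, the labels have the colours `natc` on the
tiles which have a common side with the room, and on the diagonal tiles of the corners at which the colour of the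
sides does not change.
-/

namespace Pool.Agent.H65.G

open Pool.Agent.Q1.M4 (Cell)
open Pool.Agent.H5.FM
open Pool.Agent.H33.Q1 (lt)
open Pool.Agent.H46.Sp (Win mm MM)
open Pool.Agent.H74.Win (InP natc sh)
open Pool.Agent.H59.J (tl)
open Pool.Agent.H13.Sp (colp)

namespace RG

variable (D : RG) (s : ℕ × ℤ → Bool)

/-- the cell below and on the left of the first cell of a row, lower part -/
lemma rg_DL {Y : ℤ} (h0 : 0 ≤ Y) (h1 : Y < D.M - D.τ) :
    D.rg (D.AL Y - 1, Y - 1 - D.N + D.τ) = some (D.PL Y) := by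
  have hM := D.MZ
  have hn := D.n2Z
  have hNZ := D.NZ
  have ht := D.thinZ
  have hτ := D.τZ
  have hNM := D.NM
  by_cases hY : Y < 2 * (D.n2 : ℤ) - 1
  · rw [D.AL_lo hY]
    have e0 : D.PL Y = (0, D.n2 - 2 - Y) := by unfold PL; rw [if_pos hY]
    have b1 : (D.M : ℤ) * (D.n2 - 1 - Y) ≤ D.M * (D.n2 - 1) := mul_le_mul_of_nonneg_left (by omega) hM.le
    have b2 : (D.M : ℤ) * (1 - D.n2) ≤ D.M * (D.n2 - 1 - Y) := mul_le_mul_of_nonneg_left (by omega) hM.le
    have e1 : (D.M : ℤ) * (D.n2 - 1) = D.n2 * D.M - D.M := by ring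
    have e2 : (D.M : ℤ) * (1 - D.n2) = D.M - D.n2 * D.M := by ring
    rw [e1] at b1
    rw [e2] at b2
    have hK : D.K (D.M * (D.n2 - 1 - Y) - 1) = D.n2 - 2 - Y := by
      unfold K
      rw [Pool.Agent.H50.W.dv hM]
      have e3 : (D.M : ℤ) * (D.n2 - 2 - Y) = D.M * (D.n2 - 1 - Y) - D.M := by ring
      rw [e3]
      omega
    have h : D.onA (D.M * (D.n2 - 1 - Y) - 1, Y - 1 - D.N + D.τ) := by
      refine ⟨?_, ?_, ?_⟩
      · simp only; omega
      · simp only
        rw [hK]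
        unfold hw
        omega
      · simp only; omega
    rw [D.rg_0 h, e0]
    simp only
    rw [hK]
  · rw [D.AL_tip (by omega) h1]
    have e0 : D.PL Y = (3, D.K (D.N - D.τ - 1 - Y)) := by unfold PL; rw [if_neg hY]
    have k1 : D.K (D.N - D.τ - 1 - Y) = D.n2 - 1 := by
      unfold K
      rw [Pool.Agent.H50.W.dv hM]
      have e3 : (D.M : ℤ) * (D.n2 - 1) = D.n2 * D.M - D.M := by ring
      rw [e3]
      omega
    have k2 : D.K (-1 - (Y - 1 - D.N + D.τ)) = D.n2 - 1 := by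
      unfold K
      rw [Pool.Agent.H50.W.dv hM]
      have e3 : (D.M : ℤ) * (D.n2 - 1) = D.n2 * D.M - D.M := by ring
      rw [e3]
      omega
    have h : D.onA (-1 - (Y - 1 - D.N + D.τ), -(D.N : ℤ) + D.τ - 1) := by
      refine ⟨?_, ?_, ?_⟩
      · simp only; omega
      · simp only
        rw [k2]
        unfold hw
        omega
      · simp only; omega
    rw [D.rg_3 h, k2, e0, k1]

/-- the cell above and on the left of the last cell of a row, upper part -/
lemma rg_UL {Z : ℤ} (h0 : (D.M : ℤ) - D.τ - 1 ≤ Z) (h1 : Z + 1 < D.HR) :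
    D.rg (D.AL Z - 1, Z + 1 - D.N + D.τ) = some (D.PL (Z + 1)) := by
  have hM := D.MZ
  have hn := D.n2Z
  have hNZ := D.NZ
  have ht := D.thinZ
  have hτ := D.τZ
  have hNM := D.NM
  unfold HR at h1
  have e0 : D.PL (Z + 1) = (3, D.K (D.N - D.τ - 1 - (Z + 1))) := by
    unfold PL; rw [if_neg (by omega)]
  have e1 : -1 - (Z + 1 - D.N + D.τ) = D.N - D.τ - 1 - (Z + 1) := by ring
  have h : D.onA (-1 - (Z + 1 - D.N + D.τ), D.AL Z - 1) := by
    rw [e1, D.AL_hi (by omega)]
    have a1 := D.hw_anti (x := D.N - D.τ - 1 - (Z + 1)) (x' := D.N - D.τ - 1 - Z) (by omega)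
    have a2 := D.hw_ge (x := D.N - D.τ - 1 - Z) (by omega)
    refine ⟨?_, ?_, ?_⟩
    · simp only; omega
    · simp only; omega
    · simp only; omega
  rw [D.rg_3 h, e0, e1]

/-- the cell below and on the right of the last cell of the first row -/
lemma rg_DR0 : D.rg (D.AR 0, -1 - D.N + D.τ) = some (0, (D.n2 : ℤ) - 1) := by
  have hM := D.MZ
  have hn := D.n2Z
  have hNZ := D.NZ
  have ht := D.thinZ
  have hτ := D.τZ
  have hNM := D.NM
  have e1 : D.AR 0 = D.N - (D.τ + 2 * D.n2 - 1) := by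
    unfold AR HR
    rw [D.AL_hi (by omega)]
    have h4 : D.K (D.N - D.τ - 1 - (2 * D.N - 2 * D.τ - 1 - 0)) = -D.n2 := by
      unfold K
      rw [Pool.Agent.H50.W.dv hM, hNZ]
      have e : (D.M : ℤ) * (-D.n2) = -(D.n2 * D.M) := by ring
      rw [e]
      omega
    rw [h4]
    unfold hw
    ring
  rw [e1]
  have hK : D.K (D.N - (D.τ + 2 * D.n2 - 1)) = D.n2 - 1 := by
    unfold K
    rw [Pool.Agent.H50.W.dv hM]
    have e3 : (D.M : ℤ) * (D.n2 - 1) = D.n2 * D.M - D.M := by ring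
    rw [e3]
    omega
  have h : D.onA ((D.N : ℤ) - (D.τ + 2 * D.n2 - 1), -1 - D.N + D.τ) := by
    refine ⟨?_, ?_, ?_⟩
    · simp only; omega
    · simp only
      rw [hK]
      unfold hw
      omega
    · simp only; omega
  rw [D.rg_0 h]
  simp only
  rw [hK]

lemma flip_flip {q : ℕ × ℤ} (h : q.1 < 4) : flip (flip q) = q := by
  obtain ⟨k, K⟩ := q
  unfold flip
  simp only at h ⊢
  congr 1
  omega

/-- the cell below and on the right of the last cell of a row, lower part -/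
lemma rg_DR {Y : ℤ} (h0 : 1 ≤ Y) (h1 : Y ≤ D.HR - (D.M - D.τ)) :
    D.rg (D.AR Y, Y - 1 - D.N + D.τ) = some (D.PR (Y - 1)) := by
  have hHR : D.HR = 2 * D.N - 2 * D.τ := rfl
  have h := D.rg_UL (Z := D.HR - 1 - Y) (by omega) (by omega)
  have h2 := D.rg_flip (D.AL (D.HR - 1 - Y) - 1, D.HR - 1 - Y + 1 - D.N + D.τ)
  rw [h] at h2
  unfold AR PR
  rw [show D.HR - 1 - (Y - 1) = D.HR - 1 - Y + 1 by ring]
  simp only [Option.map_some] at h2
  rw [show (-1 : ℤ) - (D.AL (D.HR - 1 - Y) - 1) = -D.AL (D.HR - 1 - Y) by ring,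
    show (-1 : ℤ) - (D.HR - 1 - Y + 1 - D.N + D.τ) = Y - 1 - D.N + D.τ by omega] at h2
  exact h2

/-- the cell above and on the right of the last cell of a row, upper part -/
lemma rg_UR {Y : ℤ} (h0 : D.HR - (D.M - D.τ) ≤ Y) (h1 : Y < D.HR) :
    D.rg (D.AR Y, Y + 1 - D.N + D.τ) = some (D.PR Y) := by
  have hHR : D.HR = 2 * D.N - 2 * D.τ := rfl
  have h := D.rg_DL (Y := D.HR - 1 - Y) (by omega) (by omega)
  have h2 := D.rg_flip (D.AL (D.HR - 1 - Y) - 1, D.HR - 1 - Y - 1 - D.N + D.τ)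
  rw [h] at h2
  unfold AR PR
  simp only [Option.map_some] at h2
  rw [show (-1 : ℤ) - (D.AL (D.HR - 1 - Y) - 1) = -D.AL (D.HR - 1 - Y) by ring,
    show (-1 : ℤ) - (D.HR - 1 - Y - 1 - D.N + D.τ) = Y + 1 - D.N + D.τ by omega] at h2
  exact h2

/-- the cell above and on the left of the last row -/
lemma rg_UL1 : D.rg (D.AL (D.HR - 1) - 1, D.N - D.τ) = some (2, (D.n2 : ℤ) - 1) := by
  have hHR : D.HR = 2 * D.N - 2 * D.τ := rfl
  have h2 := D.rg_flip (D.AR 0, -1 - D.N + D.τ)
  rw [D.rg_DR0] at h2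
  unfold AR at h2
  simp only [Option.map_some] at h2
  rw [show (-1 : ℤ) - -D.AL (D.HR - 1 - 0) = D.AL (D.HR - 1) - 1 by rw [sub_zero]; ring,
    show (-1 : ℤ) - (-1 - D.N + D.τ) = D.N - D.τ by ring] at h2
  rw [h2]
  rfl

/-- **The diagonal tile of a convex corner lies in the plate of the position `k - 1`.** -/
theorem tile_diag {n : ℤ} (h2 : 2 ≤ n) (he : n % 2 = 0) {q : ℤ × ℤ} {i k : ℤ}
    (h : PosR ((D.cw s).win n h2 he) q i k) :
    D.tp n (D.ow n) (tl q (i + 2)) = some (D.plt (D.PP n (k - 1))) := by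
  have hn : (0 : ℤ) < n := by omega
  have h1t := (D.tile_pos s h2 he h).1
  rw [← h1t]
  have hH : 0 < n * D.HR := mul_pos hn D.HR_pos
  have hYP := D.YP_bd
  have hP : n * ((D.M : ℤ) - D.τ) + n ≤ n * D.HR := mul_gap hn (by omega)
  have hP0 : 0 < n * ((D.M : ℤ) - D.τ) := mul_pos hn (by omega)
  have hQ0 : 0 < n * (D.HR - ((D.M : ℤ) - D.τ)) := mul_pos hn (by omega)
  have hQ : n * (D.HR - ((D.M : ℤ) - D.τ)) + n ≤ n * D.HR := mul_gap hn (by omega)
  have f1 : ((D.cw s).win n h2 he).yP = n * (D.M - D.τ) := rfl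
  have f2 : ((D.cw s).win n h2 he).yQ = n * (D.HR - (D.M - D.τ)) := rfl
  have f3 : ((D.cw s).win n h2 he).h = n * D.HR := rfl
  have f4 : ∀ y, ((D.cw s).win n h2 he).a y = (D.cw s).wa n y := fun _ => rfl
  have f5 : ∀ y, ((D.cw s).win n h2 he).b y = (D.cw s).wb n y := fun _ => rfl
  have wA : ∀ y, (D.cw s).wa n y = n * D.AL (y / n) - (D.cw s).dA n (y / n) (y % n) := fun _ => rfl
  have wB : ∀ y, (D.cw s).wb n y = n * D.AR (y / n) + (D.cw s).dB n (y / n) (y % n) := fun _ => rfl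
  have xA : ∀ y, ((D.cw s).wa n y - 1) / n = D.AL (y / n) - 1 := by
    intro y
    have a1 := CW.dA_01 (C := D.cw s) (N := n) (q := y / n) (r := y % n)
    rw [wA]
    refine div_eq' hn ?_ ?_ <;> rw [mul_sub, mul_one] <;> omega
  have xB : ∀ y, (D.cw s).wb n y / n = D.AR (y / n) := by
    intro y
    have a1 := CW.dB_01 (C := D.cw s) (N := n) (q := y / n) (r := y % n)
    rw [wB]
    refine div_eq' hn ?_ ?_ <;> omega
  -- neighbouring rows
  have dz : ∀ z : ℤ, (z - 1) / n = z / n ∨ ((z - 1) / n = z / n - 1 ∧ z % n = 0) := by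
    intro z
    obtain ⟨a, r, hz, r0, r1⟩ := exists_qr hn z
    have d1 : z / n = a := by rw [hz]; exact qr_div r0 r1
    rcases eq_or_lt_of_le r0 with h | h
    · right
      refine ⟨?_, ?_⟩
      · rw [d1, hz, ← h, show n * a + 0 - 1 = n * (a - 1) + (n - 1) by ring]
        exact qr_div (by omega) (by omega)
      · rw [hz, ← h]; exact qr_mod le_rfl hn
    · left
      rw [d1, hz, show n * a + r - 1 = n * a + (r - 1) by ring]
      exact qr_div (by omega) (by omega)
  have lt_div : ∀ z X : ℤ, z < n * X → z / n < X := fun z X g => by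
    rw [Int.ediv_lt_iff_lt_mul hn, mul_comm]; exact g
  have le_div : ∀ z X : ℤ, n * X ≤ z → X ≤ z / n := fun z X g => by
    rw [Int.le_ediv_iff_mul_le hn, mul_comm]; exact g
  unfold PosR at h
  simp only [f1, f2, f3, f4, f5] at h
  rcases h with ⟨z, z0, z1, hz, rfl, rfl, rfl⟩ | ⟨z, z0, z1, hz, rfl, rfl, rfl⟩ |
    ⟨z, z0, z1, hz, rfl, rfl, rfl⟩ | ⟨z, z0, z1, hz, rfl, rfl, rfl⟩
  · -- lower left
    have e1 : tl ((D.cw s).wa n z, z) (2 + 1) = ((D.cw s).wa n z - 1, z) := rfl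
    have e2 : tl ((D.cw s).wa n z, z) (2 + 2) = ((D.cw s).wa n z - 1, z - 1) := rfl
    rw [e1, e2, D.t_left s h2 z0 (by omega) rfl, D.tp_ow hn, xA]
    have r0 : 0 ≤ z / n := Int.ediv_nonneg z0 hn.le
    rcases dz z with g | ⟨g, -⟩
    · rw [g]
      exact D.rg_L r0 (lt_div _ _ (by omega)) (by omega) (Or.inl rfl)
    · rw [g]
      exact D.rg_DL r0 (lt_div _ _ z1)
  · -- upper left
    have e1 : tl ((D.cw s).wa n (z - 1), z) (1 + 1) = ((D.cw s).wa n (z - 1), z) := rfl
    have e2 : tl ((D.cw s).wa n (z - 1), z) (1 + 2) = ((D.cw s).wa n (z - 1) - 1, z) := rfl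
    rw [e1, e2]
    have hab := CW.wab (C := D.cw s) h2 (y := z - 1) (by omega) (by show z - 1 < n * D.HR; omega)
    rcases eq_or_lt_of_le z1 with hz1 | hz1
    · rw [hz1] at hab
      rw [hz1, D.t_top s h2 le_rfl (by omega), D.tp_ow hn, xA, D.top_div hn,
        Int.mul_ediv_cancel_left _ hn.ne', show D.HR - D.N + D.τ = D.N - D.τ by unfold HR; ring]
      exact D.rg_UL1
    · rw [D.t_ceilL s h2 (by omega) hz1 le_rfl (hz hz1), D.tp_ow hn, xA]
      rcases dz z with g | ⟨g, -⟩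
      · rw [g]
        exact D.rg_L (Int.ediv_nonneg (by omega) hn.le) (lt_div _ _ hz1) (by omega) (Or.inl rfl)
      · have g2 := le_div _ _ z0
        have g3 := lt_div _ _ hz1
        have g4 := D.rg_UL (Z := z / n - 1) (by omega) (by omega)
        rw [sub_add_cancel] at g4
        rw [g]
        exact g4
  · -- lower right
    have e1 : tl ((D.cw s).wb n z, z) (3 + 1) = ((D.cw s).wb n z - 1, z - 1) := rfl
    have e2 : tl ((D.cw s).wb n z, z) (3 + 2) = ((D.cw s).wb n z, z - 1) := rfl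
    rw [e1, e2]
    have hab := CW.wab (C := D.cw s) h2 (y := z) z0 (by show z < n * D.HR; omega)
    rcases eq_or_lt_of_le z0 with hz0 | hz0
    · rw [← hz0] at hab
      rw [← hz0, zero_sub, D.t_bot s h2 (x := (D.cw s).wb n 0 - 1) (by omega) (by omega), D.tp_ow hn,
        xB, Int.zero_ediv, div_eq' (x := -1) (X := -1) hn (by omega) (by omega)]
      exact D.rg_DR0
    · have g0 := hz hz0
      rw [D.t_floorR s h2 he (x := (D.cw s).wb n z - 1) (y := z - 1) (by omega) (by omega)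
        (by rw [sub_add_cancel]; omega) (by omega), D.tp_ow hn, xB]
      rcases dz z with g | ⟨g, -⟩
      · rw [g]
        exact D.rg_R (Int.ediv_nonneg z0 hn.le) (lt_div _ _ (by omega)) le_rfl (Or.inl rfl)
      · have g3 : 0 ≤ (z - 1) / n := Int.ediv_nonneg (by omega) hn.le
        have g5 : z / n ≤ D.HR - (D.M - D.τ) := by
          have : z / n < D.HR - (D.M - D.τ) + 1 := lt_div _ _ (by rw [mul_add, mul_one]; omega)
          omega
        rw [g]
        exact D.rg_DR (by omega) g5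
  · -- upper right
    have e1 : tl ((D.cw s).wb n (z - 1), z) (0 + 1) = ((D.cw s).wb n (z - 1), z - 1) := rfl
    have e2 : tl ((D.cw s).wb n (z - 1), z) (0 + 2) = ((D.cw s).wb n (z - 1), z) := rfl
    rw [e1, e2, D.t_right s h2 (by omega) (by omega) rfl, D.tp_ow hn, xB]
    rcases dz z with g | ⟨g, -⟩
    · rw [← g]
      exact D.rg_R (Int.ediv_nonneg (by omega) hn.le) (lt_div _ _ (by omega)) le_rfl (Or.inl rfl)
    · have g2 := le_div _ _ (show n * (D.HR - (D.M - D.τ)) ≤ z - 1 by omega)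
      have g4 := D.rg_UR (Y := (z - 1) / n) g2 (lt_div _ _ (by omega))
      have g5 : z / n = (z - 1) / n + 1 := by omega
      rw [g5]
      exact g4

/-! ### Agreement with the natural colours -/

section agree

variable {n : ℤ} (h2 : 2 ≤ n) (he : n % 2 = 0) {V : Finset (ℤ × ℤ)}

/-- the plates are solid outside of the room (frame of the window) -/
def Solid (V : Finset (ℤ × ℤ)) : Prop :=
  ∀ t q, ¬ InP ((D.cw s).win n h2 he) false t.1 t.2 → D.tp n (D.ow n) t = some q →
    (lt t ∈ V ↔ s q = true)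

/-- **The labels next to the room have the natural colours.** -/
theorem agr_side (hV : D.Solid s h2 he V) {t : ℤ × ℤ}
    (hz : ¬ InP ((D.cw s).win n h2 he) false t.1 t.2)
    (hnb : InP ((D.cw s).win n h2 he) false (t.1 + 1) t.2 ∨ InP ((D.cw s).win n h2 he) false (t.1 - 1) t.2 ∨
      InP ((D.cw s).win n h2 he) false t.1 (t.2 + 1) ∨ InP ((D.cw s).win n h2 he) false t.1 (t.2 - 1)) :
    lt t ∈ V ↔ natc ((D.cw s).win n h2 he) false t.1 t.2 = true := by
  have hn : (0 : ℤ) < n := by omega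
  obtain ⟨q, h3, h4⟩ := D.wall_colour s h2 he hz hnb
  rw [h4]
  refine hV t q hz ?_
  have := D.tp_ow hn t.1 t.2
  rw [show ((t.1, t.2) : ℤ × ℤ) = t from rfl] at this
  rw [this]
  exact h3

/-- the diagonal tiles have the colour of the position `k - 1` -/
theorem agr_diag (hV : D.Solid s h2 he V) {q : ℤ × ℤ} {i k : ℤ}
    (h : PosR ((D.cw s).win n h2 he) q i k)
    (hz : ¬ InP ((D.cw s).win n h2 he) false (tl q (i + 2)).1 (tl q (i + 2)).2) :
    lt (tl q (i + 2)) ∈ V ↔ colp ((D.cw s).win n h2 he) (k - 1) = true := by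
  rw [D.colp_PP s h2 he]
  exact hV _ _ hz (D.tile_diag s h2 he h)

end agree

end RG

end Pool.Agent.H65.G
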